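import Pool.Agent.Q282.RH.Planes

/-!
# The number of points of a union of linear subspaces
-/

set_option autoImplicit false
set_option linter.unusedSectionVars false

namespace Q282RH

open Finset MvPolynomial
open scoped LinearAlgebra.Projectivization

/-- points of projective space and nonzero vectors -/
lemma proj_count {n p : ℕ} [hp : Fact p.Prime] (φ : (Fin (n + 1) → ZMod p) → Prop) [DecidablePred φ]
    (hφ : ∀ (t : ZMod p) x, t ≠ 0 → φ x → φ (t • x)) :
    (univ.filter fun x : Fin (n + 1) → ZMod p => x ≠ 0 ∧ φ x).card = (p - 1) * (univ.filter fun P : Pt n p => φ P.rep).card := by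
  classical
  rw [← ZMod.card_units p, ← card_univ, ← card_product]
  symm
  refine card_bij (fun z _ => (z.1 : ZMod p) • z.2.rep) ?_ ?_ ?_
  · rintro ⟨u, P⟩ hz
    rw [mem_product, mem_filter] at hz
    rw [mem_filter]
    refine ⟨mem_univ _, ?_, hφ _ _ u.ne_zero hz.2.2⟩
    exact smul_ne_zero u.ne_zero P.rep_nonzero
  · rintro ⟨u, P⟩ _ ⟨u', P'⟩ _ h
    simp only at h
    have hP : P = P' := by
      rw [← P.mk_rep, ← P'.mk_rep, Projectivization.mk_eq_mk_iff']
      refine ⟨(u : ZMod p)⁻¹ * u', ?_⟩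
      rw [mul_smul, ← h, smul_smul, inv_mul_cancel₀ u.ne_zero, one_smul]
    subst hP
    have h1 : ((u : ZMod p) - u') • P.rep = 0 := by
      rw [sub_smul, h, sub_self]
    rcases smul_eq_zero.1 h1 with h2 | h2
    · rw [Prod.mk.injEq]
      exact ⟨Units.ext (sub_eq_zero.1 h2), rfl⟩
    · exact absurd h2 P.rep_nonzero
  · intro x hx
    rw [mem_filter] at hx
    obtain ⟨a, ha⟩ := Projectivization.exists_smul_eq_mk_rep (ZMod p) x hx.2.1
    refine ⟨(a⁻¹, Projectivization.mk (ZMod p) x hx.2.1), ?_, ?_⟩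
    · rw [mem_product, mem_filter]
      refine ⟨mem_univ _, mem_univ _, ?_⟩
      rw [← ha]
      exact hφ _ _ a.ne_zero hx.2.2
    · show ((a⁻¹ : (ZMod p)ˣ) : ZMod p) • (Projectivization.mk (ZMod p) x hx.2.1).rep = x
      rw [← ha, Units.smul_def, smul_smul, Units.inv_mul, one_smul]

/-- the union of finite sets that intersect little -/
lemma union_bounds {α : Type} [DecidableEq α] {r : ℕ} (A : Fin r → Finset α) (a b : ℕ) (ha : ∀ i, (A i).card = a)
    (hb : ∀ i j, i ≠ j → (A i ∩ A j).card ≤ b) : (univ.biUnion A).card ≤ r * a ∧ r * a ≤ (univ.biUnion A).card + r ^ 2 * b := by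
  constructor
  · refine card_biUnion_le.trans (le_of_eq ?_)
    rw [sum_congr rfl fun i _ => ha i, sum_const, card_univ, Fintype.card_fin, smul_eq_mul]
  · have h1 : ∑ i, (A i).card = ∑ x ∈ univ.biUnion A, (univ.filter fun i => x ∈ A i).card := by
      have h0 := sum_card_bipartiteAbove_eq_sum_card_bipartiteBelow (s := univ) (t := univ.biUnion A) (fun i x => x ∈ A i)
      unfold bipartiteBelow at h0
      rw [← h0]
      refine sum_congr rfl fun i _ => ?_
      congr 1
      ext x
      unfold bipartiteAbove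
      rw [mem_filter, mem_biUnion]
      exact ⟨fun h => ⟨⟨i, mem_univ _, h⟩, h⟩, fun h => h.2⟩
    have h2 : ∑ z ∈ (univ : Finset (Fin r × Fin r)).filter (fun z => z.1 ≠ z.2), (A z.1 ∩ A z.2).card =
        ∑ x ∈ univ.biUnion A, (((univ : Finset (Fin r × Fin r)).filter (fun z => z.1 ≠ z.2)).filter fun z => x ∈ A z.1 ∩ A z.2).card := by
      have h0 := sum_card_bipartiteAbove_eq_sum_card_bipartiteBelow (s := (univ : Finset (Fin r × Fin r)).filter (fun z => z.1 ≠ z.2))
        (t := univ.biUnion A) (fun z x => x ∈ A z.1 ∩ A z.2)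
      unfold bipartiteBelow at h0
      rw [← h0]
      refine sum_congr rfl fun z _ => ?_
      congr 1
      ext x
      unfold bipartiteAbove
      rw [mem_filter, mem_biUnion]
      exact ⟨fun h => ⟨⟨z.1, mem_univ _, (mem_inter.1 h).1⟩, h⟩, fun h => h.2⟩
    have h3 : ∀ x ∈ univ.biUnion A, (univ.filter fun i => x ∈ A i).card ≤
        1 + (((univ : Finset (Fin r × Fin r)).filter (fun z => z.1 ≠ z.2)).filter fun z => x ∈ A z.1 ∩ A z.2).card := by
      intro x hx
      rw [mem_biUnion] at hx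
      obtain ⟨i₀, _, hi₀⟩ := hx
      have h4 : ((univ.filter fun i => x ∈ A i).erase i₀).card ≤
          (((univ : Finset (Fin r × Fin r)).filter (fun z => z.1 ≠ z.2)).filter fun z => x ∈ A z.1 ∩ A z.2).card := by
        refine card_le_card_of_injOn (fun i => (i₀, i)) ?_ ?_
        · intro i hi
          rw [mem_coe, mem_erase, mem_filter] at hi
          rw [mem_coe, mem_filter, mem_filter, mem_inter]
          exact ⟨⟨mem_univ _, hi.1.symm⟩, hi₀, hi.2.2⟩
        · intro i _ j _ h
          exact (Prod.mk.injEq _ _ _ _ ▸ h).2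
      have h5 : i₀ ∈ univ.filter fun i => x ∈ A i := mem_filter.2 ⟨mem_univ _, hi₀⟩
      rw [card_erase_of_mem h5] at h4
      omega
    have h4 : r * a = ∑ i, (A i).card := by
      rw [sum_congr rfl fun i _ => ha i, sum_const, card_univ, Fintype.card_fin, smul_eq_mul]
    rw [h4, h1]
    refine (sum_le_sum h3).trans ?_
    rw [sum_add_distrib, sum_const, smul_eq_mul, mul_one, ← h2]
    refine Nat.add_le_add_left ?_ _
    refine (sum_le_sum fun z hz => hb z.1 z.2 (mem_filter.1 hz).2).trans ?_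
    rw [sum_const, smul_eq_mul]
    refine Nat.mul_le_mul_right _ ?_
    refine (card_filter_le _ _).trans ?_
    rw [card_univ, Fintype.card_prod, Fintype.card_fin, sq]

/-- the linear form with coefficients `v` -/
noncomputable def lin {n : ℕ} (v : Fin (n + 1) → ℤ) : MvPolynomial (Fin (n + 1)) ℤ := ∑ i, C (v i) * X i

/-- the products of one equation of each of the linear subspaces; their common zeros are the union -/
noncomputable def prodForms {n r c : ℕ} (l : Fin r → Fin c → Fin (n + 1) → ℤ) (φ : Fin r → Fin c) : MvPolynomial (Fin (n + 1)) ℤ :=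
  ∏ i, lin (l i (φ i))

lemma lin_hom {n : ℕ} (v : Fin (n + 1) → ℤ) : (lin v).IsHomogeneous 1 := by
  unfold lin
  exact IsHomogeneous.sum _ _ _ fun i _ => isHomogeneous_C_mul_X _ _

lemma prodForms_hom {n r c : ℕ} (l : Fin r → Fin c → Fin (n + 1) → ℤ) (φ : Fin r → Fin c) : (prodForms l φ).IsHomogeneous r := by
  unfold prodForms
  have := IsHomogeneous.prod univ (fun i => lin (l i (φ i))) (fun _ => 1) (fun i _ => lin_hom _)
  rw [sum_const, card_univ, Fintype.card_fin, smul_eq_mul, mul_one] at this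
  exact this

lemma val_lin {n p : ℕ} [Fact p.Prime] (v : Fin (n + 1) → ℤ) (P : Pt n p) : val (lin v) P = ∑ i, (v i : ZMod p) * P.rep i := by
  unfold lin
  rw [val_sum]
  refine sum_congr rfl fun i _ => ?_
  rw [val_mul, val_C, val_X]

lemma prodForms_zero {n r c p : ℕ} [Fact p.Prime] (l : Fin r → Fin c → Fin (n + 1) → ℤ) (P : Pt n p) :
    (∀ F ∈ (∅ : Set (MvPolynomial (Fin (n + 1)) ℤ)) ∪ Set.range (prodForms l), val F P = 0) ↔ ∃ i, P.rep ∈ kerMod p (l i) := by
  constructor
  · intro h
    by_contra hcon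
    push Not at hcon
    have h1 : ∀ i, ∃ k, val (lin (l i k)) P ≠ 0 := by
      intro i
      have h2 := hcon i
      rw [mem_kerMod] at h2
      push Not at h2
      obtain ⟨k, hk⟩ := h2
      exact ⟨k, by rw [val_lin]; exact hk⟩
    choose φ hφ using h1
    have h2 := h (prodForms l φ) (Or.inr ⟨φ, rfl⟩)
    unfold prodForms at h2
    rw [val_prod, prod_eq_zero_iff] at h2
    obtain ⟨i, _, hi⟩ := h2
    exact hφ i hi
  · rintro ⟨i, hi⟩ F (hF | ⟨φ, rfl⟩)
    · exact absurd hF (Set.notMem_empty _)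
    · unfold prodForms
      rw [val_prod]
      refine prod_eq_zero (mem_univ i) ?_
      rw [val_lin]
      rw [mem_kerMod] at hi
      exact hi (φ i)

/-- the linear subspaces given by the equations `l i` are different -/
def Distinct {n r c : ℕ} (l : Fin r → Fin c → Fin (n + 1) → ℤ) : Prop :=
  ∀ i j, i ≠ j → ∃ x : Fin (n + 1) → ℚ, ¬ ((∀ k, ∑ s, (l i k s : ℚ) * x s = 0) ↔ ∀ k, ∑ s, (l j k s : ℚ) * x s = 0)

/-- for two different subspaces of the same dimension an equation of the second is independent of those of the first -/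
lemma indep_cons {n c : ℕ} (u v : Fin c → Fin (n + 1) → ℤ) (hu : Indep u) (hv : Indep v)
    (hne : ∃ x : Fin (n + 1) → ℚ, ¬ ((∀ k, ∑ s, (u k s : ℚ) * x s = 0) ↔ ∀ k, ∑ s, (v k s : ℚ) * x s = 0)) :
    ∃ k, Indep (Fin.cons (v k) u : Fin (c + 1) → Fin (n + 1) → ℤ) := by
  by_contra hcon
  push Not at hcon
  have hcons : ∀ k, (fun k' s => ((Fin.cons (v k) u : Fin (c + 1) → Fin (n + 1) → ℤ) k' s : ℚ)) =
      (Fin.cons (fun s => (v k s : ℚ)) (fun k' s => (u k' s : ℚ)) : Fin (c + 1) → Fin (n + 1) → ℚ) := by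
    intro k
    funext k'
    refine Fin.cases ?_ (fun k'' => ?_) k'
    · rw [Fin.cons_zero, Fin.cons_zero]
    · rw [Fin.cons_succ, Fin.cons_succ]
  have h1 : ∀ k, (fun s => (v k s : ℚ)) ∈ Submodule.span ℚ (Set.range fun k' s => (u k' s : ℚ)) := by
    intro k
    by_contra h2
    apply hcon k
    unfold Indep
    rw [hcons k, linearIndependent_finCons]
    exact ⟨hu, h2⟩
  have hle : Submodule.span ℚ (Set.range fun k s => (v k s : ℚ)) ≤ Submodule.span ℚ (Set.range fun k' s => (u k' s : ℚ)) := by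
    rw [Submodule.span_le]
    rintro _ ⟨k, rfl⟩
    exact h1 k
  have heq : Submodule.span ℚ (Set.range fun k s => (v k s : ℚ)) = Submodule.span ℚ (Set.range fun k' s => (u k' s : ℚ)) := by
    refine Submodule.eq_of_le_of_finrank_eq hle ?_
    rw [finrank_span_eq_card hv, finrank_span_eq_card hu]
  obtain ⟨x, hx⟩ := hne
  apply hx
  -- the linear functional `y ↦ ∑ y_s x_s`
  have hfun : ∀ w : Fin c → Fin (n + 1) → ℤ, (∀ k, ∑ s, (w k s : ℚ) * x s = 0) ↔
      Submodule.span ℚ (Set.range fun k s => (w k s : ℚ)) ≤ LinearMap.ker (Fintype.linearCombination ℚ (fun s => x s)) := by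
    intro w
    rw [Submodule.span_le]
    constructor
    · rintro h _ ⟨k, rfl⟩
      show Fintype.linearCombination ℚ (fun s => x s) (fun s => (w k s : ℚ)) = 0
      rw [Fintype.linearCombination_apply]
      simpa only [smul_eq_mul] using h k
    · intro h k
      have h3 : Fintype.linearCombination ℚ (fun s => x s) (fun s => (w k s : ℚ)) = 0 := h ⟨k, rfl⟩
      rw [Fintype.linearCombination_apply] at h3
      simpa only [smul_eq_mul] using h3
  rw [hfun u, hfun v, heq]

end Q282RH
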