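import Pool.Agent.Q282.RH.Even

/-!
# Hypersurfaces of even dimension: all truncations at once
-/

set_option autoImplicit false
set_option linter.unusedSectionVars false

namespace Q282RH

open Finset MvPolynomial

lemma sum_inv_sq (J : ℕ) : ∑ j ∈ range (J + 1), 1 / ((j : ℝ) + 1) ^ 2 ≤ 2 := by
  have h : ∑ j ∈ range (J + 1), 1 / ((j : ℝ) + 1) ^ 2 ≤ 2 - 1 / ((J : ℝ) + 1) := by
    induction J with
    | zero => norm_num
    | succ J ih =>
      rw [sum_range_succ]
      push_cast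
      have h1 : 1 / ((J : ℝ) + 1 + 1) ^ 2 ≤ 1 / (J + 1) - 1 / (J + 1 + 1) := by
        rw [div_sub_div _ _ (by positivity) (by positivity), div_le_div_iff₀ (by positivity) (by positivity)]
        have : (0 : ℝ) ≤ J := Nat.cast_nonneg J
        nlinarith
      linarith
  have : 0 < 1 / ((J : ℝ) + 1) := by positivity
  linarith

/-- the scale of a number -/
lemma scale (T' : ℕ) (hT' : 2 ≤ T') : ∃ j : ℕ, T' + 1 ≤ 2 ^ j ∧ 2 ^ j ≤ 2 * T' ∧ (j : ℝ) + 1 ≤ 5 * Real.log T' := by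
  refine ⟨Nat.log 2 T' + 1, ?_, ?_, ?_⟩
  · exact Nat.lt_pow_succ_log_self (by norm_num) T'
  · have := Nat.pow_log_le_self 2 (x := T') (by omega)
    rw [pow_succ]
    omega
  · have h1 : (Nat.log 2 T' : ℝ) * Real.log 2 ≤ Real.log T' := by
      have h2 : ((2 ^ Nat.log 2 T' : ℕ) : ℝ) ≤ T' := by exact_mod_cast Nat.pow_log_le_self 2 (x := T') (by omega)
      have h3 := Real.log_le_log (by positivity) h2
      push_cast at h3
      rwa [Real.log_pow] at h3
    have h2 : (0.69 : ℝ) ≤ Real.log 2 := by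
      have := Real.log_two_gt_d9
      linarith
    have h3 : Real.log 2 ≤ Real.log (T' : ℝ) := Real.log_le_log (by norm_num) (by exact_mod_cast hT')
    have h4 : (0 : ℝ) ≤ Nat.log 2 T' := Nat.cast_nonneg _
    push_cast
    nlinarith

lemma primesLE_eq_Ico (T T' : ℕ) (h : T' ≤ T) : Nat.primesLE T' = (Ico 0 (0 + (T' + 1))).filter (fun p => p.Prime ∧ p ≤ T) := by
  ext p
  rw [Nat.mem_primesLE, mem_filter, mem_Ico]
  constructor
  · intro h1
    exact ⟨⟨Nat.zero_le _, by omega⟩, h1.2, by omega⟩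
  · intro h1
    exact ⟨by omega, h1.2.1⟩

/-- **All truncations at once.** -/
theorem even_all (m r d : ℕ) (l : Fin r → Fin (m + 1) → Fin (2 * m + 1 + 1) → ℤ) (hl : ∀ i, Indep (l i)) (hdist : Distinct l)
    (hd : r + 3 ≤ d) (ι : Type) [Fintype ι] [DecidableEq ι] (f : ι → MvPolynomial (Fin (2 * m + 1 + 1)) ℤ) (hf : Contains l d f) :
    ∃ K₁ : ℝ, 0 < K₁ ∧ ∀ K : ℝ, K₁ ≤ K → ∀ (T : ℕ) (c : ι → ℤ) (L : ι → ℕ), (∀ i, K₁ * (T + 1) ^ 3 ≤ L i) →
      ∀ (P : (ι → ℤ) → Prop) [DecidablePred P], (∀ ν, P ν → ∃ T' : ℕ, 2 ≤ T' ∧ T' ≤ T ∧ K * (Real.sqrt T' * (Real.log T') ^ 3) <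
        |∑ p ∈ Nat.primesLE T', midTrace m (member f ν) p * Real.log p / (p : ℝ) ^ m - (1 + r) * Chebyshev.theta T'|) →
      (((tbox c L).filter P).card : ℝ) ≤ K₁ / K ^ 2 * ∏ i, (L i : ℝ) := by
  classical
  obtain ⟨K₀, hK₀, hcen⟩ := even_centre l hl hdist
  refine ⟨2000000 + 18 * K₀ + 4 * (Fintype.card ι + 1), by positivity, ?_⟩
  intro K hK T c L hL P _ hP
  have hι : (0 : ℝ) ≤ Fintype.card ι := Nat.cast_nonneg _
  have hKpos : 0 < K := by linarith
  have hKK : 18 * K₀ ≤ K := by linarith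
  -- the scaled deviations
  have hG : ∀ p, p.Prime → p ≤ T → ∀ _ : Fact p.Prime, ex (fun a => Real.log p / (p : ℝ) ^ m * dev ∅ (prodForms l) f p a) = 0 ∧
      ex (fun a => (Real.log p / (p : ℝ) ^ m * dev ∅ (prodForms l) f p a) ^ 2) ≤ 2 * (Real.log p) ^ 2 := by
    intro p hp _ _
    obtain ⟨m1, m2, _⟩ := dev_moments (S := ∅) (fun φ => prodForms_hom l φ) (fun _ => hd) hf.through p
    refine ⟨by rw [ex_smul, m1, mul_zero], ?_⟩
    simp only [mul_pow]
    rw [ex_smul, m2]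
    have hp1 : (1 : ℝ) ≤ p := by exact_mod_cast hp.one_lt.le
    have hp0 : (0 : ℝ) < p := by linarith
    have h1 := (spread_le (n := 2 * m + 1) (prodForms l) p hp).1
    calc (Real.log p / (p : ℝ) ^ m) ^ 2 * spread ∅ (prodForms l) p ≤ (Real.log p / (p : ℝ) ^ m) ^ 2 * (2 * (p : ℝ) ^ (2 * m + 1) / p) :=
          mul_le_mul_of_nonneg_left h1 (sq_nonneg _)
      _ = 2 * (Real.log p) ^ 2 := by
          rw [div_pow, pow_succ (p : ℝ) (2 * m), ← pow_mul, mul_comm m 2]
          field_simp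
  have hL' : ∀ i, 4 * (Fintype.card ι + 1) * (T : ℝ) ^ 2 * (T + 1) ≤ L i := by
    intro i
    refine le_trans ?_ (hL i)
    have h1 : (T : ℝ) ^ 2 * (T + 1) ≤ (T + 1) ^ 3 := by
      have : (0 : ℝ) ≤ T := Nat.cast_nonneg T
      nlinarith [sq_nonneg (T : ℝ)]
    calc 4 * (Fintype.card ι + 1) * (T : ℝ) ^ 2 * (T + 1) = 4 * (Fintype.card ι + 1) * ((T : ℝ) ^ 2 * (T + 1)) := by ring
      _ ≤ (2000000 + 18 * K₀ + 4 * (Fintype.card ι + 1)) * (T + 1) ^ 3 :=
          mul_le_mul (by linarith) h1 (by positivity) (by positivity)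
  have key := all_scales_box (ι := ι) T (fun p a => Real.log p / (p : ℝ) ^ m * dev ∅ (prodForms l) f p a) (fun p => 2 * (Real.log p) ^ 2)
    (fun p => by positivity) hG c L hL' (fun _ => 0) (fun j => K / 500 * (Real.sqrt (2 ^ j) * ((j : ℝ) + 1) ^ 3)) (fun j => by positivity)
    (T + 1) P (by
      intro ν _ hPν
      obtain ⟨T', h2, hT', hlt⟩ := hP ν hPν
      obtain ⟨j, hj1, hj2, hj3⟩ := scale T' h2
      refine ⟨j, ?_, T' + 1, hj1, ?_⟩
      · have h3 : j < 2 ^ j := Nat.lt_two_pow_self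
        have h4 : 2 ^ j ≤ 2 * T := hj2.trans (by omega)
        by_contra hcon
        push Not at hcon
        have h5 : 2 ^ (T + 2) ≤ 2 ^ j := Nat.pow_le_pow_right (by norm_num) (by omega)
        have h6 : T + 2 < 2 ^ (T + 2) := Nat.lt_two_pow_self
        have h7 : T < 2 ^ T := Nat.lt_two_pow_self
        have h8 : 2 ^ (T + 2) = 4 * 2 ^ T := by rw [pow_add]; ring
        omega
      · -- compare
        rw [← primesLE_eq_Ico T T' hT']
        have hT'1 : (1 : ℝ) ≤ T' := by exact_mod_cast (by omega : 1 ≤ T')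
        obtain ⟨hc1, _⟩ := hcen T'
        have hsum : ∑ p ∈ Nat.primesLE T', midTrace m (member f ν) p * Real.log p / (p : ℝ) ^ m - (1 + r) * Chebyshev.theta T' =
            ∑ p ∈ Nat.primesLE T', Real.log p / (p : ℝ) ^ m * dev ∅ (prodForms l) f p (fun k => (ν k : ZMod p)) +
            ∑ p ∈ Nat.primesLE T', Real.log p / (p : ℝ) ^ m * (expected ∅ (prodForms l) p - (gs p (2 * m + 1) + r * (p : ℝ) ^ m)) := by
          rw [Chebyshev.theta_eq_sum_primesLE_log, mul_sum, ← sum_sub_distrib, ← sum_add_distrib]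
          refine sum_congr rfl fun p hp => ?_
          have hprime := Nat.prime_of_mem_primesLE hp
          have hp0 : (p : ℝ) ≠ 0 := by exact_mod_cast hprime.ne_zero
          have h3 := points_dev (S := ∅) hf.through ν hprime
          rw [← h3, insert_empty_eq]
          unfold midTrace gs
          field_simp
          ring
        rw [hsum] at hlt
        have hlog2 : (0.69 : ℝ) ≤ Real.log T' := by
          have h3 := Real.log_two_gt_d9
          have h4 : Real.log 2 ≤ Real.log (T' : ℝ) := Real.log_le_log (by norm_num) (by exact_mod_cast h2)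
          linarith
        have hs1 : 1 ≤ Real.sqrt T' := by
          rw [Real.one_le_sqrt]
          exact hT'1
        obtain ⟨g, hg⟩ : ∃ g : ℝ, g = Real.log T' := ⟨_, rfl⟩
        rw [← hg] at hlog2 hc1 hlt hj3
        have h3 : K₀ * (1 + g) ^ 2 ≤ K / 2 * (Real.sqrt T' * g ^ 3) := by
          have h4 : (1 + g) ^ 2 ≤ 9 * g ^ 3 := by nlinarith [sq_nonneg (g - 0.69), mul_nonneg (sub_nonneg.2 hlog2) (sq_nonneg g)]
          have h5 : 9 * g ^ 3 ≤ 9 * (Real.sqrt T' * g ^ 3) := by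
            have : 0 ≤ g ^ 3 := by positivity
            nlinarith
          calc K₀ * (1 + g) ^ 2 ≤ K₀ * (9 * (Real.sqrt T' * g ^ 3)) := mul_le_mul_of_nonneg_left (h4.trans h5) hK₀
            _ = (18 * K₀) / 2 * (Real.sqrt T' * g ^ 3) := by ring
            _ ≤ K / 2 * (Real.sqrt T' * g ^ 3) := by
                refine mul_le_mul_of_nonneg_right (by linarith) (by positivity)
        have h4 : K / 2 * (Real.sqrt T' * g ^ 3) <
            |∑ p ∈ Nat.primesLE T', Real.log p / (p : ℝ) ^ m * dev ∅ (prodForms l) f p (fun k => (ν k : ZMod p))| := by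
          have h5 := abs_add_le (∑ p ∈ Nat.primesLE T', Real.log p / (p : ℝ) ^ m * dev ∅ (prodForms l) f p (fun k => (ν k : ZMod p)))
            (∑ p ∈ Nat.primesLE T', Real.log p / (p : ℝ) ^ m * (expected ∅ (prodForms l) p - (gs p (2 * m + 1) + r * (p : ℝ) ^ m)))
          linarith
        refine lt_of_le_of_lt ?_ h4
        have h5 : Real.sqrt (2 ^ j) ≤ 2 * Real.sqrt T' := by
          have h6 : (2 : ℝ) ^ j ≤ 2 ^ 2 * T' := by
            have h7 : ((2 ^ j : ℕ) : ℝ) ≤ ((2 * T' : ℕ) : ℝ) := by exact_mod_cast hj2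
            push_cast at h7
            linarith
          refine (Real.sqrt_le_sqrt h6).trans (le_of_eq ?_)
          rw [Real.sqrt_mul (by positivity), Real.sqrt_sq (by norm_num)]
        have h6 : ((j : ℝ) + 1) ^ 3 ≤ 125 * g ^ 3 := by
          calc ((j : ℝ) + 1) ^ 3 ≤ (5 * g) ^ 3 := pow_le_pow_left₀ (by positivity) hj3 3
            _ = 125 * g ^ 3 := by ring
        calc K / 500 * (Real.sqrt (2 ^ j) * ((j : ℝ) + 1) ^ 3) ≤ K / 500 * ((2 * Real.sqrt T') * (125 * g ^ 3)) := by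
              refine mul_le_mul_of_nonneg_left ?_ (by positivity)
              exact mul_le_mul h5 h6 (by positivity) (by positivity)
          _ = K / 2 * (Real.sqrt T' * g ^ 3) := by ring)
  refine key.trans ?_
  rw [mul_comm]
  refine mul_le_mul_of_nonneg_right ?_ (by positivity)
  have h1 : ∀ j ∈ range (T + 1 + 1), 2 * ((j : ℝ) + 1) ^ 2 * (∑ p ∈ (Ico 0 (0 + 2 ^ j)).filter Nat.Prime, (2 : ℝ) * (Real.log p) ^ 2) /
      (K / 500 * (Real.sqrt (2 ^ j) * ((j : ℝ) + 1) ^ 3)) ^ 2 ≤ 1000000 / K ^ 2 * (1 / ((j : ℝ) + 1) ^ 2) := by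
    intro j _
    have h2 : ∑ p ∈ (Ico 0 (0 + 2 ^ j)).filter Nat.Prime, (2 : ℝ) * (Real.log p) ^ 2 ≤ 2 * ((2 : ℝ) ^ j * (j : ℝ)) := by
      have h3 : ∑ p ∈ (Ico 0 (0 + 2 ^ j)).filter Nat.Prime, (2 : ℝ) * (Real.log p) ^ 2 ≤ 2 * logSq (2 ^ j) := by
        rw [← mul_sum]
        refine mul_le_mul_of_nonneg_left ?_ (by norm_num)
        unfold logSq
        refine sum_le_sum_of_subset_of_nonneg ?_ fun _ _ _ => sq_nonneg _
        intro p hp
        rw [mem_filter, mem_Ico] at hp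
        rw [Nat.mem_primesLE]
        exact ⟨by omega, hp.2⟩
      refine h3.trans (mul_le_mul_of_nonneg_left ?_ (by norm_num))
      refine (logSq_le _ (Nat.one_le_two_pow)).trans ?_
      push_cast
      rw [Real.log_pow]
      have e1 : Real.log 4 = 2 * Real.log 2 := by
        rw [show (4 : ℝ) = 2 ^ 2 by norm_num, Real.log_pow]
        push_cast
        ring
      rw [e1]
      have e2 : Real.log 2 ≤ 0.7 := by
        have := Real.log_two_lt_d9
        linarith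
      have e3 : 0 < Real.log 2 := Real.log_pos (by norm_num)
      have e4 : Real.log 2 * Real.log 2 ≤ 1 / 2 := by nlinarith
      have e5 : (0 : ℝ) ≤ (2 : ℝ) ^ j * (j : ℝ) := by positivity
      calc 2 * Real.log 2 * ((2 : ℝ) ^ j * ((j : ℝ) * Real.log 2)) = 2 * (Real.log 2 * Real.log 2) * ((2 : ℝ) ^ j * (j : ℝ)) := by ring
        _ ≤ 1 * ((2 : ℝ) ^ j * (j : ℝ)) := mul_le_mul_of_nonneg_right (by linarith) e5
        _ = _ := one_mul _
    have h3 : (K / 500 * (Real.sqrt (2 ^ j) * ((j : ℝ) + 1) ^ 3)) ^ 2 = K ^ 2 / 250000 * (2 ^ j * ((j : ℝ) + 1) ^ 6) := by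
      rw [mul_pow, mul_pow, Real.sq_sqrt (by positivity)]
      ring
    rw [h3, div_le_iff₀ (by positivity)]
    have h4 : (j : ℝ) ≤ ((j : ℝ) + 1) ^ 2 := by
      have : (0 : ℝ) ≤ j := Nat.cast_nonneg j
      nlinarith
    calc 2 * ((j : ℝ) + 1) ^ 2 * ∑ p ∈ (Ico 0 (0 + 2 ^ j)).filter Nat.Prime, (2 : ℝ) * (Real.log p) ^ 2 ≤ 2 * ((j : ℝ) + 1) ^ 2 * (2 * (2 ^ j * ((j : ℝ) + 1) ^ 2)) := by
          refine mul_le_mul_of_nonneg_left (h2.trans ?_) (by positivity)
          refine mul_le_mul_of_nonneg_left (mul_le_mul_of_nonneg_left h4 (by positivity)) (by norm_num)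
      _ = 1000000 / K ^ 2 * (1 / ((j : ℝ) + 1) ^ 2) * (K ^ 2 / 250000 * (2 ^ j * ((j : ℝ) + 1) ^ 6)) := by
          field_simp
          ring
  refine (sum_le_sum h1).trans ?_
  rw [← mul_sum]
  have h2 := sum_inv_sq (T + 1)
  calc 1000000 / K ^ 2 * ∑ j ∈ range (T + 1 + 1), 1 / ((j : ℝ) + 1) ^ 2 ≤ 1000000 / K ^ 2 * 2 := mul_le_mul_of_nonneg_left h2 (by positivity)
    _ = 2000000 / K ^ 2 := by ring
    _ ≤ (2000000 + 18 * K₀ + 4 * (Fintype.card ι + 1)) / K ^ 2 := div_le_div_of_nonneg_right (by linarith) (by positivity)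

end Q282RH
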