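import Mathlib

/-!
# Sums over primes
-/

set_option autoImplicit false
set_option linter.unusedSectionVars false

namespace Q282RH

open Finset Real Filter Topology

/-- powers of the logarithm are smaller than the square root -/
lemma log_small (n : ℕ) (K δ : ℝ) (hδ : 0 < δ) : ∃ T₁ : ℕ, ∀ T : ℕ, T₁ ≤ T → K * (1 + log T) ^ n ≤ δ * √T := by
  have h1 : Tendsto (fun x : ℝ => |K| * (1 + log x) ^ n / √x) atTop (𝓝 0) := by
    have h2 : Tendsto (fun x : ℝ => (1 + 2 * log x) ^ n / x) atTop (𝓝 0) := by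
      have h3 : (fun x : ℝ => (1 + 2 * log x) ^ n) =o[atTop] (fun x => x) := by
        have h4 : (fun x : ℝ => (1 + 2 * log x) ^ n) =O[atTop] (fun x => log x ^ n) := by
          have h5 : (fun x : ℝ => 1 + 2 * log x) =O[atTop] (fun x => log x) := by
            refine Asymptotics.IsBigO.add ?_ ((Asymptotics.isBigO_refl _ _).const_mul_left 2)
            exact (Real.isLittleO_const_log_atTop (c := (1 : ℝ))).isBigO
          exact h5.pow n
        exact h4.trans_isLittleO Real.isLittleO_pow_log_id_atTop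
      exact h3.tendsto_div_nhds_zero
    have h3 : Tendsto (fun x : ℝ => |K| * ((1 + 2 * log (√x)) ^ n / √x)) atTop (𝓝 (|K| * 0)) :=
      (h2.comp Real.tendsto_sqrt_atTop).const_mul _
    rw [mul_zero] at h3
    refine h3.congr' ?_
    filter_upwards [eventually_ge_atTop 0] with x hx
    rw [Real.log_sqrt hx, mul_div_cancel₀ _ (two_ne_zero), mul_div_assoc]
  have h2 : ∀ᶠ x : ℝ in atTop, |K| * (1 + log x) ^ n / √x ≤ δ := by
    have := h1.eventually (gt_mem_nhds hδ)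
    filter_upwards [this] with x hx
    exact hx.le
  have h3 : ∀ᶠ T : ℕ in atTop, |K| * (1 + log (T : ℝ)) ^ n / √(T : ℝ) ≤ δ := tendsto_natCast_atTop_atTop.eventually h2
  obtain ⟨T₁, hT₁⟩ := eventually_atTop.1 (h3.and (eventually_ge_atTop 1))
  refine ⟨T₁, fun T hT => ?_⟩
  obtain ⟨h4, h5⟩ := hT₁ T hT
  have h6 : (1 : ℝ) ≤ T := by exact_mod_cast h5
  have h7 : 0 ≤ log (T : ℝ) := log_nonneg h6
  rw [div_le_iff₀ (Real.sqrt_pos.2 (by linarith))] at h4
  refine le_trans ?_ h4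
  exact mul_le_mul_of_nonneg_right (le_abs_self K) (by positivity)

lemma log_small' (n : ℕ) (K δ : ℝ) (hδ : 0 < δ) : ∃ T₁ : ℕ, ∀ T : ℕ, T₁ ≤ T → K * (1 + log T) ^ n ≤ δ * T := by
  obtain ⟨T₁, h⟩ := log_small n K δ hδ
  refine ⟨max T₁ 1, fun T hT => (h T ((le_max_left _ _).trans hT)).trans (mul_le_mul_of_nonneg_left ?_ hδ.le)⟩
  have h1 : (1 : ℝ) ≤ T := by exact_mod_cast (le_max_right _ _).trans hT
  rw [Real.sqrt_le_left (by linarith)]
  nlinarith

lemma sum_inv_le (T : ℕ) : ∑ p ∈ Nat.primesLE T, 1 / (p : ℝ) ≤ 1 + log T := by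
  have h1 := harmonic_le_one_add_log T
  rw [harmonic_eq_sum_Icc] at h1
  push_cast at h1
  refine le_trans ?_ h1
  rw [Nat.primesLE_eq_filter_Icc_one]
  simp only [one_div]
  exact sum_le_sum_of_subset_of_nonneg (filter_subset _ _) fun _ _ _ => by positivity

/-- sums of functions of size `log^e p / p` over primes are small -/
lemma sum_small (f : ℕ → ℝ) (K : ℝ) (hK : 0 ≤ K) (e p₀ : ℕ) (hf : ∀ p, p₀ < p → p.Prime → |f p| ≤ K * ((log p) ^ e / p)) :
    ∃ K' : ℝ, 0 ≤ K' ∧ ∀ T : ℕ, |∑ p ∈ Nat.primesLE T, f p| ≤ K' * (1 + log T) ^ (e + 1) := by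
  obtain ⟨M, hM⟩ : ∃ M : ℝ, M = ∑ p ∈ Nat.primesLE p₀, |f p| := ⟨_, rfl⟩
  have hM0 : 0 ≤ M := by
    rw [hM]
    exact sum_nonneg fun _ _ => abs_nonneg _
  refine ⟨M + K, by linarith, fun T => ?_⟩
  rcases Nat.eq_zero_or_pos T with rfl | hT
  · rw [Nat.primesLE_zero, sum_empty, abs_zero]
    simp only [Nat.cast_zero, log_zero, add_zero, one_pow, mul_one]
    linarith
  have hT1 : (1 : ℝ) ≤ T := by exact_mod_cast hT
  have hlog : 0 ≤ log (T : ℝ) := log_nonneg hT1
  refine (abs_sum_le_sum_abs _ _).trans ?_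
  have h1 : ∀ p ∈ Nat.primesLE T, |f p| ≤ (if p ≤ p₀ then |f p| else 0) + K * ((log T) ^ e) * (1 / (p : ℝ)) := by
    intro p hp
    rw [Nat.mem_primesLE] at hp
    have hp1 : (1 : ℝ) ≤ p := by exact_mod_cast hp.2.one_lt.le
    have h2 : 0 ≤ K * ((log T) ^ e) * (1 / (p : ℝ)) := by positivity
    split_ifs with h
    · linarith
    · rw [zero_add]
      refine (hf p (not_le.1 h) hp.2).trans ?_
      rw [mul_assoc]
      refine mul_le_mul_of_nonneg_left ?_ hK
      rw [mul_one_div]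
      refine div_le_div_of_nonneg_right ?_ (by positivity)
      refine pow_le_pow_left₀ (log_nonneg hp1) ?_ e
      exact log_le_log (by linarith) (by exact_mod_cast hp.1)
  refine (sum_le_sum h1).trans ?_
  rw [sum_add_distrib, ← mul_sum]
  have h2 : ∑ p ∈ Nat.primesLE T, (if p ≤ p₀ then |f p| else 0) ≤ M := by
    rw [← sum_filter, hM]
    refine sum_le_sum_of_subset_of_nonneg ?_ fun _ _ _ => abs_nonneg _
    intro p hp
    rw [mem_filter, Nat.mem_primesLE] at hp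
    rw [Nat.mem_primesLE]
    exact ⟨hp.2, hp.1.2⟩
  have h3 := sum_inv_le T
  have h4 : K * (log T) ^ e * ∑ p ∈ Nat.primesLE T, 1 / (p : ℝ) ≤ K * (1 + log T) ^ (e + 1) := by
    rw [pow_succ, ← mul_assoc]
    refine mul_le_mul ?_ h3 (sum_nonneg fun _ _ => by positivity) (by positivity)
    exact mul_le_mul_of_nonneg_left (pow_le_pow_left₀ hlog (by linarith) e) hK
  have h5 : M ≤ M * (1 + log T) ^ (e + 1) := by
    have h6 : 1 ≤ (1 + log (T : ℝ)) ^ (e + 1) := one_le_pow₀ (by linarith)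
    nlinarith
  rw [add_mul]
  linarith

/-- the sum of the squares of the logarithms of the primes up to `T` -/
noncomputable def logSq (T : ℕ) : ℝ := ∑ p ∈ Nat.primesLE T, (log p) ^ 2

lemma logSq_nonneg (T : ℕ) : 0 ≤ logSq T := sum_nonneg fun _ _ => sq_nonneg _

lemma logSq_ge : ∃ T₁ : ℕ, ∀ T : ℕ, T₁ ≤ T → (T : ℝ) / 4 ≤ logSq T := by
  obtain ⟨T₁, h1⟩ := log_small 1 4 (1 / 10) (by norm_num)
  refine ⟨max T₁ 1, fun T hT => ?_⟩
  have hT1 : 1 ≤ T := (le_max_right _ _).trans hT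
  have hT1' : (1 : ℝ) ≤ T := by exact_mod_cast hT1
  have h2 := h1 T ((le_max_left _ _).trans hT)
  rw [pow_one] at h2
  have h3 := Chebyshev.theta_ge T
  have hs : √(T : ℝ) * √(T : ℝ) = T := Real.mul_self_sqrt (by linarith)
  have hs1 : 1 ≤ √(T : ℝ) := by
    rw [Real.one_le_sqrt]
    exact hT1'
  have hlog0 : 0 ≤ log (T : ℝ) := log_nonneg hT1'
  have h4 : log ((T : ℝ) + 1) ≤ 1 + log T := by
    have h5 : (T : ℝ) + 1 ≤ exp 1 * T := by
      have := Real.add_one_le_exp 1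
      nlinarith
    have h6 := log_le_log (by linarith) h5
    rw [log_mul (exp_pos 1).ne' (by linarith), log_exp] at h6
    exact h6
  have h5 : 2 * √(T : ℝ) * log T ≤ T / 20 := by
    have : 4 * log (T : ℝ) ≤ 1 / 10 * √T := by linarith
    nlinarith
  have h6 : log ((T : ℝ) + 1) ≤ T / 40 := by
    have : 4 * (1 + log (T : ℝ)) ≤ 1 / 10 * T := by nlinarith
    linarith
  have h7 : (0.69 : ℝ) ≤ log 2 := by
    have := Real.log_two_gt_d9
    linarith
  have h8 : (T : ℝ) / 2 ≤ Chebyshev.theta T := by nlinarith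
  rw [Chebyshev.theta_eq_sum_primesLE_log] at h8
  have h9 : (∑ p ∈ Nat.primesLE T, log (p : ℝ)) ^ 2 ≤ (Nat.primesLE T).card * logSq T := sq_sum_le_card_mul_sum_sq
  have h10 : ((Nat.primesLE T).card : ℝ) ≤ T := by
    have h11 : (Nat.primesLE T).card ≤ T := by
      rw [Nat.primesLE_eq_filter_Icc_one]
      refine (card_filter_le _ _).trans ?_
      rw [Nat.card_Icc]
      omega
    exact_mod_cast h11
  have h11 : ((T : ℝ) / 2) ^ 2 ≤ T * logSq T := by
    refine (pow_le_pow_left₀ (by positivity) h8 2).trans (h9.trans ?_)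
    exact mul_le_mul_of_nonneg_right h10 (logSq_nonneg T)
  have h12 : (T : ℝ) * (T / 4) ≤ T * logSq T := by
    calc (T : ℝ) * (T / 4) = (T / 2) ^ 2 := by ring
      _ ≤ _ := h11
  exact le_of_mul_le_mul_left h12 (by linarith)

lemma logSq_le (T : ℕ) (hT : 1 ≤ T) : logSq T ≤ log 4 * (T * log T) := by
  have hT1 : (1 : ℝ) ≤ T := by exact_mod_cast hT
  have h1 : logSq T ≤ log T * Chebyshev.theta T := by
    rw [Chebyshev.theta_eq_sum_primesLE_log, mul_sum]
    unfold logSq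
    refine sum_le_sum fun p hp => ?_
    rw [Nat.mem_primesLE] at hp
    have hp1 : (1 : ℝ) ≤ p := by exact_mod_cast hp.2.one_lt.le
    rw [sq]
    exact mul_le_mul_of_nonneg_right (log_le_log (by linarith) (by exact_mod_cast hp.1)) (log_nonneg hp1)
  have h2 := Chebyshev.theta_le_log4_mul_x (x := T) (by linarith)
  have h3 := mul_le_mul_of_nonneg_left h2 (log_nonneg hT1)
  linarith

lemma logFour_le (T : ℕ) : ∑ p ∈ Nat.primesLE T, (log p) ^ 4 ≤ (log T) ^ 2 * logSq T := by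
  unfold logSq
  rw [mul_sum]
  refine sum_le_sum fun p hp => ?_
  rw [Nat.mem_primesLE] at hp
  have hp1 : (1 : ℝ) ≤ p := by exact_mod_cast hp.2.one_lt.le
  have h1 : log (p : ℝ) ≤ log T := log_le_log (by linarith) (by exact_mod_cast hp.1)
  have h2 : 0 ≤ log (p : ℝ) := log_nonneg hp1
  calc (log (p : ℝ)) ^ 4 = (log p) ^ 2 * (log p) ^ 2 := by ring
    _ ≤ (log T) ^ 2 * (log p) ^ 2 := mul_le_mul_of_nonneg_right (pow_le_pow_left₀ h2 h1 2) (sq_nonneg _)

end Q282RH
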