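import Pool.Agent.Q282.RH.Union

/-!
# Asymptotics of the expected number of points of random hypersurfaces that contain linear subspaces
-/

set_option autoImplicit false
set_option linter.unusedSectionVars false

namespace Q282RH

open Finset MvPolynomial
open scoped LinearAlgebra.Projectivization

lemma kerMod_cons {p c N : ℕ} (w : Fin N → ℤ) (v : Fin c → Fin N → ℤ) (x : Fin N → ZMod p) :
    x ∈ kerMod p (Fin.cons w v : Fin (c + 1) → Fin N → ℤ) ↔ (∑ i, (w i : ZMod p) * x i = 0) ∧ x ∈ kerMod p v := by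
  rw [mem_kerMod, mem_kerMod, Fin.forall_fin_succ]
  simp only [Fin.cons_zero, Fin.cons_succ]

open Classical in
lemma card_nonzero {p c N : ℕ} [hp : Fact p.Prime] (v : Fin c → Fin N → ℤ) (a : ℕ) (hN : N = a + c)
    (hv : LinearIndependent (ZMod p) (fun k i => (v k i : ZMod p))) :
    (univ.filter fun x : Fin N → ZMod p => x ≠ 0 ∧ x ∈ kerMod p v).card = p ^ a - 1 := by
  have h1 := card_kerMod v hv
  have h2 : Nat.card (kerMod p v) = p ^ a := by
    have h0 : p ^ N = p ^ a * p ^ c := by rw [hN, pow_add]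
    rw [h0] at h1
    exact Nat.eq_of_mul_eq_mul_right (pow_pos hp.out.pos _) h1
  have h3 : (univ.filter fun x : Fin N → ZMod p => x ∈ kerMod p v).card = p ^ a := by
    rw [← h2, Nat.card_eq_fintype_card, Fintype.card_subtype]
  have h4 : (univ.filter fun x : Fin N → ZMod p => x ≠ 0 ∧ x ∈ kerMod p v) =
      (univ.filter fun x : Fin N → ZMod p => x ∈ kerMod p v).erase 0 := by
    ext x
    simp only [mem_filter, mem_univ, true_and, mem_erase]
  rw [h4, card_erase_of_mem (mem_filter.2 ⟨mem_univ _, Submodule.zero_mem _⟩), h3]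

/-- **The number of points of the union of different linear subspaces.** -/
theorem plane_bounds {n r c a : ℕ} (hn : n = a + c) (l : Fin r → Fin c → Fin (n + 1) → ℤ) (hl : ∀ i, Indep (l i)) (hd : Distinct l) :
    ∃ p₀ : ℕ, ∀ p : ℕ, p₀ < p → p.Prime →
      (p - 1) * points n (∅ ∪ Set.range (prodForms l)) p ≤ r * (p ^ (a + 1) - 1) ∧
      r * (p ^ (a + 1) - 1) ≤ (p - 1) * points n (∅ ∪ Set.range (prodForms l)) p + r ^ 2 * (p ^ a - 1) := by
  classical
  have h1 : ∀ i, ∃ p₀ : ℕ, ∀ p : ℕ, p₀ < p → ∀ _ : Fact p.Prime, LinearIndependent (ZMod p) (fun k s => (l i k s : ZMod p)) :=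
    fun i => indep_mod (l i) (hl i)
  choose P₁ hP₁ using h1
  have h2 : ∀ z : Fin r × Fin r, ∃ (p₀ : ℕ), z.1 ≠ z.2 → ∃ k, ∀ p : ℕ, p₀ < p → ∀ _ : Fact p.Prime,
      LinearIndependent (ZMod p) (fun k' s => ((Fin.cons (l z.2 k) (l z.1) : Fin (c + 1) → Fin (n + 1) → ℤ) k' s : ZMod p)) := by
    intro z
    by_cases hz : z.1 ≠ z.2
    · obtain ⟨k, hk⟩ := indep_cons (l z.1) (l z.2) (hl z.1) (hl z.2) (hd z.1 z.2 hz)
      obtain ⟨p₀, hp₀⟩ := indep_mod _ hk
      exact ⟨p₀, fun _ => ⟨k, hp₀⟩⟩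
    · exact ⟨0, fun h => absurd h hz⟩
  choose P₂ hP₂ using h2
  refine ⟨∑ i, P₁ i + ∑ z, P₂ z, fun p hp hprime => ?_⟩
  have : Fact p.Prime := ⟨hprime⟩
  have hp1 : ∀ i, P₁ i < p := fun i => by
    have := single_le_sum (f := P₁) (fun _ _ => Nat.zero_le _) (mem_univ i)
    omega
  have hp2 : ∀ z, P₂ z < p := fun z => by
    have := single_le_sum (f := P₂) (fun _ _ => Nat.zero_le _) (mem_univ z)
    omega
  obtain ⟨A, hA⟩ : ∃ A : Fin r → Finset (Fin (n + 1) → ZMod p), A = fun i => univ.filter fun x => x ≠ 0 ∧ x ∈ kerMod p (l i) := ⟨_, rfl⟩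
  have hcard : ∀ i, (A i).card = p ^ (a + 1) - 1 := by
    intro i
    rw [hA]
    exact card_nonzero (l i) (a + 1) (by omega) (hP₁ i p (hp1 i) inferInstance)
  have hinter : ∀ i j, i ≠ j → (A i ∩ A j).card ≤ p ^ a - 1 := by
    intro i j hij
    obtain ⟨k, hk⟩ := hP₂ (i, j) hij
    have h3 := card_nonzero (Fin.cons (l j k) (l i) : Fin (c + 1) → Fin (n + 1) → ℤ) a (by omega) (hk p (hp2 (i, j)) inferInstance)
    rw [← h3]
    refine card_le_card fun x hx => ?_
    rw [hA, mem_inter, mem_filter, mem_filter] at hx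
    rw [mem_filter, kerMod_cons]
    have h4 := hx.2.2.2
    rw [mem_kerMod] at h4
    exact ⟨mem_univ _, hx.1.2.1, h4 k, hx.1.2.2⟩
  obtain ⟨u1, u2⟩ := union_bounds A _ _ hcard hinter
  have h3 : (univ.biUnion A).card = (p - 1) * points n (∅ ∪ Set.range (prodForms l)) p := by
    rw [points_eq]
    have h4 := proj_count (n := n) (p := p) (fun x => ∃ i, x ∈ kerMod p (l i)) (by
      rintro t x _ ⟨i, hi⟩
      exact ⟨i, Submodule.smul_mem _ t hi⟩)
    have h5 : univ.biUnion A = univ.filter fun x : Fin (n + 1) → ZMod p => x ≠ 0 ∧ ∃ i, x ∈ kerMod p (l i) := by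
      ext x
      rw [hA]
      simp only [mem_biUnion, mem_filter, mem_univ, true_and]
      constructor
      · rintro ⟨i, h6, h7⟩
        exact ⟨h6, i, h7⟩
      · rintro ⟨h6, i, h7⟩
        exact ⟨i, h6, h7⟩
    rw [h5, h4]
    congr 2
    ext P
    simp only [mem_filter, mem_univ, true_and]
    exact (prodForms_zero l P).symm
  rw [← h3]
  exact ⟨u1, u2⟩

/-- the number of points of projective space -/
lemma points_empty (n p : ℕ) (hp : p.Prime) : (p - 1) * points n ∅ p = p ^ (n + 1) - 1 := by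
  classical
  have : Fact p.Prime := ⟨hp⟩
  rw [points_eq]
  have h1 := proj_count (n := n) (p := p) (fun _ => True) (fun _ _ _ _ => trivial)
  have h2 : (univ.filter fun P : Pt n p => ∀ F ∈ (∅ : Set (MvPolynomial (Fin (n + 1)) ℤ)), val F P = 0) = univ.filter fun _ => True := by
    ext P
    simp only [mem_filter, mem_univ, true_and, iff_true]
    intro F hF
    exact absurd hF (Set.notMem_empty _)
  rw [h2, ← h1]
  have h3 : (univ.filter fun x : Fin (n + 1) → ZMod p => x ≠ 0 ∧ True) = univ.erase 0 := by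
    ext x
    simp only [mem_filter, mem_univ, true_and, and_true, mem_erase]
  rw [h3, card_erase_of_mem (mem_univ _), card_univ, Fintype.card_fun, ZMod.card, Fintype.card_fin]

/-- the geometric sum -/
noncomputable def gs (p k : ℕ) : ℝ := ∑ i ∈ range k, (p : ℝ) ^ i

lemma gs_mul (p k : ℕ) : ((p : ℝ) - 1) * gs p k = (p : ℝ) ^ k - 1 := by
  unfold gs
  rw [mul_comm]
  exact geom_sum_mul _ _

lemma gs_succ (p k : ℕ) : gs p (k + 1) = gs p k + (p : ℝ) ^ k := by
  unfold gs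
  rw [sum_range_succ]

lemma gs_nonneg (p k : ℕ) : 0 ≤ gs p k := by
  unfold gs
  exact sum_nonneg fun _ _ => by positivity

lemma gs_le {p : ℕ} (hp : 2 ≤ p) (k : ℕ) : gs p k ≤ 2 * ((p : ℝ) ^ k / p) := by
  have hp2 : (2 : ℝ) ≤ p := by exact_mod_cast hp
  have h1 := gs_mul p k
  have h2 : ((p : ℝ) - 1) * gs p k ≤ ((p : ℝ) - 1) * (2 * ((p : ℝ) ^ k / p)) := by
    rw [h1]
    have h3 : ((p : ℝ) - 1) * (2 * ((p : ℝ) ^ k / p)) = (p : ℝ) ^ k * (2 * (p - 1) / p) := by
      field_simp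
    have h4 : 1 ≤ 2 * ((p : ℝ) - 1) / p := by
      rw [le_div_iff₀ (by linarith)]
      linarith
    rw [h3]
    have h5 : (0 : ℝ) < (p : ℝ) ^ k := by positivity
    nlinarith
  exact le_of_mul_le_mul_left h2 (by linarith)

lemma points_empty' (n p : ℕ) (hp : p.Prime) : (points n ∅ p : ℝ) = gs p (n + 1) := by
  have hp2 : (2 : ℝ) ≤ p := by exact_mod_cast hp.two_le
  have h1 := points_empty n p hp
  have h2 := gs_mul p (n + 1)
  have h3 : (((p - 1) * points n ∅ p : ℕ) : ℝ) = ((p ^ (n + 1) - 1 : ℕ) : ℝ) := by rw [h1]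
  rw [Nat.cast_mul, Nat.cast_sub hp.one_lt.le, Nat.cast_sub (Nat.one_le_pow _ _ hp.pos)] at h3
  push_cast at h3
  rw [← h2] at h3
  exact mul_left_cancel₀ (by linarith) h3

/-- **The number of points of the union of different linear subspaces, asymptotically.** -/
theorem plane_asym {n r c a : ℕ} (hn : n = a + c) (l : Fin r → Fin c → Fin (n + 1) → ℤ) (hl : ∀ i, Indep (l i)) (hd : Distinct l) :
    ∃ p₀ : ℕ, ∀ p : ℕ, p₀ < p → p.Prime →
      |(points n (∅ ∪ Set.range (prodForms l)) p : ℝ) - r * (p : ℝ) ^ a| ≤ 2 * (r + r ^ 2) * ((p : ℝ) ^ a / p) ∧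
      (points n (∅ ∪ Set.range (prodForms l)) p : ℝ) ≤ 2 * r * (p : ℝ) ^ a := by
  obtain ⟨p₀, h⟩ := plane_bounds hn l hl hd
  refine ⟨p₀, fun p hp hprime => ?_⟩
  obtain ⟨h1, h2⟩ := h p hp hprime
  have hp2 : (2 : ℝ) ≤ p := by exact_mod_cast hprime.two_le
  obtain ⟨z, hz⟩ : ∃ z : ℕ, z = points n (∅ ∪ Set.range (prodForms l)) p := ⟨_, rfl⟩
  rw [← hz] at h1 h2 ⊢
  have c1 : (((p - 1 : ℕ) * z : ℕ) : ℝ) = ((p : ℝ) - 1) * z := by
    rw [Nat.cast_mul, Nat.cast_sub hprime.one_lt.le]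
    push_cast
    rfl
  have c2 : ((r * (p ^ (a + 1) - 1) : ℕ) : ℝ) = ((p : ℝ) - 1) * (r * gs p (a + 1)) := by
    rw [Nat.cast_mul, Nat.cast_sub (Nat.one_le_pow _ _ hprime.pos)]
    push_cast
    rw [← gs_mul]
    ring
  have c3 : ((r ^ 2 * (p ^ a - 1) : ℕ) : ℝ) = ((p : ℝ) - 1) * (r ^ 2 * gs p a) := by
    rw [Nat.cast_mul, Nat.cast_sub (Nat.one_le_pow _ _ hprime.pos)]
    push_cast
    rw [← gs_mul]
    ring
  have h1' : ((p : ℝ) - 1) * z ≤ ((p : ℝ) - 1) * (r * gs p (a + 1)) := by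
    rw [← c1, ← c2]
    exact_mod_cast h1
  have h2' : ((p : ℝ) - 1) * (r * gs p (a + 1)) ≤ ((p : ℝ) - 1) * (z + r ^ 2 * gs p a) := by
    rw [mul_add, ← c1, ← c2, ← c3]
    exact_mod_cast h2
  have k1 : (z : ℝ) ≤ r * gs p (a + 1) := le_of_mul_le_mul_left h1' (by linarith)
  have k2 : r * gs p (a + 1) ≤ z + r ^ 2 * gs p a := le_of_mul_le_mul_left h2' (by linarith)
  rw [gs_succ] at k1 k2
  have k3 := gs_le hprime.two_le a
  have k4 := gs_nonneg p a
  have hr0 : (0 : ℝ) ≤ r := Nat.cast_nonneg _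
  have k5 : r * gs p a ≤ r * (2 * ((p : ℝ) ^ a / p)) := mul_le_mul_of_nonneg_left k3 hr0
  have k6 : (r : ℝ) ^ 2 * gs p a ≤ r ^ 2 * (2 * ((p : ℝ) ^ a / p)) := mul_le_mul_of_nonneg_left k3 (by positivity)
  have k7 : 0 ≤ (r : ℝ) * gs p a := mul_nonneg hr0 k4
  have k8 : 0 ≤ (r : ℝ) ^ 2 * gs p a := by positivity
  refine ⟨?_, ?_⟩
  · rw [abs_le]
    constructor <;> linarith
  · have k9 : (p : ℝ) ^ a / p ≤ (p : ℝ) ^ a / 2 := div_le_div_of_nonneg_left (by positivity) (by norm_num) hp2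
    have k10 : r * (2 * ((p : ℝ) ^ a / p)) ≤ r * (2 * ((p : ℝ) ^ a / 2)) := by gcongr
    linarith

/-- **The expected number of points and the variance for a hypersurface that contains `r` different linear subspaces of
dimension `a`.** -/
theorem expected_asym {n r c a : ℕ} (hn : n = a + c) (hc : 1 ≤ c) (l : Fin r → Fin c → Fin (n + 1) → ℤ)
    (hl : ∀ i, Indep (l i)) (hd : Distinct l) :
    ∃ p₀ : ℕ, ∀ p : ℕ, p₀ < p → p.Prime →
      |expected ∅ (prodForms l) p - gs p n - r * (p : ℝ) ^ a| ≤ (2 * r ^ 2 + 4 * r + 1) * ((p : ℝ) ^ a / p) ∧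
      |spread ∅ (prodForms l) p - (p : ℝ) ^ (n - 1)| ≤ (2 * r + 4) * ((p : ℝ) ^ (n - 1) / p) ∧
      (points n ∅ p : ℝ) - points n (∅ ∪ Set.range (prodForms l)) p ≤ 2 * (p : ℝ) ^ n := by
  obtain ⟨p₀, h⟩ := plane_asym hn l hl hd
  refine ⟨p₀, fun p hp hprime => ?_⟩
  obtain ⟨h1, h2⟩ := h p hp hprime
  have hp2 : (2 : ℝ) ≤ p := by exact_mod_cast hprime.two_le
  have hp0 : (0 : ℝ) < p := by linarith
  unfold expected spread
  rw [points_empty' n p hprime]
  obtain ⟨z, hz⟩ : ∃ z : ℝ, z = (points n (∅ ∪ Set.range (prodForms l)) p : ℝ) := ⟨_, rfl⟩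
  have hz0 : 0 ≤ z := by
    rw [hz]
    exact Nat.cast_nonneg _
  rw [← hz] at h1 h2 ⊢
  have hr0 : (0 : ℝ) ≤ r := Nat.cast_nonneg _
  obtain ⟨A, hA⟩ : ∃ A : ℝ, A = (p : ℝ) ^ a := ⟨_, rfl⟩
  obtain ⟨B, hB⟩ : ∃ B : ℝ, B = (p : ℝ) ^ (n - 1) := ⟨_, rfl⟩
  have hA1 : 1 ≤ A := by
    rw [hA]
    exact one_le_pow₀ (by linarith)
  have hB0 : 0 < B := by
    rw [hB]
    positivity
  have hAB : A ≤ B := by
    rw [hA, hB]
    exact pow_le_pow_right₀ (by linarith) (by omega)
  have hBn : (p : ℝ) ^ n = B * p := by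
    rw [hB, ← pow_succ]
    congr 1
    omega
  have hG1 : gs p (n + 1) = 1 + p * gs p n := by
    have e1 := gs_mul p (n + 1)
    have e2 := gs_mul p n
    have e3 : ((p : ℝ) - 1) * gs p (n + 1) = ((p : ℝ) - 1) * (1 + p * gs p n) := by
      calc ((p : ℝ) - 1) * gs p (n + 1) = (p : ℝ) ^ (n + 1) - 1 := e1
        _ = (p : ℝ) - 1 + p * (((p : ℝ) - 1) * gs p n) := by rw [e2]; ring
        _ = _ := by ring
    exact mul_left_cancel₀ (by linarith) e3
  have hG2 : gs p (n + 1) = gs p n + B * p := by rw [gs_succ, hBn]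
  have hG3 : gs p n ≤ 2 * B := by
    have := gs_le hprime.two_le n
    rw [hBn, mul_div_cancel_right₀ _ hp0.ne'] at this
    exact this
  have hG4 : gs p (n + 1) ≤ 2 * (B * p) := by
    have := gs_le hprime.two_le (n + 1)
    rw [pow_succ, hBn, mul_div_cancel_right₀ _ hp0.ne'] at this
    exact this
  have hG5 := gs_nonneg p n
  rw [← hA] at h1 h2 ⊢
  rw [← hB, hBn]
  refine ⟨?_, ?_, ?_⟩
  · have e1 : z + (gs p (n + 1) - z) / p - gs p n - r * A = (z - r * A) - z / p + 1 / p := by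
      rw [hG1]
      field_simp
      ring
    rw [e1]
    have e2 : z / p ≤ 2 * r * (A / p) := by
      rw [← mul_div_assoc]
      exact div_le_div_of_nonneg_right h2 hp0.le
    have e3 : 1 / (p : ℝ) ≤ A / p := div_le_div_of_nonneg_right hA1 hp0.le
    have e4 : 0 ≤ z / p := by positivity
    have e5 : 0 < 1 / (p : ℝ) := by positivity
    have e6 : 0 ≤ r * (A / p) := by positivity
    rw [abs_le] at h1 ⊢
    constructor <;> nlinarith [h1.1, h1.2]
  · obtain ⟨t, ht⟩ : ∃ t : ℝ, t = (gs p (n + 1) - z) / p := ⟨_, rfl⟩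
    have e1 : (gs p (n + 1) - z) * (1 / p * (1 - 1 / p)) = t - t / p := by
      rw [ht]
      field_simp
    have e2 : t = B + gs p n / p - z / p := by
      rw [ht, hG2]
      field_simp
      ring
    have e3 : gs p n / p ≤ 2 * (B / p) := by
      rw [← mul_div_assoc]
      exact div_le_div_of_nonneg_right hG3 hp0.le
    have e4 : z / p ≤ 2 * r * (B / p) := by
      rw [← mul_div_assoc]
      refine div_le_div_of_nonneg_right (h2.trans ?_) hp0.le
      exact mul_le_mul_of_nonneg_left hAB (by positivity)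
    have e5 : 0 ≤ z / p := by positivity
    have e6 : 0 ≤ gs p n / p := by positivity
    have e7 : t ≤ 2 * B := by
      rw [ht, div_le_iff₀ hp0]
      linarith
    have e8 : t / p ≤ 2 * (B / p) := by
      rw [← mul_div_assoc]
      exact div_le_div_of_nonneg_right e7 hp0.le
    have e9 : -(2 * r * (B / p)) ≤ t / p := by
      have e10 : -(2 * r * (B / p)) ≤ 0 := by
        have : 0 ≤ 2 * r * (B / p) := by positivity
        linarith
      have e11 : -(r * B) ≤ t := by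
        have e12 : 2 * r * (B / p) ≤ r * B := by
          have e13 : B / p ≤ B / 2 := div_le_div_of_nonneg_left (by positivity) (by norm_num) hp2
          calc 2 * r * (B / p) ≤ 2 * r * (B / 2) := mul_le_mul_of_nonneg_left e13 (by positivity)
            _ = r * B := by ring
        have : 0 ≤ B := by positivity
        linarith
      have e12 : -(r * B) / p ≤ t / p := div_le_div_of_nonneg_right e11 hp0.le
      have e13 : -(2 * r * (B / p)) ≤ -(r * B) / p := by
        rw [neg_div, mul_div_assoc, neg_le_neg_iff]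
        have : 0 ≤ r * (B / p) := by positivity
        linarith
      linarith
    have e10 : 0 ≤ r * (B / p) := by positivity
    have e11 : 0 ≤ t := by
      have e12 : (0 : ℝ) ≤ gs p (n + 1) - z := by
        rw [← points_empty' n p hprime, hz]
        exact free_nonneg ∅ (prodForms l) p hprime
      rw [ht]
      positivity
    have e12 : 0 ≤ t / p := by positivity
    have e13 : 0 ≤ B / p := by positivity
    rw [e1, abs_le]
    constructor <;> linarith
  · linarith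

end Q282RH
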