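import Pool.Agent.Q282.RH.Law

/-!
# Second moments over boxes of integers
-/

set_option autoImplicit false
set_option linter.unusedSectionVars false

namespace Q282RH

open Finset
open Q282LT
open Q282.BP (bx mem_bx card_bx sum_bx cnt cnt_abs mean_mul_period)
open Pool.Agent.TH894.NE (box mem_box card_box Per mean)

/-- means over boxes with long sides, the error in terms of the mean of the absolute value -/
lemma bx_mean' {d q : ℕ} (hq : 0 < q) (L : Fin d → ℕ) (T : ℝ) (hT : 0 < T) (hL : ∀ i, T ≤ L i) (H : (Fin d → ℕ) → ℝ)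
    (hH : Per q H) :
    |∑ n ∈ bx L, H n - (∏ i, (L i : ℝ)) * mean d q H| ≤ (∏ i, (L i : ℝ)) * (mean d q (fun n => |H n|) * (Real.exp (d * q / T) - 1)) := by
  have hq0 : (0 : ℝ) < q := by exact_mod_cast hq
  have hL0 : ∀ i, (0 : ℝ) < L i := fun i => hT.trans_le (hL i)
  have hP0 : 0 < ∏ i, (L i : ℝ) := prod_pos fun i _ => hL0 i
  rw [sum_bx hq L H hH]
  unfold Pool.Agent.TH894.NE.mean
  rw [mul_sum, mul_sum, ← sum_sub_distrib]
  refine (abs_sum_le_sum_abs _ _).trans ?_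
  have h1 : ∀ r ∈ box d q, |H r * ∏ i, (cnt q (L i) (r i) : ℝ) - (∏ i, (L i : ℝ)) * (1 / (q : ℝ) ^ d * H r)| ≤
      (∏ i, (L i : ℝ)) / (q : ℝ) ^ d * (|H r| * (Real.exp (d * q / T) - 1)) := by
    intro r hr
    rw [mem_box] at hr
    obtain ⟨y, hy⟩ : ∃ y : Fin d → ℝ, y = fun i => (cnt q (L i) (r i) : ℝ) * (q / L i) - 1 := ⟨_, rfl⟩
    have hy1 : ∀ i, (cnt q (L i) (r i) : ℝ) = (1 + y i) * (L i / q) := by
      intro i
      rw [hy]
      have := (hL0 i).ne'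
      field_simp
      ring
    have hy2 : ∀ i, ‖y i‖ ≤ q / T := by
      intro i
      have h2 := cnt_abs hq (hr i) (L := L i)
      have h3 : y i = ((cnt q (L i) (r i) : ℝ) - L i / q) * (q / L i) := by
        rw [hy]
        have := (hL0 i).ne'
        field_simp
      rw [Real.norm_eq_abs, h3, abs_mul, abs_of_pos (by have := hL0 i; positivity : 0 < (q : ℝ) / L i)]
      calc |(cnt q (L i) (r i) : ℝ) - L i / q| * (q / L i) ≤ 1 * (q / L i) :=
            mul_le_mul_of_nonneg_right h2 (by have := hL0 i; positivity)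
        _ = q / L i := one_mul _
        _ ≤ q / T := div_le_div_of_nonneg_left hq0.le hT (hL i)
    have hprod : ∏ i, (cnt q (L i) (r i) : ℝ) = (∏ i, (1 + y i)) * ((∏ i, (L i : ℝ)) / (q : ℝ) ^ d) := by
      rw [prod_congr rfl fun i _ => hy1 i, prod_mul_distrib, prod_div_distrib, prod_const, card_univ, Fintype.card_fin]
    have h4 : |∏ i, (1 + y i) - 1| ≤ Real.exp (d * q / T) - 1 := by
      have h5 := norm_prod_one_add_sub_one_le univ y
      rw [Real.norm_eq_abs] at h5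
      refine h5.trans ?_
      have h6 : ∑ i, ‖y i‖ ≤ d * q / T := by
        refine (sum_le_sum fun i _ => hy2 i).trans (le_of_eq ?_)
        rw [sum_const, card_univ, Fintype.card_fin, nsmul_eq_mul]
        ring
      linarith [Real.exp_le_exp.2 h6]
    have e : H r * ∏ i, (cnt q (L i) (r i) : ℝ) - (∏ i, (L i : ℝ)) * (1 / (q : ℝ) ^ d * H r) =
        (∏ i, (L i : ℝ)) / (q : ℝ) ^ d * (H r * (∏ i, (1 + y i) - 1)) := by
      rw [hprod]
      ring
    rw [e, abs_mul, abs_mul, abs_of_pos (by positivity : 0 < (∏ i, (L i : ℝ)) / (q : ℝ) ^ d)]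
    exact mul_le_mul_of_nonneg_left (mul_le_mul_of_nonneg_left h4 (abs_nonneg _)) (by positivity)
  refine (sum_le_sum h1).trans (le_of_eq ?_)
  rw [← mul_sum, ← sum_mul]
  ring

lemma sum_zbox {d : ℕ} (m : Fin d → ℤ) (L : Fin d → ℕ) (f : (Fin d → ℤ) → ℝ) :
    ∑ ν ∈ zbox m L, f ν = ∑ n ∈ bx L, f (fun i => m i + n i) := by
  symm
  refine sum_nbij' (i := fun n i => m i + n i) (j := fun ν i => (ν i - m i).toNat) ?_ ?_ ?_ ?_ ?_
  · intro n hn
    rw [mem_bx] at hn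
    rw [mem_zbox]
    intro i
    have := hn i
    constructor <;> omega
  · intro ν hν
    rw [mem_zbox] at hν
    rw [mem_bx]
    intro i
    have := hν i
    omega
  · intro n _
    funext i
    show (m i + n i - m i).toNat = n i
    omega
  · intro ν hν
    rw [mem_zbox] at hν
    funext i
    have := hν i
    show m i + (((ν i - m i).toNat : ℕ) : ℤ) = ν i
    omega
  · intro n _
    rfl

/-- sums over boxes of integers -/
lemma zbox_mean {d q : ℕ} (hq : 1 ≤ q) (m : Fin d → ℤ) (L : Fin d → ℕ) (T : ℝ) (hT : 0 < T) (hL : ∀ i, T ≤ L i)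
    (hdq : d * (q : ℝ) ≤ T) (f : (Fin d → ℤ) → ℝ) (hf : ZPer q f) :
    |∑ ν ∈ zbox m L, f ν - (∏ i, (L i : ℝ)) * avg d q f| ≤ (∏ i, (L i : ℝ)) * (avg d q (fun ν => |f ν|) * (2 * (d * q / T))) := by
  have hL0 : ∀ i, (0 : ℝ) < L i := fun i => hT.trans_le (hL i)
  have hP0 : 0 < ∏ i, (L i : ℝ) := prod_pos fun i _ => hL0 i
  have h1 := bx_mean' (by omega : 0 < q) L T hT hL (fun n => f (fun i => m i + n i)) (hf.per m)
  have hf' : ZPer q (fun ν => |f ν|) := by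
    intro ν ν' h
    show |f ν| = |f ν'|
    rw [hf ν ν' h]
  rw [mean_shift hq hf m] at h1
  have h2 : mean d q (fun n => |f (fun i => m i + n i)|) = avg d q (fun ν => |f ν|) := mean_shift hq hf' m
  rw [h2] at h1
  rw [sum_zbox]
  refine h1.trans ?_
  refine mul_le_mul_of_nonneg_left (mul_le_mul_of_nonneg_left ?_ (avg_nonneg fun _ => abs_nonneg _)) hP0.le
  have h5 : 0 ≤ d * (q : ℝ) / T := by positivity
  have h6 : d * (q : ℝ) / T ≤ 1 := by
    rw [div_le_one hT]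
    exact hdq
  have h8 : |Real.exp (d * q / T) - 1 - d * q / T| ≤ (d * q / T) ^ 2 := Real.abs_exp_sub_one_sub_id_le (by rw [abs_of_nonneg h5]; exact h6)
  have h9 := (abs_le.1 h8).2
  nlinarith

lemma avg_mean {d q : ℕ} (hq : 1 ≤ q) {f : (Fin d → ℤ) → ℝ} (h : ZPer q f) :
    avg d q f = mean d q (fun n => f (fun i => (n i : ℤ))) := by
  rw [← mean_shift hq h (fun _ => 0)]
  simp only [zero_add]

lemma zper_of_dvd {d u v : ℕ} {f : (Fin d → ℤ) → ℝ} (h : ZPer u f) (huv : u ∣ v) : ZPer v f :=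
  fun ν ν' h' => h ν ν' fun i => (Int.natCast_dvd_natCast.2 huv).trans (h' i)

lemma zper_mul {d q : ℕ} {f g : (Fin d → ℤ) → ℝ} (hf : ZPer q f) (hg : ZPer q g) : ZPer q (fun ν => f ν * g ν) := by
  intro ν ν' h
  show f ν * g ν = f ν' * g ν'
  rw [hf ν ν' h, hg ν ν' h]

lemma zper_natCast {d q : ℕ} {f : (Fin d → ℤ) → ℝ} (h : ZPer q f) : Per q (fun n : Fin d → ℕ => f (fun i => (n i : ℤ))) := by
  have := h.per (fun _ => 0)
  simpa only [zero_add] using this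

lemma avg_two {d u v : ℕ} (hu : 1 ≤ u) (hv : 1 ≤ v) (huv : Nat.Coprime u v) {f g : (Fin d → ℤ) → ℝ} (hf : ZPer u f)
    (hg : ZPer v g) : avg d (u * v) (fun ν => f ν * g ν) = avg d u f * avg d v g := by
  rw [avg_mean (Nat.mul_pos hu hv) (zper_mul (zper_of_dvd hf (Dvd.intro _ rfl)) (zper_of_dvd hg (Dvd.intro_left _ rfl))), avg_mean hu hf,
    avg_mean hv hg]
  exact mean_two hu hv huv _ _ (zper_natCast hf) (zper_natCast hg)

lemma avg_abs_le {d q : ℕ} (hq : 1 ≤ q) (f : (Fin d → ℤ) → ℝ) (s : ℝ) (hs : 0 ≤ s) (h : avg d q (fun ν => f ν ^ 2) ≤ s ^ 2) :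
    avg d q (fun ν => |f ν|) ≤ s := by
  rcases hs.eq_or_lt with rfl | hs
  · refine le_of_forall_pos_le_add fun ε hε => ?_
    have h1 : avg d q (fun ν => |f ν|) ≤ avg d q (fun ν => ε + 1 / (4 * ε) * f ν ^ 2) := by
      refine avg_mono fun ν => ?_
      have h2 : 0 ≤ (|f ν| / (2 * ε) - 1) ^ 2 * ε := by positivity
      have h3 : (|f ν| / (2 * ε) - 1) ^ 2 * ε = ε + 1 / (4 * ε) * f ν ^ 2 - |f ν| := by
        rw [← sq_abs (f ν)]
        field_simp
        ring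
      linarith
    rw [avg_add (fun _ => ε) (fun ν => 1 / (4 * ε) * f ν ^ 2), avg_const hq, avg_smul] at h1
    have h4 : 1 / (4 * ε) * avg d q (fun ν => f ν ^ 2) ≤ 1 / (4 * ε) * 0 := by
      refine mul_le_mul_of_nonneg_left ?_ (by positivity)
      simpa using h
    linarith
  · have h1 : avg d q (fun ν => |f ν|) ≤ avg d q (fun ν => s / 2 + 1 / (2 * s) * f ν ^ 2) := by
      refine avg_mono fun ν => ?_
      have h2 : 0 ≤ (|f ν| - s) ^ 2 / (2 * s) := by positivity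
      have h3 : (|f ν| - s) ^ 2 / (2 * s) = s / 2 + 1 / (2 * s) * f ν ^ 2 - |f ν| := by
        rw [← sq_abs (f ν)]
        field_simp
        ring
      linarith
    rw [avg_add (fun _ => s / 2) (fun ν => 1 / (2 * s) * f ν ^ 2), avg_const hq, avg_smul] at h1
    have h4 : 1 / (2 * s) * avg d q (fun ν => f ν ^ 2) ≤ 1 / (2 * s) * s ^ 2 := mul_le_mul_of_nonneg_left h (by positivity)
    have h5 : 1 / (2 * s) * s ^ 2 = s / 2 := by
      field_simp
    linarith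

/-- **The second moment over a box of integers** -/
theorem second_z {d : ℕ} (I : Finset ℕ) (q : ℕ → ℕ) (g : ℕ → (Fin d → ℤ) → ℝ) (hq : ∀ b ∈ I, 1 ≤ q b)
    (hco : ∀ a ∈ I, ∀ b ∈ I, a ≠ b → Nat.Coprime (q a) (q b)) (hper : ∀ b ∈ I, ZPer (q b) (g b))
    (hmean : ∀ b ∈ I, avg d (q b) (g b) = 0) (v : ℕ → ℝ) (hv : ∀ b ∈ I, avg d (q b) (fun ν => g b ν ^ 2) ≤ v b)
    (Q : ℕ) (hQ : ∀ a ∈ I, q a ≤ Q) (m : Fin d → ℤ) (L : Fin d → ℕ) (hL : ∀ i, 4 * (d + 1) * (Q : ℝ) ^ 2 * (I.card + 1) ≤ L i) :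
    ∑ ν ∈ zbox m L, (∑ a ∈ I, g a ν) ^ 2 ≤ 2 * (∏ i, (L i : ℝ)) * ∑ a ∈ I, v a := by
  rcases I.eq_empty_or_nonempty with rfl | ⟨a₀, ha₀⟩
  · simp
  have hQ1 : (1 : ℝ) ≤ Q := by
    exact_mod_cast (hq a₀ ha₀).trans (hQ a₀ ha₀)
  obtain ⟨T, hT⟩ : ∃ T : ℝ, T = 4 * (d + 1) * (Q : ℝ) ^ 2 * (I.card + 1) := ⟨_, rfl⟩
  rw [← hT] at hL
  have hI1 : (1 : ℝ) ≤ I.card := by exact_mod_cast card_pos.2 ⟨a₀, ha₀⟩
  have hT0 : 0 < T := by
    rw [hT]
    positivity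
  have hL0 : ∀ i, (0 : ℝ) < L i := fun i => hT0.trans_le (hL i)
  have hP0 : 0 < ∏ i, (L i : ℝ) := prod_pos fun i _ => hL0 i
  have hv0 : ∀ b ∈ I, 0 ≤ v b := fun b hb => (avg_nonneg fun _ => sq_nonneg _).trans (hv b hb)
  -- expand
  have h1 : ∀ ν, (∑ a ∈ I, g a ν) ^ 2 = ∑ a ∈ I, ∑ b ∈ I, g a ν * g b ν := by
    intro ν
    rw [sq, sum_mul_sum]
  simp only [h1]
  rw [sum_comm]
  have h2 : ∀ a ∈ I, ∑ ν ∈ zbox m L, ∑ b ∈ I, g a ν * g b ν = ∑ b ∈ I, ∑ ν ∈ zbox m L, g a ν * g b ν := fun a _ => sum_comm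
  rw [sum_congr rfl h2]
  -- the single terms
  have hdq : ∀ a ∈ I, ∀ b ∈ I, (d : ℝ) * ((q a * q b : ℕ) : ℝ) ≤ T / (4 * (I.card + 1)) := by
    intro a ha b hb
    have h3 : ((q a * q b : ℕ) : ℝ) ≤ (Q : ℝ) ^ 2 := by
      have h4 : q a * q b ≤ Q * Q := Nat.mul_le_mul (hQ a ha) (hQ b hb)
      rw [sq]
      exact_mod_cast h4
    rw [hT]
    have h5 : 4 * ((d : ℝ) + 1) * (Q : ℝ) ^ 2 * (I.card + 1) / (4 * (I.card + 1)) = (d + 1) * (Q : ℝ) ^ 2 := by
      have : (I.card : ℝ) + 1 ≠ 0 := by positivity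
      field_simp
    rw [h5]
    have h6 : (d : ℝ) * ((q a * q b : ℕ) : ℝ) ≤ d * (Q : ℝ) ^ 2 := mul_le_mul_of_nonneg_left h3 (Nat.cast_nonneg _)
    nlinarith [sq_nonneg (Q : ℝ)]
  have hsingle : ∀ a ∈ I, ∑ ν ∈ zbox m L, g a ν * g a ν ≤ (∏ i, (L i : ℝ)) * (3 / 2 * v a) := by
    intro a ha
    have h3 : ZPer (q a) (fun ν => g a ν * g a ν) := zper_mul (hper a ha) (hper a ha)
    have h4 : (d : ℝ) * q a ≤ T / 4 := by
      have h5 := hdq a ha a ha
      have h6 : (d : ℝ) * q a ≤ d * ((q a * q a : ℕ) : ℝ) := by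
        refine mul_le_mul_of_nonneg_left ?_ (Nat.cast_nonneg _)
        exact_mod_cast Nat.le_mul_self (q a)
      have h7 : T / (4 * (I.card + 1)) ≤ T / 4 := by
        refine div_le_div_of_nonneg_left hT0.le (by norm_num) ?_
        linarith
      linarith
    have h5 := zbox_mean (hq a ha) m L T hT0 hL (by linarith) _ h3
    have h6 : avg d (q a) (fun ν => |g a ν * g a ν|) = avg d (q a) (fun ν => g a ν ^ 2) := by
      congr 1
      funext ν
      rw [← sq, abs_of_nonneg (sq_nonneg _)]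
    have h7 : avg d (q a) (fun ν => g a ν * g a ν) = avg d (q a) (fun ν => g a ν ^ 2) := by
      congr 1
      funext ν
      rw [sq]
    rw [h6, h7] at h5
    have h8 : 2 * (d * (q a : ℝ) / T) ≤ 1 / 2 := by
      rw [← mul_div_assoc, div_le_iff₀ hT0]
      linarith
    have h9 := (abs_le.1 h5).2
    have h10 : avg d (q a) (fun ν => g a ν ^ 2) * (2 * (d * (q a : ℝ) / T)) ≤ v a * (1 / 2) :=
      mul_le_mul (hv a ha) h8 (by positivity) (hv0 a ha)
    have h11 : (∏ i, (L i : ℝ)) * avg d (q a) (fun ν => g a ν ^ 2) ≤ (∏ i, (L i : ℝ)) * v a :=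
      mul_le_mul_of_nonneg_left (hv a ha) hP0.le
    have h12 := mul_le_mul_of_nonneg_left h10 hP0.le
    calc ∑ ν ∈ zbox m L, g a ν * g a ν ≤ (∏ i, (L i : ℝ)) * v a + (∏ i, (L i : ℝ)) * (v a * (1 / 2)) := by linarith
      _ = _ := by ring
  have hcross : ∀ a ∈ I, ∀ b ∈ I, a ≠ b → ∑ ν ∈ zbox m L, g a ν * g b ν ≤
      (∏ i, (L i : ℝ)) * (Real.sqrt (v a) * Real.sqrt (v b) * (1 / (2 * (I.card + 1)))) := by
    intro a ha b hb hab
    have h3 : ZPer (q a * q b) (fun ν => g a ν * g b ν) :=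
      zper_mul (zper_of_dvd (hper a ha) (Dvd.intro _ rfl)) (zper_of_dvd (hper b hb) (Dvd.intro_left _ rfl))
    have h4 := hdq a ha b hb
    have h4' : T / (4 * ((I.card : ℝ) + 1)) ≤ T := by
      rw [div_le_iff₀ (by positivity)]
      nlinarith
    have h5 := zbox_mean (Nat.mul_pos (hq a ha) (hq b hb)) m L T hT0 hL (h4.trans h4') _ h3
    have h6 : avg d (q a * q b) (fun ν => g a ν * g b ν) = 0 := by
      rw [avg_two (hq a ha) (hq b hb) (hco a ha b hb hab) (hper a ha) (hper b hb), hmean a ha, zero_mul]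
    have habs : ∀ c ∈ I, ZPer (q c) (fun ν => |g c ν|) := by
      intro c hc ν ν' h
      show |g c ν| = |g c ν'|
      rw [hper c hc ν ν' h]
    have h7 : avg d (q a * q b) (fun ν => |g a ν * g b ν|) = avg d (q a) (fun ν => |g a ν|) * avg d (q b) (fun ν => |g b ν|) := by
      rw [← avg_two (hq a ha) (hq b hb) (hco a ha b hb hab) (habs a ha) (habs b hb)]
      congr 1
      funext ν
      rw [abs_mul]
    have hs : ∀ c ∈ I, avg d (q c) (fun ν => |g c ν|) ≤ Real.sqrt (v c) := fun c hc =>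
      avg_abs_le (hq c hc) (g c) _ (Real.sqrt_nonneg _) (by rw [Real.sq_sqrt (hv0 c hc)]; exact hv c hc)
    rw [h6, h7, mul_zero, sub_zero] at h5
    refine (le_abs_self _).trans (h5.trans (mul_le_mul_of_nonneg_left ?_ hP0.le))
    refine mul_le_mul (mul_le_mul (hs a ha) (hs b hb) (avg_nonneg fun _ => abs_nonneg _) (Real.sqrt_nonneg _)) ?_ (by positivity)
      (by positivity)
    rw [← mul_div_assoc, div_le_div_iff₀ hT0 (by positivity)]
    rw [le_div_iff₀ (by positivity)] at h4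
    nlinarith
  -- sum up
  have h3 : ∀ a ∈ I, ∑ b ∈ I, ∑ ν ∈ zbox m L, g a ν * g b ν ≤
      ∑ b ∈ I, (∏ i, (L i : ℝ)) * (Real.sqrt (v a) * Real.sqrt (v b) * (1 / (2 * (I.card + 1)))) + (∏ i, (L i : ℝ)) * (3 / 2 * v a) := by
    intro a ha
    rw [← add_sum_erase I _ ha, ← add_sum_erase I (fun b => (∏ i, (L i : ℝ)) * (Real.sqrt (v a) * Real.sqrt (v b) * (1 / (2 * ((I.card : ℝ) + 1))))) ha]
    have h4 := hsingle a ha
    have h5 : ∑ b ∈ I.erase a, ∑ ν ∈ zbox m L, g a ν * g b ν ≤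
        ∑ b ∈ I.erase a, (∏ i, (L i : ℝ)) * (Real.sqrt (v a) * Real.sqrt (v b) * (1 / (2 * ((I.card : ℝ) + 1)))) := by
      refine sum_le_sum fun b hb => ?_
      rw [mem_erase] at hb
      exact hcross a ha b hb.2 hb.1.symm
    have h6 : 0 ≤ (∏ i, (L i : ℝ)) * (Real.sqrt (v a) * Real.sqrt (v a) * (1 / (2 * ((I.card : ℝ) + 1)))) := by positivity
    linarith
  refine (sum_le_sum h3).trans ?_
  rw [sum_add_distrib]
  have h4 : ∑ a ∈ I, ∑ b ∈ I, (∏ i, (L i : ℝ)) * (Real.sqrt (v a) * Real.sqrt (v b) * (1 / (2 * ((I.card : ℝ) + 1)))) =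
      (∏ i, (L i : ℝ)) * (1 / (2 * ((I.card : ℝ) + 1))) * (∑ a ∈ I, Real.sqrt (v a)) ^ 2 := by
    rw [sq, sum_mul_sum, mul_sum]
    refine sum_congr rfl fun a _ => ?_
    rw [mul_sum]
    exact sum_congr rfl fun b _ => by ring
  have h5 : (∑ a ∈ I, Real.sqrt (v a)) ^ 2 ≤ I.card * ∑ a ∈ I, v a := by
    refine (sq_sum_le_card_mul_sum_sq).trans (le_of_eq ?_)
    congr 1
    exact sum_congr rfl fun a ha => Real.sq_sqrt (hv0 a ha)
  have hV0 : 0 ≤ ∑ a ∈ I, v a := sum_nonneg hv0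
  have h6 : (1 / (2 * ((I.card : ℝ) + 1))) * (∑ a ∈ I, Real.sqrt (v a)) ^ 2 ≤ 1 / 2 * ∑ a ∈ I, v a := by
    calc (1 / (2 * ((I.card : ℝ) + 1))) * (∑ a ∈ I, Real.sqrt (v a)) ^ 2 ≤ (1 / (2 * ((I.card : ℝ) + 1))) * (I.card * ∑ a ∈ I, v a) :=
          mul_le_mul_of_nonneg_left h5 (by positivity)
      _ = (I.card / (I.card + 1)) * (1 / 2 * ∑ a ∈ I, v a) := by
          field_simp
      _ ≤ 1 * (1 / 2 * ∑ a ∈ I, v a) := by
          refine mul_le_mul_of_nonneg_right ?_ (by positivity)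
          rw [div_le_one (by positivity)]
          linarith
      _ = _ := one_mul _
  have h7 : ∑ a ∈ I, (∏ i, (L i : ℝ)) * (3 / 2 * v a) = (∏ i, (L i : ℝ)) * (3 / 2 * ∑ a ∈ I, v a) := by
    rw [mul_sum, mul_sum]
  rw [h4, h7, mul_assoc (∏ i, (L i : ℝ)) (1 / (2 * ((I.card : ℝ) + 1)))]
  have h8 := mul_le_mul_of_nonneg_left h6 hP0.le
  calc (∏ i, (L i : ℝ)) * (1 / (2 * ((I.card : ℝ) + 1)) * (∑ a ∈ I, Real.sqrt (v a)) ^ 2) + (∏ i, (L i : ℝ)) * (3 / 2 * ∑ a ∈ I, v a)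
      ≤ (∏ i, (L i : ℝ)) * (1 / 2 * ∑ a ∈ I, v a) + (∏ i, (L i : ℝ)) * (3 / 2 * ∑ a ∈ I, v a) := by linarith
    _ = _ := by ring

end Q282RH
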