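import Pool.Agent.Q282.RH.Geo
import Pool.Agent.Q282.RH.Second

/-!
# Point counts of the members of a linear system of hypersurface sections
-/

set_option autoImplicit false
set_option linter.unusedSectionVars false

namespace Q282RH

open Finset MvPolynomial
open scoped LinearAlgebra.Projectivization

/-- the number of the points over the field with `p` elements of the closed subscheme of projective space defined by
the forms in `S` -/
noncomputable def points (n : ℕ) (S : Set (MvPolynomial (Fin (n + 1)) ℤ)) (p : ℕ) : ℕ :=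
  if hp : p.Prime then
    have : Fact p.Prime := ⟨hp⟩
    Nat.card {P : ℙ (ZMod p) (Fin (n + 1) → ZMod p) // ∀ F ∈ S, eval₂ (Int.castRingHom (ZMod p)) P.rep F = 0}
  else 0

open Classical in
/-- the points of a scheme outside the base locus -/
noncomputable def freePts {n : ℕ} (S : Set (MvPolynomial (Fin (n + 1)) ℤ)) {J : Type} (h : J → MvPolynomial (Fin (n + 1)) ℤ) (p : ℕ)
    [Fact p.Prime] : Finset (Pt n p) := univ.filter fun P => (∀ F ∈ S, val F P = 0) ∧ ∃ j, val (h j) P ≠ 0

open Classical in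
lemma points_eq {n : ℕ} (S : Set (MvPolynomial (Fin (n + 1)) ℤ)) (p : ℕ) [hp : Fact p.Prime] :
    points n S p = (univ.filter fun P : Pt n p => ∀ F ∈ S, val F P = 0).card := by
  unfold points
  rw [dif_pos hp.out, Nat.card_eq_fintype_card, Fintype.card_subtype]
  rfl

lemma val_zero_of_span {n p : ℕ} [Fact p.Prime] {J : Type} {h : J → MvPolynomial (Fin (n + 1)) ℤ} {P : Pt n p}
    (hP : ∀ j, val (h j) P = 0) {F : MvPolynomial (Fin (n + 1)) ℤ} (hF : F ∈ (Ideal.span (Set.range h)).radical) : val F P = 0 := by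
  have h1 : Ideal.span (Set.range h) ≤ RingHom.ker (eval₂Hom (Int.castRingHom (ZMod p)) P.rep) := by
    rw [Ideal.span_le]
    rintro _ ⟨j, rfl⟩
    exact hP j
  obtain ⟨e, he⟩ := hF
  have h2 : (val F P) ^ e = 0 := by
    have h3 : eval₂Hom (Int.castRingHom (ZMod p)) P.rep (F ^ e) = 0 := h1 he
    rw [map_pow] at h3
    exact h3
  exact eq_zero_of_pow_eq_zero h2

lemma points_base_le {n : ℕ} (S : Set (MvPolynomial (Fin (n + 1)) ℤ)) {J : Type} (h : J → MvPolynomial (Fin (n + 1)) ℤ) (p : ℕ)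
    [Fact p.Prime] : points n S p = points n (S ∪ Set.range h) p + (freePts S h p).card := by
  classical
  rw [points_eq, points_eq]
  have h1 : (univ.filter fun P : Pt n p => ∀ F ∈ S, val F P = 0) =
      (univ.filter fun P : Pt n p => ∀ F ∈ S ∪ Set.range h, val F P = 0) ∪ freePts S h p := by
    ext P
    unfold freePts
    simp only [mem_union, mem_filter, mem_univ, true_and]
    constructor
    · intro hP
      by_cases h2 : ∃ j, val (h j) P ≠ 0
      · exact Or.inr ⟨hP, h2⟩
      · push Not at h2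
        refine Or.inl ?_
        rintro F (hF | ⟨j, rfl⟩)
        · exact hP F hF
        · exact h2 j
    · rintro (hP | hP)
      · exact fun F hF => hP F (Or.inl hF)
      · exact hP.1
  rw [h1, card_union_of_disjoint]
  rw [disjoint_left]
  intro P hP hP'
  unfold freePts at hP'
  rw [mem_filter] at hP hP'
  obtain ⟨j, hj⟩ := hP'.2.2
  exact hj (hP.2 _ (Or.inr ⟨j, rfl⟩))

/-- the number of the points of a member of the linear system -/
lemma points_member {n d : ℕ} (S : Set (MvPolynomial (Fin (n + 1)) ℤ)) {J ι : Type} [Fintype ι] {h : J → MvPolynomial (Fin (n + 1)) ℤ}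
    {f : ι → MvPolynomial (Fin (n + 1)) ℤ} (hf : Through h d f) (ν : ι → ℤ) (p : ℕ) [Fact p.Prime] :
    (points n (insert (member f ν) S) p : ℝ) = points n (S ∪ Set.range h) p +
      ∑ P ∈ freePts S h p, if ev (fun _ => 0) (fun k Q => val (f k) Q) (fun k => (ν k : ZMod p)) P = 0 then (1 : ℝ) else 0 := by
  classical
  rw [points_eq, points_eq]
  have h1 : (univ.filter fun P : Pt n p => ∀ F ∈ insert (member f ν) S, val F P = 0) =
      (univ.filter fun P : Pt n p => ∀ F ∈ S ∪ Set.range h, val F P = 0) ∪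
        (freePts S h p).filter fun P => ev (fun _ => 0) (fun k Q => val (f k) Q) (fun k => (ν k : ZMod p)) P = 0 := by
    ext P
    unfold freePts
    simp only [mem_union, mem_filter, mem_univ, true_and]
    rw [← val_member f ν P]
    constructor
    · intro hP
      have h3 : val (member f ν) P = 0 := hP _ (Set.mem_insert _ _)
      have h4 : ∀ F ∈ S, val F P = 0 := fun F hF => hP F (Set.mem_insert_of_mem _ hF)
      by_cases h2 : ∃ j, val (h j) P ≠ 0
      · exact Or.inr ⟨⟨h4, h2⟩, h3⟩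
      · push Not at h2
        refine Or.inl ?_
        rintro F (hF | ⟨j, rfl⟩)
        · exact h4 F hF
        · exact h2 j
    · rintro (hP | hP)
      · rintro F (rfl | hF)
        · have h5 : member f ν ∈ (Ideal.span (Set.range h)).radical := by
            unfold member
            exact Ideal.sum_mem _ fun k _ => Ideal.mul_mem_left _ _ (hf.mem k)
          exact val_zero_of_span (fun j => hP _ (Or.inr ⟨j, rfl⟩)) h5
        · exact hP F (Or.inl hF)
      · rintro F (rfl | hF)
        · exact hP.2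
        · exact hP.1.1 F hF
  rw [h1, card_union_of_disjoint, card_filter (p := fun P => ev (fun _ => 0) (fun k Q => val (f k) Q) (fun k => (ν k : ZMod p)) P = 0)]
  · push_cast
    rfl
  · rw [disjoint_left]
    intro P hP hP'
    unfold freePts at hP'
    rw [mem_filter, mem_filter] at hP'
    rw [mem_filter] at hP
    obtain ⟨j, hj⟩ := hP'.1.2.2
    exact hj (hP.2 _ (Or.inr ⟨j, rfl⟩))

/-- the centred indicator of zero -/
noncomputable def x01 (p : ℕ) (u : ZMod p) : ℝ := (if u = 0 then 1 else 0) - 1 / p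

lemma em_split {p : ℕ} [hp : Fact p.Prime] (h : ZMod p → ℝ) (a b : ℝ) (h0 : h 0 = a) (h1 : ∀ u, u ≠ 0 → h u = b) :
    em h = (a + (p - 1) * b) / p := by
  unfold em
  rw [← add_sum_erase univ h (mem_univ 0), h0, sum_congr rfl fun u hu => h1 u (mem_erase.1 hu).1, sum_const, card_erase_of_mem (mem_univ _),
    card_univ, ZMod.card, nsmul_eq_mul, Nat.cast_sub hp.out.one_lt.le]
  push_cast
  rfl

lemma em_x01 (p : ℕ) [hp : Fact p.Prime] : em (x01 p) = 0 := by
  have hp0 : (p : ℝ) ≠ 0 := by exact_mod_cast hp.out.ne_zero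
  rw [em_split (x01 p) (1 - 1 / p) (0 - 1 / p) (by simp [x01]) (fun u hu => by simp [x01, hu])]
  field_simp
  ring

lemma em_x01_sq (p : ℕ) [hp : Fact p.Prime] : em (fun u => x01 p u ^ 2) = 1 / p * (1 - 1 / p) := by
  have hp0 : (p : ℝ) ≠ 0 := by exact_mod_cast hp.out.ne_zero
  rw [em_split (fun u => x01 p u ^ 2) ((1 - 1 / p) ^ 2) ((0 - 1 / p) ^ 2) (by simp [x01]) (fun u hu => by simp [x01, hu])]
  field_simp
  ring

lemma em_x01_four (p : ℕ) [hp : Fact p.Prime] : em (fun u => x01 p u ^ 4) ≤ 1 / p := by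
  have hp2 : (2 : ℝ) ≤ p := by exact_mod_cast hp.out.two_le
  rw [em_split (fun u => x01 p u ^ 4) ((1 - 1 / p) ^ 4) ((0 - 1 / p) ^ 4) (by simp [x01]) (fun u hu => by simp [x01, hu])]
  refine div_le_div_of_nonneg_right ?_ (by positivity)
  obtain ⟨t, ht⟩ : ∃ t : ℝ, t = 1 / p := ⟨_, rfl⟩
  have ht0 : 0 < t := by
    rw [ht]
    positivity
  have ht1 : t ≤ 1 / 2 := by
    rw [ht]
    exact one_div_le_one_div_of_le (by norm_num) hp2
  have hpt : (p : ℝ) * t = 1 := by
    rw [ht]
    field_simp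
  rw [← ht]
  have h1 : ((p : ℝ) - 1) * (0 - t) ^ 4 = t ^ 3 - t ^ 4 := by
    calc ((p : ℝ) - 1) * (0 - t) ^ 4 = ((p : ℝ) * t) * t ^ 3 - t ^ 4 := by ring
      _ = _ := by rw [hpt, one_mul]
  rw [h1]
  have h2 : (1 - t) ^ 4 ≤ 1 - t := by
    have h3 : 0 ≤ 1 - t := by linarith
    have h4 : 1 - t ≤ 1 := by linarith
    calc (1 - t) ^ 4 ≤ (1 - t) ^ 1 := pow_le_pow_of_le_one h3 h4 (by norm_num)
      _ = 1 - t := pow_one _
  have h3 : t ^ 3 ≤ t := by
    calc t ^ 3 ≤ t ^ 1 := pow_le_pow_of_le_one ht0.le (by linarith) (by norm_num)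
      _ = t := pow_one _
  have h4 : 0 ≤ t ^ 4 := by positivity
  linarith

/-- the expected number of points: `z + (y - z) / p`, where `z` counts the points of the base locus and `y` those of
the ambient scheme -/
noncomputable def expected {n : ℕ} (S : Set (MvPolynomial (Fin (n + 1)) ℤ)) {J : Type} (h : J → MvPolynomial (Fin (n + 1)) ℤ) (p : ℕ) : ℝ :=
  points n (S ∪ Set.range h) p + ((points n S p : ℝ) - points n (S ∪ Set.range h) p) / p

/-- the variance of the number of points -/
noncomputable def spread {n : ℕ} (S : Set (MvPolynomial (Fin (n + 1)) ℤ)) {J : Type} (h : J → MvPolynomial (Fin (n + 1)) ℤ) (p : ℕ) : ℝ :=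
  ((points n S p : ℝ) - points n (S ∪ Set.range h) p) * (1 / p * (1 - 1 / p))

open Classical in
/-- the deviation of the number of points of the members modulo `p` -/
noncomputable def dev {n : ℕ} (S : Set (MvPolynomial (Fin (n + 1)) ℤ)) {J ι : Type} [Fintype ι] (h : J → MvPolynomial (Fin (n + 1)) ℤ)
    (f : ι → MvPolynomial (Fin (n + 1)) ℤ) (p : ℕ) (a : ι → ZMod p) : ℝ :=
  if hp : p.Prime then
    have : Fact p.Prime := ⟨hp⟩
    ∑ P ∈ freePts S h p, x01 p (ev (fun _ => 0) (fun k Q => val (f k) Q) a P)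
  else 0

variable {n : ℕ} {S : Set (MvPolynomial (Fin (n + 1)) ℤ)} {J ι : Type} [Fintype ι] [DecidableEq ι] {h : J → MvPolynomial (Fin (n + 1)) ℤ}
  {f : ι → MvPolynomial (Fin (n + 1)) ℤ} {e : J → ℕ} {d : ℕ}

omit [DecidableEq ι] in
lemma dev_eq (p : ℕ) [hp : Fact p.Prime] (a : ι → ZMod p) :
    dev S h f p a = ∑ P ∈ freePts S h p, x01 p (ev (fun _ => 0) (fun k Q => val (f k) Q) a P) := by
  unfold dev
  rw [dif_pos hp.out]

omit [DecidableEq ι] in
lemma points_dev (hf : Through h d f) (ν : ι → ℤ) {p : ℕ} (hp : p.Prime) :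
    (points n (insert (member f ν) S) p : ℝ) - expected S h p = dev S h f p (fun k => (ν k : ZMod p)) := by
  have : Fact p.Prime := ⟨hp⟩
  rw [points_member S hf ν p, dev_eq]
  unfold expected x01
  rw [sum_sub_distrib, sum_const, nsmul_eq_mul, points_base_le S h p]
  push_cast
  ring

lemma dev_moments (hh : ∀ j, (h j).IsHomogeneous (e j)) (hd : ∀ j, e j + 3 ≤ d) (hf : Through h d f) (p : ℕ) [hp : Fact p.Prime] :
    ex (dev S h f p) = 0 ∧ ex (fun a => dev S h f p a ^ 2) = spread S h p ∧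
      ex (fun a => dev S h f p a ^ 4) ≤ ((points n S p : ℝ) - points n (S ∪ Set.range h) p) / p +
        3 * (((points n S p : ℝ) - points n (S ∪ Set.range h) p) / p) ^ 2 := by
  classical
  have hp2 : (2 : ℝ) ≤ p := by exact_mod_cast hp.out.two_le
  have hsep := sep_through hh hd hf (freePts S h p) (fun P hP => by
    unfold freePts at hP
    rw [mem_filter] at hP
    exact hP.2.2)
  obtain ⟨m1, m2, m4⟩ := moments (fun _ => 0) (fun k (P : Pt n p) => val (f k) P) (fun _ => x01 p) (fun _ => em_x01 p) (freePts S h p) hsep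
  have hcard : ((freePts S h p).card : ℝ) = (points n S p : ℝ) - points n (S ∪ Set.range h) p := by
    rw [points_base_le S h p]
    push_cast
    ring
  have hdev : dev S h f p = fun a => ∑ P ∈ freePts S h p, x01 p (ev (fun _ => 0) (fun k Q => val (f k) Q) a P) := funext (dev_eq p)
  rw [hdev]
  refine ⟨m1, ?_, ?_⟩
  · rw [m2, sum_congr rfl fun Q _ => em_x01_sq p, sum_const, nsmul_eq_mul, hcard]
    rfl
  · refine m4.trans ?_
    rw [← hcard]
    have h1 : ∑ Q ∈ freePts S h p, em (fun u => x01 p u ^ 4) ≤ ((freePts S h p).card : ℝ) / p := by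
      refine (sum_le_sum fun Q _ => em_x01_four p).trans (le_of_eq ?_)
      rw [sum_const, nsmul_eq_mul]
      ring
    have h2 : ∑ Q ∈ freePts S h p, em (fun u => x01 p u ^ 2) ≤ ((freePts S h p).card : ℝ) / p := by
      rw [sum_congr rfl fun Q _ => em_x01_sq p, sum_const, nsmul_eq_mul]
      have h3 : 1 / (p : ℝ) * (1 - 1 / p) ≤ 1 / p := by
        have h4 : 0 < 1 / (p : ℝ) := by positivity
        nlinarith
      calc ((freePts S h p).card : ℝ) * (1 / p * (1 - 1 / p)) ≤ (freePts S h p).card * (1 / p) :=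
            mul_le_mul_of_nonneg_left h3 (Nat.cast_nonneg _)
        _ = _ := by ring
    have h5 : 0 ≤ ∑ Q ∈ freePts S h p, em (fun u => x01 p u ^ 2) := by
      rw [sum_congr rfl fun Q _ => em_x01_sq p]
      refine sum_nonneg fun Q _ => mul_nonneg (by positivity) ?_
      rw [sub_nonneg, div_le_one (by positivity)]
      linarith
    have h6 := pow_le_pow_left₀ h5 h2 2
    linarith

lemma free_nonneg (S : Set (MvPolynomial (Fin (n + 1)) ℤ)) (h : J → MvPolynomial (Fin (n + 1)) ℤ) (p : ℕ) (hp : p.Prime) :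
    0 ≤ (points n S p : ℝ) - points n (S ∪ Set.range h) p := by
  have : Fact p.Prime := ⟨hp⟩
  rw [points_base_le S h p]
  push_cast
  linarith [Nat.cast_nonneg (α := ℝ) (freePts S h p).card]

/-- **The normal law for weighted sums of point counts.** -/
theorem count_law (ε : ℝ) (hε : 0 < ε) : ∃ (η C₀ : ℝ) (A : ℕ), 0 < η ∧ 0 < C₀ ∧
    ∀ (n : ℕ) (S : Set (MvPolynomial (Fin (n + 1)) ℤ)) (J ι : Type) [Fintype ι] [DecidableEq ι]
      (h : J → MvPolynomial (Fin (n + 1)) ℤ) (f : ι → MvPolynomial (Fin (n + 1)) ℤ) (e : J → ℕ) (d : ℕ),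
      (∀ j, (h j).IsHomogeneous (e j)) → (∀ j, e j + 3 ≤ d) → Through h d f →
      ∀ (I : Finset ℕ), (∀ p ∈ I, p.Prime) → ∀ (w : ℕ → ℝ), 0 < ∑ p ∈ I, w p ^ 2 * spread S h p →
      ∑ p ∈ I, w p ^ 4 * (((points n S p : ℝ) - points n (S ∪ Set.range h) p) / p +
        3 * (((points n S p : ℝ) - points n (S ∪ Set.range h) p) / p) ^ 2) ≤ η * (∑ p ∈ I, w p ^ 2 * spread S h p) ^ 2 →
      ∀ Y : ℕ, (∀ p ∈ I, p ≤ Y) → ∀ (m : ι → ℤ) (L : ι → ℕ), (∀ i, C₀ * (Fintype.card ι + 1) * (Y : ℝ) ^ A ≤ L i) →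
      ∀ y : ℝ, |(((tbox m L).filter fun ν => ∑ p ∈ I, w p * ((points n (insert (member f ν) S) p : ℝ) - expected S h p) ≤
        y * Real.sqrt (∑ p ∈ I, w p ^ 2 * spread S h p)).card : ℝ) / ∏ i, (L i : ℝ) - Q282MM.Phi y| ≤ ε := by
  classical
  obtain ⟨η, C₀, A, hη, hC₀, key⟩ := law ε hε
  refine ⟨η, C₀, A, hη, hC₀, ?_⟩
  intro n S J ι _ _ h f e d hh hd hf I hI w hV hw Y hY m L hL y
  have h1 := key ι I hI (fun p a => w p * dev S h f p a) (fun p => w p ^ 2 * spread S h p)
    (fun p => w p ^ 4 * (((points n S p : ℝ) - points n (S ∪ Set.range h) p) / p +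
        3 * (((points n S p : ℝ) - points n (S ∪ Set.range h) p) / p) ^ 2)) (by
      intro p _ hp
      obtain ⟨m1, m2, m4⟩ := dev_moments (S := S) hh hd hf p
      refine ⟨?_, ?_, ?_⟩
      · rw [ex_smul, m1, mul_zero]
      · simp only [mul_pow]
        rw [ex_smul, m2]
      · simp only [mul_pow]
        rw [ex_smul]
        exact mul_le_mul_of_nonneg_left m4 (by positivity)) hV hw Y hY m L hL y
  have h2 : ∀ ν : ι → ℤ, ∑ p ∈ I, w p * ((points n (insert (member f ν) S) p : ℝ) - expected S h p) =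
      ∑ p ∈ I, w p * dev S h f p (fun k => (ν k : ZMod p)) :=
    fun ν => sum_congr rfl fun p hp => by rw [points_dev hf ν (hI p hp)]
  simp only [h2]
  exact h1

end Q282RH
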