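import Pool.Agent.Q282.RH.Asym

/-!
# The linear system of all hypersurfaces of a given degree that contain given linear subspaces
-/

set_option autoImplicit false
set_option linter.unusedSectionVars false

namespace Q282RH

open Finset MvPolynomial
open scoped LinearAlgebra.Projectivization

/-- the forms `f k` have degree `d` and lie in the ideals of the linear subspaces `l i = 0`, and every form of degree `d`
with integer coefficients in all these ideals is an integer combination of the `f k` -/
def Contains {n r c : ℕ} (l : Fin r → Fin c → Fin (n + 1) → ℤ) (d : ℕ) {ι : Type} [Fintype ι] (f : ι → MvPolynomial (Fin (n + 1)) ℤ) : Prop :=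
  (∀ k, (f k).IsHomogeneous d ∧ ∀ i, f k ∈ Ideal.span (Set.range fun j => lin (l i j))) ∧
  ∀ F : MvPolynomial (Fin (n + 1)) ℤ, F.IsHomogeneous d → (∀ i, F ∈ Ideal.span (Set.range fun j => lin (l i j))) →
    ∃ a : ι → ℤ, F = ∑ k, C (a k) * f k

lemma prod_mem_prodForms {n r c : ℕ} (l : Fin r → Fin c → Fin (n + 1) → ℤ) (g : Fin r → MvPolynomial (Fin (n + 1)) ℤ)
    (hg : ∀ i, g i ∈ Ideal.span (Set.range fun j => lin (l i j))) : ∏ i, g i ∈ Ideal.span (Set.range (prodForms l)) := by
  have h1 : ∏ i, g i ∈ ∏ i, Ideal.span (Set.range fun j => lin (l i j)) := Ideal.prod_mem_prod fun i _ => hg i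
  rw [Ideal.prod_span] at h1
  refine Ideal.span_mono ?_ h1
  intro F hF
  rw [Set.mem_finsetProd] at hF
  obtain ⟨G, hG, rfl⟩ := hF
  have h2 : ∀ i, ∃ j, lin (l i j) = G i := fun i => hG (mem_univ i)
  choose φ hφ using h2
  refine ⟨φ, ?_⟩
  unfold prodForms
  exact prod_congr rfl fun i _ => hφ i

lemma Contains.through {n r c d : ℕ} {l : Fin r → Fin c → Fin (n + 1) → ℤ} {ι : Type} [Fintype ι] {f : ι → MvPolynomial (Fin (n + 1)) ℤ}
    (hf : Contains l d f) : Through (prodForms l) d f where
  hom k := (hf.1 k).1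
  mem k := by
    refine ⟨r, ?_⟩
    have h1 := prod_mem_prodForms l (fun _ => f k) (hf.1 k).2
    rw [prod_const, card_univ, Fintype.card_fin] at h1
    exact h1
  gen F hF hF' := by
    refine hf.2 F hF fun i => ?_
    have h1 : Ideal.span (Set.range (prodForms l)) ≤ Ideal.span (Set.range fun j => lin (l i j)) := by
      rw [Ideal.span_le]
      rintro _ ⟨φ, rfl⟩
      unfold prodForms
      rw [← mul_prod_erase univ _ (mem_univ i)]
      exact Ideal.mul_mem_right _ _ (Ideal.subset_span ⟨φ i, rfl⟩)
    exact h1 hF'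

end Q282RH
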