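import Pool.Agent.Q282.RH.Main

/-!
# Hypersurfaces of even dimension that contain linear subspaces of half the dimension
-/

set_option autoImplicit false
set_option linter.unusedSectionVars false

namespace Q282RH

open Finset MvPolynomial
open Q282MM (Phi)

/-- the trace of Frobenius on the middle cohomology of a hypersurface of dimension `2 m`, in terms of the number of points -/
noncomputable def midTrace (m : ℕ) (F : MvPolynomial (Fin (2 * m + 1 + 1)) ℤ) (p : ℕ) : ℝ :=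
  points (2 * m + 1) {F} p - (∑ i ∈ range (2 * m + 1), (p : ℝ) ^ i - (p : ℝ) ^ m)

lemma free_le {n : ℕ} {J : Type} (h : J → MvPolynomial (Fin (n + 1)) ℤ) (p : ℕ) (hp : p.Prime) :
    ((points n ∅ p : ℝ) - points n (∅ ∪ Set.range h) p) / p ≤ 2 * (p : ℝ) ^ n / p ∧
    0 ≤ ((points n ∅ p : ℝ) - points n (∅ ∪ Set.range h) p) / p := by
  have hp0 : (0 : ℝ) < p := by exact_mod_cast hp.pos
  have h1 := free_nonneg ∅ h p hp
  refine ⟨div_le_div_of_nonneg_right ?_ hp0.le, div_nonneg h1 hp0.le⟩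
  have h2 := points_empty' n p hp
  have h3 := gs_le hp.two_le (n + 1)
  rw [pow_succ, mul_div_cancel_right₀ _ hp0.ne'] at h3
  have h4 : (0 : ℝ) ≤ points n (∅ ∪ Set.range h) p := Nat.cast_nonneg _
  linarith

lemma spread_le {n : ℕ} {J : Type} (h : J → MvPolynomial (Fin (n + 1)) ℤ) (p : ℕ) (hp : p.Prime) :
    spread ∅ h p ≤ 2 * (p : ℝ) ^ n / p ∧ 0 ≤ spread ∅ h p := by
  have hp1 : (1 : ℝ) ≤ p := by exact_mod_cast hp.one_lt.le
  have hp0 : (0 : ℝ) < p := by linarith
  obtain ⟨h1, h2⟩ := free_le h p hp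
  have h3 : spread ∅ h p = ((points n ∅ p : ℝ) - points n (∅ ∪ Set.range h) p) / p * (1 - 1 / p) := by
    unfold spread
    ring
  have h4 : 0 ≤ 1 - 1 / (p : ℝ) := by
    rw [sub_nonneg, div_le_one hp0]
    exact hp1
  have h5 : 1 - 1 / (p : ℝ) ≤ 1 := by
    have : 0 < 1 / (p : ℝ) := by positivity
    linarith
  rw [h3]
  refine ⟨?_, mul_nonneg h2 h4⟩
  calc _ ≤ ((points n ∅ p : ℝ) - points n (∅ ∪ Set.range h) p) / p * 1 := mul_le_mul_of_nonneg_left h5 h2
    _ ≤ _ := by rw [mul_one]; exact h1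

/-- the centres and the variance -/
lemma even_centre {m r : ℕ} (l : Fin r → Fin (m + 1) → Fin (2 * m + 1 + 1) → ℤ) (hl : ∀ i, Indep (l i)) (hd : Distinct l) :
    ∃ K : ℝ, 0 ≤ K ∧ ∀ T : ℕ,
      |∑ p ∈ Nat.primesLE T, Real.log p / (p : ℝ) ^ m * (expected ∅ (prodForms l) p - (gs p (2 * m + 1) + r * (p : ℝ) ^ m))| ≤
        K * (1 + Real.log T) ^ 2 ∧
      |∑ p ∈ Nat.primesLE T, (Real.log p / (p : ℝ) ^ m) ^ 2 * spread ∅ (prodForms l) p - logSq T| ≤ K * (1 + Real.log T) ^ 3 := by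
  obtain ⟨p₀, h⟩ := expected_asym (n := 2 * m + 1) (a := m) (c := m + 1) (by omega) (by omega) l hl hd
  obtain ⟨K₁, hK₁, h1⟩ := sum_small (fun p => Real.log p / (p : ℝ) ^ m * (expected ∅ (prodForms l) p - (gs p (2 * m + 1) + r * (p : ℝ) ^ m)))
    (2 * r ^ 2 + 4 * r + 1) (by positivity) 1 p₀ (by
      intro p hp hprime
      have hp1 : (1 : ℝ) ≤ p := by exact_mod_cast hprime.one_lt.le
      have hp0 : (0 : ℝ) < p := by linarith
      have h2 := (h p hp hprime).1
      show |Real.log p / (p : ℝ) ^ m * _| ≤ _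
      rw [abs_mul, abs_of_nonneg (div_nonneg (Real.log_nonneg hp1) (by positivity)), ← sub_sub]
      calc Real.log p / (p : ℝ) ^ m * |expected ∅ (prodForms l) p - gs p (2 * m + 1) - r * (p : ℝ) ^ m| ≤
          Real.log p / (p : ℝ) ^ m * ((2 * r ^ 2 + 4 * r + 1) * ((p : ℝ) ^ m / p)) :=
            mul_le_mul_of_nonneg_left h2 (div_nonneg (Real.log_nonneg hp1) (by positivity))
        _ = _ := by
          rw [pow_one]
          field_simp)
  obtain ⟨K₂, hK₂, h2⟩ := sum_small (fun p => (Real.log p / (p : ℝ) ^ m) ^ 2 * spread ∅ (prodForms l) p - (Real.log p) ^ 2)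
    (2 * r + 4) (by positivity) 2 p₀ (by
      intro p hp hprime
      have hp1 : (1 : ℝ) ≤ p := by exact_mod_cast hprime.one_lt.le
      have hp0 : (0 : ℝ) < p := by linarith
      have h3 := (h p hp hprime).2.1
      have h4 : 2 * m + 1 - 1 = 2 * m := by omega
      rw [h4] at h3
      have h5 : (Real.log p / (p : ℝ) ^ m) ^ 2 * spread ∅ (prodForms l) p - (Real.log p) ^ 2 =
          (Real.log p / (p : ℝ) ^ m) ^ 2 * (spread ∅ (prodForms l) p - (p : ℝ) ^ (2 * m)) := by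
        rw [mul_sub]
        congr 1
        rw [div_pow, ← pow_mul, mul_comm m 2, div_mul_cancel₀ _ (by positivity)]
      show |(Real.log p / (p : ℝ) ^ m) ^ 2 * spread ∅ (prodForms l) p - (Real.log p) ^ 2| ≤ _
      rw [h5, abs_mul, abs_of_nonneg (sq_nonneg _)]
      calc (Real.log p / (p : ℝ) ^ m) ^ 2 * |spread ∅ (prodForms l) p - (p : ℝ) ^ (2 * m)| ≤
          (Real.log p / (p : ℝ) ^ m) ^ 2 * ((2 * r + 4) * ((p : ℝ) ^ (2 * m) / p)) := mul_le_mul_of_nonneg_left h3 (sq_nonneg _)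
        _ = _ := by
          rw [div_pow, ← pow_mul, mul_comm m 2]
          field_simp)
  refine ⟨K₁ + K₂, by linarith, fun T => ⟨?_, ?_⟩⟩
  · refine (h1 T).trans ?_
    show K₁ * (1 + Real.log T) ^ 2 ≤ (K₁ + K₂) * (1 + Real.log T) ^ 2
    have : 0 ≤ K₂ * (1 + Real.log T) ^ 2 := by positivity
    rw [add_mul]
    linarith
  · have h3 := h2 T
    rw [sum_sub_distrib] at h3
    refine h3.trans ?_
    show K₂ * (1 + Real.log T) ^ 3 ≤ (K₁ + K₂) * (1 + Real.log T) ^ 3
    have hT : 0 ≤ 1 + Real.log (T : ℝ) := by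
      rcases Nat.eq_zero_or_pos T with rfl | h5
      · simp
      · have : 0 ≤ Real.log (T : ℝ) := Real.log_nonneg (by exact_mod_cast h5)
        linarith
    have : 0 ≤ K₁ * (1 + Real.log T) ^ 3 := mul_nonneg hK₁ (pow_nonneg hT 3)
    rw [add_mul]
    linarith

/-- **The normal law for the Tauberian sums of hypersurfaces of even dimension.** -/
theorem even_law (ε : ℝ) (hε : 0 < ε) : ∃ A : ℕ, ∀ (m r d : ℕ) (l : Fin r → Fin (m + 1) → Fin (2 * m + 1 + 1) → ℤ),
    (∀ i, Indep (l i)) → Distinct l → r + 3 ≤ d → ∀ (ι : Type) [Fintype ι] [DecidableEq ι] (f : ι → MvPolynomial (Fin (2 * m + 1 + 1)) ℤ),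
    Contains l d f → ∃ T₀ : ℕ, ∀ T : ℕ, T₀ ≤ T → ∀ (c : ι → ℤ) (L : ι → ℕ), (∀ i, T ^ A ≤ L i) → ∀ y : ℝ,
      |(((tbox c L).filter fun ν => ∑ p ∈ Nat.primesLE T, midTrace m (member f ν) p * Real.log p / (p : ℝ) ^ m ≤
        (1 + r) * Chebyshev.theta T + y * Real.sqrt (logSq T)).card : ℝ) / ∏ i, (L i : ℝ) - Phi y| ≤ ε := by
  classical
  obtain ⟨κ, C₀, A, hκ0, hκ1, hC₀, key⟩ := main_law ε hε
  refine ⟨A + 1, ?_⟩
  intro m r d l hl hdist hd ι _ _ f hf
  obtain ⟨K, hK, hcen⟩ := even_centre l hl hdist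
  obtain ⟨T₁, hT₁⟩ := log_small' 3 K (κ / 4) (by positivity)
  obtain ⟨T₂, hT₂⟩ := log_small 2 K (κ / 2) (by positivity)
  obtain ⟨T₃, hT₃⟩ := logSq_ge
  obtain ⟨T₄, hT₄⟩ := log_small' 2 14 (κ / 4) (by positivity)
  obtain ⟨T₅, hT₅⟩ := exists_nat_ge (C₀ * (Fintype.card ι + 1))
  refine ⟨T₁ + T₂ + T₃ + T₄ + T₅ + 1, fun T hT c L hL y => ?_⟩
  have hTpos : (1 : ℝ) ≤ T := by
    have : 1 ≤ T := by omega
    exact_mod_cast this
  have hlog : 0 ≤ Real.log (T : ℝ) := Real.log_nonneg hTpos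
  have hS := hT₃ T (by omega)
  have hS0 : 0 < logSq T := by linarith
  have hsT : Real.sqrt T ≤ 2 * Real.sqrt (logSq T) := by
    have h1 : (T : ℝ) ≤ 4 * logSq T := by linarith
    have h2 := Real.sqrt_le_sqrt h1
    have h3 : Real.sqrt (4 * logSq T) = 2 * Real.sqrt (logSq T) := by
      rw [Real.sqrt_mul (by norm_num), show (4 : ℝ) = 2 ^ 2 by norm_num, Real.sqrt_sq (by norm_num)]
    rw [h3] at h2
    exact h2
  obtain ⟨hc1, hc2⟩ := hcen T
  have k := key (2 * m + 1) ∅ (Fin r → Fin (m + 1)) ι (prodForms l) f (fun _ => r) d (fun φ => prodForms_hom l φ) (fun _ => hd)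
    hf.through (Nat.primesLE T) (fun p hp => Nat.prime_of_mem_primesLE hp) (fun p => Real.log p / (p : ℝ) ^ m)
    (fun p => gs p (2 * m + 1) + r * (p : ℝ) ^ m) (logSq T) hS0 (by
      refine hc2.trans ((hT₁ T (by omega)).trans ?_)
      have h1 : (T : ℝ) ≤ 4 * logSq T := by linarith
      calc κ / 4 * (T : ℝ) ≤ κ / 4 * (4 * logSq T) := mul_le_mul_of_nonneg_left h1 (by positivity)
        _ = κ * logSq T := by ring) (by
      refine hc1.trans ((hT₂ T (by omega)).trans ?_)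
      calc κ / 2 * Real.sqrt T ≤ κ / 2 * (2 * Real.sqrt (logSq T)) := mul_le_mul_of_nonneg_left hsT (by positivity)
        _ = κ * Real.sqrt (logSq T) := by ring) (by
      have h1 : ∀ p ∈ Nat.primesLE T, (Real.log p / (p : ℝ) ^ m) ^ 4 *
          (((points (2 * m + 1) ∅ p : ℝ) - points (2 * m + 1) (∅ ∪ Set.range (prodForms l)) p) / p +
          3 * (((points (2 * m + 1) ∅ p : ℝ) - points (2 * m + 1) (∅ ∪ Set.range (prodForms l)) p) / p) ^ 2) ≤ 14 * (Real.log p) ^ 4 := by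
        intro p hp
        have hprime := Nat.prime_of_mem_primesLE hp
        have hp1 : (1 : ℝ) ≤ p := by exact_mod_cast hprime.one_lt.le
        have hp0 : (0 : ℝ) < p := by linarith
        obtain ⟨h2, h3⟩ := free_le (prodForms l) p hprime
        rw [pow_succ, ← mul_assoc, mul_div_cancel_right₀ _ hp0.ne'] at h2
        obtain ⟨t, ht⟩ : ∃ t, t = ((points (2 * m + 1) ∅ p : ℝ) - points (2 * m + 1) (∅ ∪ Set.range (prodForms l)) p) / p := ⟨_, rfl⟩
        rw [← ht] at h2 h3 ⊢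
        obtain ⟨q, hq⟩ : ∃ q : ℝ, q = (p : ℝ) ^ (2 * m) := ⟨_, rfl⟩
        have hq1 : 1 ≤ q := by
          rw [hq]
          exact one_le_pow₀ hp1
        rw [← hq] at h2
        have h4 : t + 3 * t ^ 2 ≤ 14 * q ^ 2 := by nlinarith
        have h5 : (Real.log p / (p : ℝ) ^ m) ^ 4 = (Real.log p) ^ 4 / q ^ 2 := by
          rw [div_pow, hq, ← pow_mul, ← pow_mul]
          congr 2
          omega
        rw [h5]
        calc (Real.log p) ^ 4 / q ^ 2 * (t + 3 * t ^ 2) ≤ (Real.log p) ^ 4 / q ^ 2 * (14 * q ^ 2) :=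
              mul_le_mul_of_nonneg_left h4 (by positivity)
          _ = _ := by field_simp
      refine (sum_le_sum h1).trans ?_
      rw [← mul_sum]
      have h2 := logFour_le T
      have h3 := hT₄ T (by omega)
      have h4 : 14 * (Real.log (T : ℝ)) ^ 2 ≤ κ * logSq T := by
        have h5 : 14 * (Real.log (T : ℝ)) ^ 2 ≤ 14 * (1 + Real.log T) ^ 2 := by
          refine mul_le_mul_of_nonneg_left (pow_le_pow_left₀ hlog (by linarith) 2) (by norm_num)
        have h6 : κ / 4 * (T : ℝ) ≤ κ * logSq T := by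
          calc κ / 4 * (T : ℝ) ≤ κ / 4 * (4 * logSq T) := mul_le_mul_of_nonneg_left (by linarith) (by positivity)
            _ = κ * logSq T := by ring
        linarith
      calc 14 * ∑ p ∈ Nat.primesLE T, Real.log (p : ℝ) ^ 4 ≤ 14 * ((Real.log T) ^ 2 * logSq T) := mul_le_mul_of_nonneg_left h2 (by norm_num)
        _ = (14 * (Real.log T) ^ 2) * logSq T := by ring
        _ ≤ (κ * logSq T) * logSq T := mul_le_mul_of_nonneg_right h4 hS0.le
        _ = _ := by ring)
    T (fun p hp => Nat.le_of_mem_primesLE hp) c L (fun i => by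
      have h1 : ((T ^ (A + 1) : ℕ) : ℝ) ≤ L i := by exact_mod_cast hL i
      refine le_trans ?_ h1
      push_cast
      rw [pow_succ, mul_comm ((T : ℝ) ^ A)]
      refine mul_le_mul_of_nonneg_right ?_ (by positivity)
      have h2 : (T₅ : ℝ) ≤ T := by exact_mod_cast (by omega : T₅ ≤ T)
      linarith) y
  have hset : ((tbox c L).filter fun ν => ∑ p ∈ Nat.primesLE T, midTrace m (member f ν) p * Real.log p / (p : ℝ) ^ m ≤
        (1 + r) * Chebyshev.theta T + y * Real.sqrt (logSq T)) =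
      (tbox c L).filter fun ν => ∑ p ∈ Nat.primesLE T, Real.log p / (p : ℝ) ^ m *
        ((points (2 * m + 1) (insert (member f ν) ∅) p : ℝ) - (gs p (2 * m + 1) + r * (p : ℝ) ^ m)) ≤ y * Real.sqrt (logSq T) := by
    refine filter_congr fun ν _ => ?_
    have h1 : ∑ p ∈ Nat.primesLE T, midTrace m (member f ν) p * Real.log p / (p : ℝ) ^ m = ∑ p ∈ Nat.primesLE T, Real.log p / (p : ℝ) ^ m *
        ((points (2 * m + 1) (insert (member f ν) ∅) p : ℝ) - (gs p (2 * m + 1) + r * (p : ℝ) ^ m)) + (1 + r) * Chebyshev.theta T := by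
      rw [Chebyshev.theta_eq_sum_primesLE_log, mul_sum, ← sum_add_distrib]
      refine sum_congr rfl fun p hp => ?_
      have hp0 : (p : ℝ) ≠ 0 := by
        exact_mod_cast (Nat.prime_of_mem_primesLE hp).ne_zero
      unfold midTrace gs
      rw [insert_empty_eq]
      field_simp
      ring
    rw [h1]
    constructor <;> intro h2 <;> linarith
  rw [hset]
  exact k

end Q282RH
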