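import Pool.Agent.Q282.RH.Contain

/-!
# The forms of a given degree that vanish on given linear subspaces have a basis
-/

set_option autoImplicit false
set_option linter.unusedSectionVars false

namespace Q282RH

open Finset MvPolynomial

/-- the lattice of the forms of degree `d` with integer coefficients in the ideals of all the linear subspaces -/
noncomputable def lattice {n r c : ℕ} (l : Fin r → Fin c → Fin (n + 1) → ℤ) (d : ℕ) : Submodule ℤ (MvPolynomial (Fin (n + 1)) ℤ) :=
  homogeneousSubmodule (Fin (n + 1)) ℤ d ⊓ ⨅ i, (Ideal.span (Set.range fun j => lin (l i j))).restrictScalars ℤ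

lemma mem_lattice {n r c : ℕ} {l : Fin r → Fin c → Fin (n + 1) → ℤ} {d : ℕ} {F : MvPolynomial (Fin (n + 1)) ℤ} :
    F ∈ lattice l d ↔ F.IsHomogeneous d ∧ ∀ i, F ∈ Ideal.span (Set.range fun j => lin (l i j)) := by
  unfold lattice
  rw [Submodule.mem_inf, mem_homogeneousSubmodule, Submodule.mem_iInf]
  rfl

/-- **The linear system has a basis.** -/
theorem exists_basis {n r c : ℕ} (l : Fin r → Fin c → Fin (n + 1) → ℤ) (d : ℕ) :
    ∃ (N : ℕ) (f : Fin N → MvPolynomial (Fin (n + 1)) ℤ), LinearIndependent ℤ f ∧ Contains l d f := by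
  have h1 : (homogeneousSubmodule (Fin (n + 1)) ℤ d).FG := homogeneousSubmodule_fg _ _ d
  have : Module.Finite ℤ (homogeneousSubmodule (Fin (n + 1)) ℤ d) := Module.Finite.iff_fg.2 h1
  have hle : lattice l d ≤ homogeneousSubmodule (Fin (n + 1)) ℤ d := inf_le_left
  have h2 : Module.Finite ℤ (lattice l d) := by
    have h3 : Module.Finite ℤ ((lattice l d).comap (homogeneousSubmodule (Fin (n + 1)) ℤ d).subtype) := inferInstance
    exact Module.Finite.equiv (Submodule.comapSubtypeEquivOfLe hle)
  have hfree : Module.Free ℤ (lattice l d) := inferInstance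
  obtain ⟨b⟩ : Nonempty (Module.Basis (Fin (Module.finrank ℤ (lattice l d))) ℤ (lattice l d)) := ⟨Module.finBasis ℤ (lattice l d)⟩
  refine ⟨_, fun k => (b k : MvPolynomial (Fin (n + 1)) ℤ), ?_, ?_, ?_⟩
  · have := b.linearIndependent.map' (lattice l d).subtype (Submodule.ker_subtype _)
    exact this
  · intro k
    exact mem_lattice.1 (b k).2
  · intro F hF hF'
    obtain ⟨x, hx⟩ : ∃ x : lattice l d, (x : MvPolynomial (Fin (n + 1)) ℤ) = F := ⟨⟨F, mem_lattice.2 ⟨hF, hF'⟩⟩, rfl⟩
    refine ⟨fun k => b.repr x k, ?_⟩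
    have h3 := congrArg (fun y : lattice l d => (y : MvPolynomial (Fin (n + 1)) ℤ)) (b.sum_repr x)
    simp only [Submodule.coe_sum, Submodule.coe_smul] at h3
    rw [← hx, ← h3]
    refine sum_congr rfl fun k _ => ?_
    rw [smul_eq_C_mul]

end Q282RH
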