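import Pool.Agent.Q282.LT.Phi

/-!
# The normal law over boxes of integers for functions of residues with bounded fourth moments
-/

set_option autoImplicit false
set_option linter.unusedSectionVars false

namespace Q282RH

open Finset
open Q282MM (Phi)
open Q282LT
open Q282.BP (bx mem_bx card_bx bx_mean)
open Pool.Agent.TH894.NE (Per mean)

lemma avg_nonneg {d q : ℕ} {f : (Fin d → ℤ) → ℝ} (h : ∀ ν, 0 ≤ f ν) : 0 ≤ avg d q f := by
  unfold avg
  exact div_nonneg (sum_nonneg fun _ _ => h _) (by positivity)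

lemma avg_mono {d q : ℕ} {f g : (Fin d → ℤ) → ℝ} (h : ∀ ν, f ν ≤ g ν) : avg d q f ≤ avg d q g := by
  unfold avg
  exact div_le_div_of_nonneg_right (sum_le_sum fun _ _ => h _) (by positivity)

lemma avg_add {d q : ℕ} (f g : (Fin d → ℤ) → ℝ) : avg d q (fun ν => f ν + g ν) = avg d q f + avg d q g := by
  unfold avg
  rw [sum_add_distrib, add_div]

lemma avg_sub {d q : ℕ} (f g : (Fin d → ℤ) → ℝ) : avg d q (fun ν => f ν - g ν) = avg d q f - avg d q g := by
  unfold avg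
  rw [sum_sub_distrib, sub_div]

lemma avg_smul {d q : ℕ} (c : ℝ) (f : (Fin d → ℤ) → ℝ) : avg d q (fun ν => c * f ν) = c * avg d q f := by
  unfold avg
  rw [← mul_sum, mul_div_assoc]

lemma avg_const {d q : ℕ} (hq : 1 ≤ q) (c : ℝ) : avg d q (fun _ => c) = c := by
  unfold avg
  rw [sum_const, Fintype.card_piFinset, prod_const, card_univ, Fintype.card_fin, card_range, nsmul_eq_mul]
  push_cast
  have : (q : ℝ) ^ d ≠ 0 := by
    have : (0 : ℝ) < q := by exact_mod_cast hq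
    positivity
  field_simp

lemma avg_abs {d q : ℕ} (f : (Fin d → ℤ) → ℝ) : |avg d q f| ≤ avg d q (fun ν => |f ν|) := by
  unfold avg
  rw [abs_div, abs_of_nonneg (show (0 : ℝ) ≤ (q : ℝ) ^ d by positivity)]
  exact div_le_div_of_nonneg_right (abs_sum_le_sum_abs _ _) (by positivity)

/-- the proportion in a box of integers is close to the average over the residues -/
lemma zbox_avg {d q : ℕ} (hq : 1 ≤ q) (m : Fin d → ℤ) (L : Fin d → ℕ) (T : ℝ) (hT : 0 < T) (hL : ∀ i, T ≤ L i)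
    (hdq : d * (q : ℝ) ≤ T) (P : (Fin d → ℤ) → Prop) [DecidablePred P]
    (hP : ∀ ν ν' : Fin d → ℤ, (∀ i, (q : ℤ) ∣ ν i - ν' i) → (P ν ↔ P ν')) :
    (((zbox m L).filter P).card : ℝ) / ∏ i, (L i : ℝ) ≤ avg d q (fun ν => if P ν then 1 else 0) + 2 * (d * q / T) := by
  have hL0 : ∀ i, (0 : ℝ) < L i := fun i => hT.trans_le (hL i)
  have hP0 : 0 < ∏ i, (L i : ℝ) := prod_pos fun i _ => hL0 i
  have hper : ZPer q (fun ν => if P ν then (1 : ℝ) else 0) := by
    intro ν ν' h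
    show (if P ν then (1 : ℝ) else 0) = if P ν' then 1 else 0
    simp only [hP ν ν' h]
  have h1 := bx_mean (by omega : 0 < q) L T hT hL (fun n => if P (fun i => m i + n i) then (1 : ℝ) else 0) (by
    intro n
    have := hper.per m n
    simp only at this ⊢
    rw [this]) 1 (fun n => by
    show |if P (fun i => m i + n i) then (1 : ℝ) else 0| ≤ 1
    split_ifs <;> norm_num)
  have h2 : mean d q (fun n => if P (fun i => m i + n i) then (1 : ℝ) else 0) = avg d q (fun ν => if P ν then 1 else 0) :=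
    mean_shift hq hper m
  rw [h2] at h1
  have h3 : ∑ n ∈ bx L, (if P (fun i => m i + n i) then (1 : ℝ) else 0) = ((zbox m L).filter P).card := by
    rw [card_filter]
    push_cast
    refine sum_nbij' (i := fun n i => m i + n i) (j := fun ν i => (ν i - m i).toNat) ?_ ?_ ?_ ?_ ?_
    · intro n hn
      rw [mem_bx] at hn
      rw [mem_zbox]
      intro i
      have := hn i
      constructor <;> omega
    · intro ν hν
      rw [mem_zbox] at hν
      rw [mem_bx]
      intro i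
      have := hν i
      omega
    · intro n _
      funext i
      show (m i + n i - m i).toNat = n i
      omega
    · intro ν hν
      rw [mem_zbox] at hν
      funext i
      have := hν i
      show m i + (((ν i - m i).toNat : ℕ) : ℤ) = ν i
      omega
    · intro n _
      rfl
  rw [h3] at h1
  have h4 : Real.exp (d * q / T) - 1 ≤ 2 * (d * q / T) := by
    have h5 : 0 ≤ d * (q : ℝ) / T := by positivity
    have h6 : d * (q : ℝ) / T ≤ 1 := by
      rw [div_le_one hT]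
      exact hdq
    have h8 : |Real.exp (d * q / T) - 1 - d * q / T| ≤ (d * q / T) ^ 2 := Real.abs_exp_sub_one_sub_id_le (by rw [abs_of_nonneg h5]; exact h6)
    have h9 := (abs_le.1 h8).2
    nlinarith
  rw [abs_le] at h1
  rw [div_le_iff₀ hP0]
  have h5 : (∏ i, (L i : ℝ)) * (1 * (Real.exp (d * q / T) - 1)) ≤ (∏ i, (L i : ℝ)) * (2 * (d * q / T)) := by
    rw [one_mul]
    exact mul_le_mul_of_nonneg_left h4 hP0.le
  nlinarith [h1.2]

lemma num_sq (κ : ℝ) (h0 : 0 < κ) (h1 : κ ≤ 1 / 2) : (1 - κ / 4) ^ 2 ≤ 1 - κ / 4 := by nlinarith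

lemma num_a (κ s s' : ℝ) (h0 : 0 < κ) (h1 : κ ≤ 1 / 2) (hs' : 0 ≤ s') (h : (1 - κ / 4) * s ≤ s') : s ≤ (κ + 1) * s' := by
  have h2 : 0 < 1 - κ / 4 := by linarith
  have h3 : s ≤ s' / (1 - κ / 4) := by
    rw [le_div_iff₀ h2, mul_comm]
    exact h
  refine h3.trans ?_
  rw [div_le_iff₀ h2]
  have h4 : 1 ≤ (κ + 1) * (1 - κ / 4) := by nlinarith
  calc s' = 1 * s' := (one_mul _).symm
    _ ≤ (κ + 1) * (1 - κ / 4) * s' := mul_le_mul_of_nonneg_right h4 hs'
    _ = (κ + 1) * s' * (1 - κ / 4) := by ring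

lemma num_b (κ s s' : ℝ) (h0 : 0 < κ) (h1 : κ ≤ 1 / 2) (hs : 0 ≤ s) (h : (1 - κ / 4) * s ≤ s') : κ / 8 * s ≤ κ * s' := by
  have h2 : 1 / 2 * s ≤ (1 - κ / 4) * s := mul_le_mul_of_nonneg_right (by linarith) hs
  have h3 : s ≤ 8 * s' := by linarith
  calc κ / 8 * s ≤ κ / 8 * (8 * s') := mul_le_mul_of_nonneg_left h3 (by positivity)
    _ = κ * s' := by ring

/-- **The normal law for sums of functions of residues with small fourth moments.** -/
theorem gauss_u (ε : ℝ) (hε : 0 < ε) : ∃ (η C₀ : ℝ) (A : ℕ), 0 < η ∧ 0 < C₀ ∧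
    ∀ (d : ℕ) (I : Finset ℕ) (q : ℕ → ℕ) (g : ℕ → (Fin d → ℤ) → ℝ), (∀ b ∈ I, 1 ≤ q b) →
      (∀ a ∈ I, ∀ b ∈ I, a ≠ b → Nat.Coprime (q a) (q b)) → (∀ b ∈ I, ZPer (q b) (g b)) →
      (∀ b ∈ I, avg d (q b) (g b) = 0) → ∀ V : ℝ, 0 < V → ∑ a ∈ I, avg d (q a) (fun ν => g a ν ^ 2) = V →
      ∑ a ∈ I, avg d (q a) (fun ν => g a ν ^ 4) ≤ η * V ^ 2 →
      ∀ Y : ℕ, (∀ a ∈ I, q a ≤ Y) → I.card ≤ Y → ∀ (m : Fin d → ℤ) (L : Fin d → ℕ), (∀ i, C₀ * (d + 1) * (Y : ℝ) ^ A ≤ L i) →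
      ∀ y : ℝ, |(((zbox m L).filter fun ν => ∑ a ∈ I, g a ν ≤ y * Real.sqrt V).card : ℝ) / ∏ i, (L i : ℝ) - Phi y| ≤ ε := by
  classical
  obtain ⟨V₀, C₁, A, hV₀, hC₁, h⟩ := gauss_z (ε / 4) (by positivity)
  obtain ⟨κ, hκ0, hκ1, hκ⟩ := Phi_affine (ε / 4) (by positivity)
  -- the level of the truncation
  obtain ⟨δ, hδ⟩ : ∃ δ : ℝ, δ = min 1 (1 / (2 * V₀ + 1)) := ⟨_, rfl⟩
  have hδ0 : 0 < δ := by
    rw [hδ]
    positivity
  have hδ1 : δ ≤ 1 := by
    rw [hδ]
    exact min_le_left _ _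
  have hδ2 : V₀ * (2 * δ ^ 2) ≤ 1 := by
    have h1 : δ ≤ 1 / (2 * V₀ + 1) := by
      rw [hδ]
      exact min_le_right _ _
    have h2 : δ ^ 2 ≤ δ := by nlinarith
    have h3 : δ * (2 * V₀ + 1) ≤ 1 := by
      rw [le_div_iff₀ (by positivity)] at h1
      exact h1
    nlinarith
  obtain ⟨η, hη⟩ : ∃ η : ℝ, η = min (κ * δ ^ 4 / 8) (ε / 8 * δ ^ 4) := ⟨_, rfl⟩
  have hη0 : 0 < η := by
    rw [hη]
    positivity
  have hη1 : η ≤ κ * δ ^ 4 / 8 := by
    rw [hη]
    exact min_le_left _ _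
  have hη2 : η ≤ ε / 8 * δ ^ 4 := by
    rw [hη]
    exact min_le_right _ _
  refine ⟨η, C₁ + 16 / ε + 1, A + 2, hη0, by positivity, ?_⟩
  intro d I q g hq hco hper hmean V hV hsum hfour Y hY hIY m L hL y
  obtain ⟨W, hW⟩ : ∃ W : ℝ, W = ∑ a ∈ I, avg d (q a) (fun ν => g a ν ^ 4) := ⟨_, rfl⟩
  rw [← hW] at hfour
  have hW0 : 0 ≤ W := by
    rw [hW]
    exact sum_nonneg fun a _ => avg_nonneg fun ν => by positivity
  have hIne : I.Nonempty := by
    rw [nonempty_iff_ne_empty]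
    intro h0
    rw [h0, sum_empty] at hsum
    linarith
  have hY1 : 1 ≤ Y := by
    obtain ⟨a, ha⟩ := hIne
    exact (hq a ha).trans (hY a ha)
  have hY1' : (1 : ℝ) ≤ Y := by exact_mod_cast hY1
  have hYA : (Y : ℝ) ^ A ≤ (Y : ℝ) ^ (A + 2) := pow_le_pow_right₀ hY1' (by omega)
  have hY2 : (Y : ℝ) ^ 2 ≤ (Y : ℝ) ^ (A + 2) := pow_le_pow_right₀ hY1' (by omega)
  obtain ⟨T, hT⟩ : ∃ T : ℝ, T = (C₁ + 16 / ε + 1) * (d + 1) * (Y : ℝ) ^ (A + 2) := ⟨_, rfl⟩
  have hd0 : (0 : ℝ) ≤ d := Nat.cast_nonneg d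
  have hT0 : 0 < T := by
    rw [hT]
    positivity
  have hLT : ∀ i, T ≤ L i := by
    intro i
    rw [hT]
    exact hL i
  have hdT : 16 / ε * (d * (Y : ℝ) ^ 2) ≤ T := by
    rw [hT]
    calc 16 / ε * (d * (Y : ℝ) ^ 2) ≤ 16 / ε * ((d + 1) * (Y : ℝ) ^ (A + 2)) := by
          apply mul_le_mul_of_nonneg_left _ (by positivity)
          exact mul_le_mul (by linarith) hY2 (by positivity) (by positivity)
      _ ≤ (C₁ + 16 / ε + 1) * (d + 1) * (Y : ℝ) ^ (A + 2) := by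
          rw [← mul_assoc]
          apply mul_le_mul_of_nonneg_right _ (by positivity)
          apply mul_le_mul_of_nonneg_right _ (by positivity)
          linarith
  obtain ⟨s, hs⟩ : ∃ s : ℝ, s = Real.sqrt V := ⟨_, rfl⟩
  have hs0 : 0 < s := by
    rw [hs]
    exact Real.sqrt_pos.2 hV
  have hs2 : s ^ 2 = V := by
    rw [hs]
    exact Real.sq_sqrt hV.le
  obtain ⟨τ, hτ⟩ : ∃ τ : ℝ, τ = δ * s := ⟨_, rfl⟩
  have hτ0 : 0 < τ := by
    rw [hτ]
    positivity
  have hτ2 : τ ^ 2 = δ ^ 2 * V := by rw [hτ, mul_pow, hs2]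
  -- the truncated functions
  obtain ⟨t, ht⟩ : ∃ t : ℕ → (Fin d → ℤ) → ℝ, t = fun b ν => if |g b ν| ≤ τ then g b ν else 0 := ⟨_, rfl⟩
  obtain ⟨f, hf⟩ : ∃ f : ℕ → (Fin d → ℤ) → ℝ, f = fun b ν => τ⁻¹ * t b ν := ⟨_, rfl⟩
  have htb : ∀ b ν, |t b ν| ≤ τ := by
    intro b ν
    rw [ht]
    show |if |g b ν| ≤ τ then g b ν else 0| ≤ τ
    split_ifs with h1
    · exact h1
    · rw [abs_zero]
      exact hτ0.le
  have hfb : ∀ b ν, |f b ν| ≤ 1 := by
    intro b ν
    rw [hf]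
    show |τ⁻¹ * t b ν| ≤ 1
    rw [abs_mul, abs_inv, abs_of_pos hτ0, inv_mul_le_iff₀ hτ0, mul_one]
    exact htb b ν
  have hfper : ∀ b ∈ I, ZPer (q b) (f b) := by
    intro b hb ν ν' hνν
    rw [hf, ht]
    show τ⁻¹ * (if |g b ν| ≤ τ then g b ν else 0) = τ⁻¹ * (if |g b ν'| ≤ τ then g b ν' else 0)
    rw [hper b hb ν ν' hνν]
  -- moments of the truncated functions
  obtain ⟨e, he⟩ : ∃ e : ℕ → ℝ, e = fun b => avg d (q b) (t b) := ⟨_, rfl⟩
  obtain ⟨w, hw⟩ : ∃ w : ℕ → ℝ, w = fun b => avg d (q b) (fun ν => g b ν ^ 4) := ⟨_, rfl⟩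
  have hwW : ∑ a ∈ I, w a = W := by rw [hW, hw]
  have hw0 : ∀ b, 0 ≤ w b := by
    intro b
    rw [hw]
    exact avg_nonneg fun ν => by positivity
  have he1 : ∀ b ∈ I, |e b| ≤ w b / τ ^ 3 := by
    intro b hb
    have h1 : e b = - avg d (q b) (fun ν => g b ν - t b ν) := by
      rw [avg_sub, hmean b hb, he]
      ring
    rw [h1, abs_neg]
    refine (avg_abs _).trans ?_
    rw [hw]
    show avg d (q b) (fun ν => |g b ν - t b ν|) ≤ avg d (q b) (fun ν => g b ν ^ 4) / τ ^ 3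
    rw [le_div_iff₀ (by positivity), mul_comm, ← avg_smul]
    refine avg_mono fun ν => ?_
    rw [ht]
    show τ ^ 3 * |g b ν - if |g b ν| ≤ τ then g b ν else 0| ≤ g b ν ^ 4
    split_ifs with h2
    · rw [sub_self, abs_zero, mul_zero]
      positivity
    · push Not at h2
      rw [sub_zero]
      have h3 : g b ν ^ 4 = |g b ν| ^ 3 * |g b ν| := by
        rw [← pow_succ, ← abs_pow, abs_of_nonneg (show (0 : ℝ) ≤ g b ν ^ 4 by positivity)]
      rw [h3]
      exact mul_le_mul_of_nonneg_right (pow_le_pow_left₀ hτ0.le h2.le 3) (abs_nonneg _)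
  have he2 : ∀ b, |e b| ≤ τ ∨ q b = 0 := by
    intro b
    rcases Nat.eq_zero_or_pos (q b) with h1 | h1
    · exact Or.inr h1
    · left
      rw [he]
      refine (avg_abs _).trans ?_
      have := avg_mono (d := d) (q := q b) (f := fun ν => |t b ν|) (g := fun _ => τ) (htb b)
      rwa [avg_const h1] at this
  have hsq : ∀ b ∈ I, avg d (q b) (fun ν => t b ν ^ 2) ≤ avg d (q b) (fun ν => g b ν ^ 2) ∧
      avg d (q b) (fun ν => g b ν ^ 2) - w b / τ ^ 2 ≤ avg d (q b) (fun ν => t b ν ^ 2) := by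
    intro b hb
    constructor
    · refine avg_mono fun ν => ?_
      rw [ht]
      show (if |g b ν| ≤ τ then g b ν else 0) ^ 2 ≤ g b ν ^ 2
      split_ifs
      · exact le_refl _
      · rw [zero_pow (by norm_num)]
        positivity
    · rw [sub_le_iff_le_add', ← sub_le_iff_le_add, ← avg_sub, hw]
      show avg d (q b) (fun ν => g b ν ^ 2 - t b ν ^ 2) ≤ avg d (q b) (fun ν => g b ν ^ 4) / τ ^ 2
      rw [le_div_iff₀ (by positivity), mul_comm, ← avg_smul]
      refine avg_mono fun ν => ?_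
      rw [ht]
      show τ ^ 2 * (g b ν ^ 2 - (if |g b ν| ≤ τ then g b ν else 0) ^ 2) ≤ g b ν ^ 4
      split_ifs with h2
      · rw [sub_self, mul_zero]
        positivity
      · push Not at h2
        rw [zero_pow (by norm_num), sub_zero]
        have h3 : τ ^ 2 ≤ g b ν ^ 2 := by
          rw [← sq_abs (g b ν)]
          exact pow_le_pow_left₀ hτ0.le h2.le 2
        calc τ ^ 2 * g b ν ^ 2 ≤ g b ν ^ 2 * g b ν ^ 2 := mul_le_mul_of_nonneg_right h3 (sq_nonneg _)
          _ = g b ν ^ 4 := by ring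
  obtain ⟨V', hV'⟩ : ∃ V' : ℝ, V' = ∑ a ∈ I, (avg d (q a) (fun ν => t a ν ^ 2) - e a ^ 2) := ⟨_, rfl⟩
  have hV'1 : V' ≤ V := by
    rw [hV', ← hsum]
    refine sum_le_sum fun a ha => ?_
    have := (hsq a ha).1
    linarith [sq_nonneg (e a)]
  have hWV : W / τ ^ 2 ≤ η / δ ^ 2 * V := by
    rw [hτ2, div_le_iff₀ (by positivity)]
    have : η / δ ^ 2 * V * (δ ^ 2 * V) = η * V ^ 2 := by
      field_simp
    rw [this]
    exact hfour
  have hV'2 : V - 2 * (W / τ ^ 2) ≤ V' := by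
    rw [hV', ← hsum, ← hwW, sum_div, mul_sum, ← sum_sub_distrib]
    refine sum_le_sum fun a ha => ?_
    have h1 := (hsq a ha).2
    have h2 : e a ^ 2 ≤ w a / τ ^ 2 := by
      rcases he2 a with h3 | h3
      · rw [← sq_abs, sq]
        calc |e a| * |e a| ≤ τ * (w a / τ ^ 3) := mul_le_mul h3 (he1 a ha) (abs_nonneg _) hτ0.le
          _ = w a / τ ^ 2 := by
              field_simp
      · exact absurd (hq a ha) (by omega)
    linarith
  have hηδ : η / δ ^ 2 ≤ κ / 8 := by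
    rw [div_le_iff₀ (by positivity)]
    have h1 : δ ^ 4 ≤ δ ^ 2 := pow_le_pow_of_le_one hδ0.le hδ1 (by norm_num)
    have h2 : κ * δ ^ 4 / 8 ≤ κ / 8 * δ ^ 2 := by
      rw [show κ * δ ^ 4 / 8 = κ / 8 * δ ^ 4 by ring]
      exact mul_le_mul_of_nonneg_left h1 (by positivity)
    linarith
  have hV'3 : (1 - κ / 4) * V ≤ V' := by
    have h1 : η / δ ^ 2 * V ≤ κ / 8 * V := mul_le_mul_of_nonneg_right hηδ hV.le
    have h2 : (1 - κ / 4) * V = V - 2 * (κ / 8 * V) := by ring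
    rw [h2]
    linarith
  have hV'0 : 0 < V' := (mul_pos (by linarith) hV).trans_le hV'3
  have hM : |∑ a ∈ I, e a| ≤ κ / 8 * s := by
    calc |∑ a ∈ I, e a| ≤ ∑ a ∈ I, |e a| := abs_sum_le_sum_abs _ _
      _ ≤ ∑ a ∈ I, w a / τ ^ 3 := sum_le_sum he1
      _ = W / τ ^ 3 := by rw [← sum_div, hwW]
      _ ≤ κ / 8 * s := by
          rw [div_le_iff₀ (by positivity)]
          have h1 : κ / 8 * s * τ ^ 3 = κ / 8 * δ ^ 3 * V ^ 2 := by
            rw [hτ, mul_pow, ← hs2]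
            ring
          rw [h1]
          refine hfour.trans ?_
          apply mul_le_mul_of_nonneg_right _ (by positivity)
          have h2 : δ ^ 4 ≤ δ ^ 3 := pow_le_pow_of_le_one hδ0.le hδ1 (by norm_num)
          refine hη1.trans ?_
          rw [show κ * δ ^ 4 / 8 = κ / 8 * δ ^ 4 by ring]
          exact mul_le_mul_of_nonneg_left h2 (by positivity)
  -- the normal law for the truncated functions
  have hvar : ∑ a ∈ I, (avg d (q a) (fun ν => f a ν ^ 2) - avg d (q a) (f a) ^ 2) = V' / τ ^ 2 := by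
    rw [hV', sum_div]
    refine sum_congr rfl fun a _ => ?_
    have h1 : avg d (q a) (f a) = τ⁻¹ * e a := by
      rw [hf, he]
      exact avg_smul _ _
    have h2 : avg d (q a) (fun ν => f a ν ^ 2) = τ⁻¹ ^ 2 * avg d (q a) (fun ν => t a ν ^ 2) := by
      rw [← avg_smul, hf]
      congr 1
      funext ν
      show (τ⁻¹ * t a ν) ^ 2 = τ⁻¹ ^ 2 * t a ν ^ 2
      rw [mul_pow]
    rw [h1, h2]
    field_simp
  have havgf : ∑ a ∈ I, avg d (q a) (f a) = τ⁻¹ * ∑ a ∈ I, e a := by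
    rw [mul_sum]
    refine sum_congr rfl fun a _ => ?_
    rw [hf, he]
    exact avg_smul _ _
  have hVV : V₀ ≤ V' / τ ^ 2 := by
    rw [le_div_iff₀ (by positivity), hτ2]
    have h1 : V₀ * (2 * δ ^ 2) * (V / 2) ≤ 1 * (V / 2) := mul_le_mul_of_nonneg_right hδ2 (by linarith)
    have h2 : V₀ * (2 * δ ^ 2) * (V / 2) = V₀ * (δ ^ 2 * V) := by ring
    have h3 : 1 / 2 * V ≤ (1 - κ / 4) * V := mul_le_mul_of_nonneg_right (by linarith) hV.le
    rw [h2] at h1
    linarith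
  obtain ⟨s', hs'⟩ : ∃ s' : ℝ, s' = Real.sqrt V' := ⟨_, rfl⟩
  have hs'0 : 0 < s' := by
    rw [hs']
    exact Real.sqrt_pos.2 hV'0
  have hs'2 : s' ^ 2 = V' := by
    rw [hs']
    exact Real.sq_sqrt hV'0.le
  have hsqrt : Real.sqrt (V' / τ ^ 2) = s' / τ := by
    rw [Real.sqrt_div' _ (by positivity), Real.sqrt_sq hτ0.le, hs']
  obtain ⟨y', hy'⟩ : ∃ y' : ℝ, y' = s / s' * y + -(∑ a ∈ I, e a) / s' := ⟨_, rfl⟩
  have h1 := h d I q f hq hco hfper (fun b _ => hfb b) (by rw [hvar]; exact hVV) Y hY hIY m L (fun i => by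
    refine le_trans ?_ (hL i)
    calc C₁ * (d + 1) * (Y : ℝ) ^ A ≤ (C₁ + 16 / ε + 1) * (d + 1) * (Y : ℝ) ^ A := by
          apply mul_le_mul_of_nonneg_right _ (by positivity)
          apply mul_le_mul_of_nonneg_right _ (by positivity)
          have : 0 ≤ 16 / ε := by positivity
          linarith
      _ ≤ (C₁ + 16 / ε + 1) * (d + 1) * (Y : ℝ) ^ (A + 2) := mul_le_mul_of_nonneg_left hYA (by positivity)) y'
  rw [hvar, havgf, hsqrt] at h1
  have hs's : (1 - κ / 4) * s ≤ s' := by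
    have h5 : ((1 - κ / 4) * s) ^ 2 ≤ s' ^ 2 := by
      rw [mul_pow, hs2, hs'2]
      refine le_trans ?_ hV'3
      apply mul_le_mul_of_nonneg_right _ hV.le
      exact num_sq κ hκ0 hκ1
    exact le_of_sq_le_sq h5 hs'0.le
  have hss : |s / s' - 1| ≤ κ := by
    have h2 : s' ≤ s := by
      rw [hs, hs']
      exact Real.sqrt_le_sqrt hV'1
    have h3 : 1 ≤ s / s' := by
      rw [one_le_div hs'0]
      exact h2
    rw [abs_of_nonneg (by linarith), sub_le_iff_le_add, div_le_iff₀ hs'0]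
    exact num_a κ s s' hκ0 hκ1 hs'0.le hs's
  have hbb : |-(∑ a ∈ I, e a) / s'| ≤ κ := by
    rw [abs_div, abs_neg, abs_of_pos hs'0, div_le_iff₀ hs'0]
    refine hM.trans ?_
    exact num_b κ s s' hκ0 hκ1 hs0.le hs's
  have h2 := hκ (s / s') (-(∑ a ∈ I, e a) / s') y hss hbb
  rw [← hy'] at h2
  -- comparison of the two events
  have hset : ∀ ν, (∑ a ∈ I, f a ν ≤ τ⁻¹ * ∑ a ∈ I, e a + y' * (s' / τ)) ↔ ∑ a ∈ I, t a ν ≤ y * s := by
    intro ν
    have h3 : ∑ a ∈ I, f a ν = τ⁻¹ * ∑ a ∈ I, t a ν := by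
      rw [hf, mul_sum]
    have h4 : τ⁻¹ * ∑ a ∈ I, e a + y' * (s' / τ) = τ⁻¹ * (y * s) := by
      rw [hy']
      field_simp
      ring
    rw [h3, h4]
    constructor
    · intro h5
      exact le_of_mul_le_mul_left h5 (by positivity)
    · intro h5
      exact mul_le_mul_of_nonneg_left h5 (by positivity)
  have h3 : ((zbox m L).filter fun ν => ∑ a ∈ I, f a ν ≤ τ⁻¹ * ∑ a ∈ I, e a + y' * (s' / τ)) =
      (zbox m L).filter fun ν => ∑ a ∈ I, t a ν ≤ y * s := by
    ext ν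
    simp only [mem_filter, hset ν]
  rw [h3] at h1
  -- the exceptional vectors
  have hL0 : ∀ i, (0 : ℝ) < L i := fun i => hT0.trans_le (hLT i)
  have hP0 : 0 < ∏ i, (L i : ℝ) := prod_pos fun i _ => hL0 i
  have hexc : ∑ a ∈ I, (((zbox m L).filter fun ν => τ < |g a ν|).card : ℝ) / ∏ i, (L i : ℝ) ≤ ε / 4 := by
    have h4 : ∀ a ∈ I, (((zbox m L).filter fun ν => τ < |g a ν|).card : ℝ) / ∏ i, (L i : ℝ) ≤ w a / τ ^ 4 + 2 * (d * Y / T) := by
      intro a ha
      have hqY : (q a : ℝ) ≤ Y := by exact_mod_cast hY a ha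
      have hYT : d * (Y : ℝ) ≤ T := by
        rw [hT]
        have h5 : (Y : ℝ) ≤ (Y : ℝ) ^ (A + 2) := by
          calc (Y : ℝ) = (Y : ℝ) ^ 1 := (pow_one _).symm
            _ ≤ (Y : ℝ) ^ (A + 2) := pow_le_pow_right₀ hY1' (by omega)
        have h6 : 1 ≤ C₁ + 16 / ε + 1 := by
          have : 0 ≤ 16 / ε := by positivity
          linarith
        calc d * (Y : ℝ) ≤ 1 * (d + 1) * (Y : ℝ) ^ (A + 2) := by
              rw [one_mul]
              exact mul_le_mul (by linarith) h5 (by positivity) (by positivity)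
          _ ≤ (C₁ + 16 / ε + 1) * (d + 1) * (Y : ℝ) ^ (A + 2) := by
              apply mul_le_mul_of_nonneg_right _ (by positivity)
              exact mul_le_mul_of_nonneg_right h6 (by positivity)
      have h5 := zbox_avg (hq a ha) m L T hT0 hLT ((mul_le_mul_of_nonneg_left hqY hd0).trans hYT) (fun ν => τ < |g a ν|) (fun ν ν' hνν => by
        show τ < |g a ν| ↔ τ < |g a ν'|
        rw [hper a ha ν ν' hνν])
      refine h5.trans ?_
      have h6 : avg d (q a) (fun ν => if τ < |g a ν| then 1 else 0) ≤ w a / τ ^ 4 := by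
        rw [le_div_iff₀ (by positivity), mul_comm, ← avg_smul, hw]
        refine avg_mono fun ν => ?_
        show τ ^ 4 * (if τ < |g a ν| then 1 else 0) ≤ g a ν ^ 4
        split_ifs with h7
        · rw [mul_one]
          have h8 : g a ν ^ 4 = |g a ν| ^ 4 := by
            rw [← abs_pow, abs_of_nonneg (show (0 : ℝ) ≤ g a ν ^ 4 by positivity)]
          rw [h8]
          exact pow_le_pow_left₀ hτ0.le h7.le 4
        · rw [mul_zero]
          positivity
      have h7 : 2 * (d * (q a : ℝ) / T) ≤ 2 * (d * Y / T) := by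
        apply mul_le_mul_of_nonneg_left _ (by norm_num)
        exact div_le_div_of_nonneg_right (mul_le_mul_of_nonneg_left hqY hd0) hT0.le
      linarith
    refine (sum_le_sum h4).trans ?_
    rw [sum_add_distrib, ← sum_div, hwW, sum_const, nsmul_eq_mul]
    have h5 : W / τ ^ 4 ≤ ε / 8 := by
      rw [div_le_iff₀ (by positivity)]
      have h6 : ε / 8 * τ ^ 4 = ε / 8 * δ ^ 4 * V ^ 2 := by
        rw [hτ, mul_pow, ← hs2]
        ring
      rw [h6]
      refine hfour.trans ?_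
      exact mul_le_mul_of_nonneg_right hη2 (by positivity)
    have h6 : (I.card : ℝ) * (2 * (d * Y / T)) ≤ ε / 8 := by
      have h7 : (I.card : ℝ) ≤ Y := by exact_mod_cast hIY
      calc (I.card : ℝ) * (2 * (d * Y / T)) ≤ Y * (2 * (d * Y / T)) := mul_le_mul_of_nonneg_right h7 (by positivity)
        _ = 2 * (d * (Y : ℝ) ^ 2) / T := by ring
        _ ≤ ε / 8 := by
            rw [div_le_iff₀ hT0]
            have h8 : ε / 8 * (16 / ε * (d * (Y : ℝ) ^ 2)) = 2 * (d * (Y : ℝ) ^ 2) := by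
              field_simp
              ring
            rw [← h8]
            exact mul_le_mul_of_nonneg_left hdT (by positivity)
    linarith
  have hdiff : |(((zbox m L).filter fun ν => ∑ a ∈ I, g a ν ≤ y * s).card : ℝ) -
      ((zbox m L).filter fun ν => ∑ a ∈ I, t a ν ≤ y * s).card| ≤ ∑ a ∈ I, (((zbox m L).filter fun ν => τ < |g a ν|).card : ℝ) := by
    have h4 : ∀ ν, ν ∉ (I.biUnion fun a => (zbox m L).filter fun ν => τ < |g a ν|) → ν ∈ zbox m L → ∑ a ∈ I, t a ν = ∑ a ∈ I, g a ν := by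
      intro ν h5 h6
      refine sum_congr rfl fun a ha => ?_
      have h7 : ¬ τ < |g a ν| := by
        intro h8
        apply h5
        rw [mem_biUnion]
        exact ⟨a, ha, mem_filter.2 ⟨h6, h8⟩⟩
      rw [ht]
      show (if |g a ν| ≤ τ then g a ν else 0) = g a ν
      rw [if_pos (not_lt.1 h7)]
    have h5 : ((I.biUnion fun a => (zbox m L).filter fun ν => τ < |g a ν|).card : ℝ) ≤
        ∑ a ∈ I, (((zbox m L).filter fun ν => τ < |g a ν|).card : ℝ) := by
      exact_mod_cast card_biUnion_le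
    refine le_trans ?_ h5
    have h6 : (zbox m L).filter (fun ν => ∑ a ∈ I, g a ν ≤ y * s) ⊆
        ((zbox m L).filter fun ν => ∑ a ∈ I, t a ν ≤ y * s) ∪ I.biUnion fun a => (zbox m L).filter fun ν => τ < |g a ν| := by
      intro ν hν
      rw [mem_filter] at hν
      rw [mem_union]
      by_cases h7 : ν ∈ I.biUnion fun a => (zbox m L).filter fun ν => τ < |g a ν|
      · exact Or.inr h7
      · left
        rw [mem_filter, h4 ν h7 hν.1]
        exact hν
    have h7 : (zbox m L).filter (fun ν => ∑ a ∈ I, t a ν ≤ y * s) ⊆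
        ((zbox m L).filter fun ν => ∑ a ∈ I, g a ν ≤ y * s) ∪ I.biUnion fun a => (zbox m L).filter fun ν => τ < |g a ν| := by
      intro ν hν
      rw [mem_filter] at hν
      rw [mem_union]
      by_cases h7 : ν ∈ I.biUnion fun a => (zbox m L).filter fun ν => τ < |g a ν|
      · exact Or.inr h7
      · left
        rw [mem_filter, ← h4 ν h7 hν.1]
        exact hν
    have h8 := (card_le_card h6).trans (card_union_le _ _)
    have h9 := (card_le_card h7).trans (card_union_le _ _)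
    have h8' : (((zbox m L).filter fun ν => ∑ a ∈ I, g a ν ≤ y * s).card : ℝ) ≤
        ((zbox m L).filter fun ν => ∑ a ∈ I, t a ν ≤ y * s).card + (I.biUnion fun a => (zbox m L).filter fun ν => τ < |g a ν|).card := by
      exact_mod_cast h8
    have h9' : (((zbox m L).filter fun ν => ∑ a ∈ I, t a ν ≤ y * s).card : ℝ) ≤
        ((zbox m L).filter fun ν => ∑ a ∈ I, g a ν ≤ y * s).card + (I.biUnion fun a => (zbox m L).filter fun ν => τ < |g a ν|).card := by
      exact_mod_cast h9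
    rw [abs_le]
    constructor <;> linarith
  rw [← hs]
  have hfin : |(((zbox m L).filter fun ν => ∑ a ∈ I, g a ν ≤ y * s).card : ℝ) / ∏ i, (L i : ℝ) -
      (((zbox m L).filter fun ν => ∑ a ∈ I, t a ν ≤ y * s).card : ℝ) / ∏ i, (L i : ℝ)| ≤ ε / 4 := by
    rw [← sub_div, abs_div, abs_of_pos hP0]
    refine le_trans (div_le_div_of_nonneg_right hdiff hP0.le) ?_
    rw [sum_div]
    exact hexc
  rw [abs_le] at hfin h1 h2 ⊢
  constructor <;> linarith [hfin.1, hfin.2, h1.1, h1.2, h2.1, h2.2]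

end Q282RH
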