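import Pool.Agent.Q282.RH.Law
import Mathlib.LinearAlgebra.Projectivization.Basic
import Mathlib.RingTheory.MvPolynomial.Homogeneous

/-!
# Linear systems of hypersurfaces through a closed subscheme of projective space separate points
-/

set_option autoImplicit false
set_option linter.unusedSectionVars false

namespace Q282RH

open Finset MvPolynomial
open scoped LinearAlgebra.Projectivization

/-- the points of projective space over the field with `p` elements -/
abbrev Pt (n p : ℕ) [Fact p.Prime] : Type := ℙ (ZMod p) (Fin (n + 1) → ZMod p)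

noncomputable instance (n p : ℕ) [Fact p.Prime] : DecidableEq (Pt n p) := Classical.decEq _

noncomputable instance (n p : ℕ) [Fact p.Prime] : Fintype (Pt n p) := Fintype.ofFinite _

/-- the value of a form with integer coefficients at (the chosen representative of) a point -/
noncomputable def val {n p : ℕ} [Fact p.Prime] (F : MvPolynomial (Fin (n + 1)) ℤ) (P : Pt n p) : ZMod p :=
  eval₂ (Int.castRingHom (ZMod p)) P.rep F

variable {n p : ℕ} [hp : Fact p.Prime]

lemma val_mul (F G : MvPolynomial (Fin (n + 1)) ℤ) (P : Pt n p) : val (F * G) P = val F P * val G P := eval₂_mul _ _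

lemma val_sum {κ : Type} (s : Finset κ) (F : κ → MvPolynomial (Fin (n + 1)) ℤ) (P : Pt n p) :
    val (∑ k ∈ s, F k) P = ∑ k ∈ s, val (F k) P := eval₂_sum _ _ _ _

lemma val_prod {κ : Type} (s : Finset κ) (F : κ → MvPolynomial (Fin (n + 1)) ℤ) (P : Pt n p) :
    val (∏ k ∈ s, F k) P = ∏ k ∈ s, val (F k) P := eval₂_prod _ _ _ _

lemma val_C (a : ℤ) (P : Pt n p) : val (C a) P = (a : ZMod p) := by
  unfold val
  rw [eval₂_C]
  rfl

lemma val_X (i : Fin (n + 1)) (P : Pt n p) : val (X i) P = P.rep i := by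
  unfold val
  rw [eval₂_X]

/-- two different points are separated by a linear form -/
lemma exists_linear (P Q : Pt n p) (h : P ≠ Q) : ∃ l : MvPolynomial (Fin (n + 1)) ℤ, l.IsHomogeneous 1 ∧ val l Q = 0 ∧ val l P ≠ 0 := by
  by_contra hcon
  push Not at hcon
  -- all the minors vanish
  have hmin : ∀ i j, P.rep i * Q.rep j = P.rep j * Q.rep i := by
    intro i j
    obtain ⟨a, ha⟩ := ZMod.intCast_surjective (Q.rep j)
    obtain ⟨b, hb⟩ := ZMod.intCast_surjective (Q.rep i)
    have h1 := hcon (C a * X i - C b * X j)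
      (((isHomogeneous_C_mul_X a i)).sub (isHomogeneous_C_mul_X b j)) (by
        unfold val
        rw [eval₂_sub, eval₂_mul, eval₂_mul, eval₂_C, eval₂_C, eval₂_X, eval₂_X]
        simp only [eq_intCast, ha, hb]
        ring)
    unfold val at h1
    rw [eval₂_sub, eval₂_mul, eval₂_mul, eval₂_C, eval₂_C, eval₂_X, eval₂_X] at h1
    simp only [eq_intCast, ha, hb] at h1
    have h2 := sub_eq_zero.1 h1
    calc P.rep i * Q.rep j = Q.rep j * P.rep i := mul_comm _ _
      _ = Q.rep i * P.rep j := h2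
      _ = _ := mul_comm _ _
  apply h
  obtain ⟨j, hj⟩ : ∃ j, Q.rep j ≠ 0 := by
    by_contra h0
    push Not at h0
    exact Q.rep_nonzero (funext h0)
  have hrep : P.rep = (P.rep j * (Q.rep j)⁻¹) • Q.rep := by
    funext i
    rw [Pi.smul_apply, smul_eq_mul, mul_assoc, mul_comm (Q.rep j)⁻¹, ← mul_assoc, ← hmin i j, mul_assoc, mul_inv_cancel₀ hj, mul_one]
  have hne : P.rep j * (Q.rep j)⁻¹ ≠ 0 := by
    intro h0
    rw [h0, zero_smul] at hrep
    exact P.rep_nonzero hrep
  rw [← P.mk_rep, ← Q.mk_rep, Projectivization.mk_eq_mk_iff']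
  exact ⟨_, hrep.symm⟩

/-- the forms `f k` have degree `d`, belong to the radical of the ideal generated by the `h j`, and every form of degree
`d` with integer coefficients in the ideal generated by the `h j` is an integer combination of them -/
structure Through {J ι : Type} [Fintype ι] (h : J → MvPolynomial (Fin (n + 1)) ℤ) (d : ℕ)
    (f : ι → MvPolynomial (Fin (n + 1)) ℤ) : Prop where
  hom : ∀ k, (f k).IsHomogeneous d
  mem : ∀ k, f k ∈ (Ideal.span (Set.range h)).radical
  gen : ∀ F : MvPolynomial (Fin (n + 1)) ℤ, F.IsHomogeneous d → F ∈ Ideal.span (Set.range h) → ∃ a : ι → ℤ, F = ∑ k, C (a k) * f k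

/-- the member `∑ ν_k f_k` of the linear system -/
noncomputable def member {ι : Type} [Fintype ι] (f : ι → MvPolynomial (Fin (n + 1)) ℤ) (ν : ι → ℤ) : MvPolynomial (Fin (n + 1)) ℤ :=
  ∑ k, C (ν k) * f k

lemma val_member {ι : Type} [Fintype ι] (f : ι → MvPolynomial (Fin (n + 1)) ℤ) (ν : ι → ℤ) (P : Pt n p) :
    val (member f ν) P = ev (fun _ => 0) (fun k Q => val (f k) Q) (fun k => (ν k : ZMod p)) P := by
  unfold member ev
  rw [val_sum, zero_add]
  refine sum_congr rfl fun k _ => ?_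
  rw [val_mul, val_C]

/-- **Separation of points.** -/
theorem sep_through {J ι : Type} [Fintype ι] {h : J → MvPolynomial (Fin (n + 1)) ℤ} {e : J → ℕ} {d : ℕ}
    {f : ι → MvPolynomial (Fin (n + 1)) ℤ} (hh : ∀ j, (h j).IsHomogeneous (e j)) (hd : ∀ j, e j + 3 ≤ d)
    (hf : Through h d f) (T : Finset (Pt n p)) (hT : ∀ P ∈ T, ∃ j, val (h j) P ≠ 0) :
    Sep (fun k (P : Pt n p) => val (f k) P) T := by
  classical
  intro P hP S _ hPS hS
  obtain ⟨j, hj⟩ := hT P hP
  have hl : ∀ Q ∈ S, ∃ l : MvPolynomial (Fin (n + 1)) ℤ, l.IsHomogeneous 1 ∧ val l Q = 0 ∧ val l P ≠ 0 := by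
    intro Q hQ
    refine exists_linear P Q ?_
    rintro rfl
    exact hPS hQ
  choose! l hl1 hl2 hl3 using hl
  obtain ⟨i, hi⟩ : ∃ i, P.rep i ≠ 0 := by
    by_contra h0
    push Not at h0
    exact P.rep_nonzero (funext h0)
  have hcard : e j + S.card + (d - e j - S.card) = d := by
    have := hd j
    omega
  obtain ⟨a, ha⟩ := hf.gen (h j * (∏ Q ∈ S, l Q) * X i ^ (d - e j - S.card)) (by
    have h1 : (∏ Q ∈ S, l Q).IsHomogeneous S.card := by
      have := IsHomogeneous.prod S l (fun _ => 1) (fun Q hQ => hl1 Q hQ)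
      rw [sum_const, smul_eq_mul, mul_one] at this
      exact this
    have h2 : ((X i : MvPolynomial (Fin (n + 1)) ℤ) ^ (d - e j - S.card)).IsHomogeneous (d - e j - S.card) := by
      have := (isHomogeneous_X ℤ i).pow (d - e j - S.card)
      rw [one_mul] at this
      exact this
    have := ((hh j).mul h1).mul h2
    rw [hcard] at this
    exact this) (by
    rw [mul_assoc]
    exact Ideal.mul_mem_right _ _ (Ideal.subset_span ⟨j, rfl⟩))
  have hval : ∀ Q : Pt n p, ∑ k, (a k : ZMod p) * val (f k) Q = val (h j) Q * (∏ Q' ∈ S, val (l Q') Q) * Q.rep i ^ (d - e j - S.card) := by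
    intro Q
    have h1 : val (h j * (∏ Q' ∈ S, l Q') * X i ^ (d - e j - S.card)) Q = ∑ k, (a k : ZMod p) * val (f k) Q := by
      rw [ha, val_sum]
      refine sum_congr rfl fun k _ => ?_
      rw [val_mul, val_C]
    rw [← h1, val_mul, val_mul, val_prod]
    congr 1
    unfold val
    rw [eval₂_pow, eval₂_X]
  obtain ⟨u, hu⟩ : ∃ u : ZMod p, u = val (h j) P * (∏ Q' ∈ S, val (l Q') P) * P.rep i ^ (d - e j - S.card) := ⟨_, rfl⟩
  have hu0 : u ≠ 0 := by
    rw [hu]
    exact mul_ne_zero (mul_ne_zero hj (prod_ne_zero_iff.2 fun Q hQ => hl3 Q hQ)) (pow_ne_zero _ hi)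
  refine ⟨fun k => u⁻¹ * a k, ?_, ?_⟩
  · have h1 : ∑ k, u⁻¹ * (a k : ZMod p) * val (f k) P = u⁻¹ * ∑ k, (a k : ZMod p) * val (f k) P := by
      rw [mul_sum]
      exact sum_congr rfl fun k _ => by ring
    rw [h1, hval, ← hu, inv_mul_cancel₀ hu0]
  · intro Q hQ
    have h1 : ∑ k, u⁻¹ * (a k : ZMod p) * val (f k) Q = u⁻¹ * ∑ k, (a k : ZMod p) * val (f k) Q := by
      rw [mul_sum]
      exact sum_congr rfl fun k _ => by ring
    have h2 : ∏ Q' ∈ S, val (l Q') Q = 0 := prod_eq_zero hQ (hl2 Q hQ)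
    rw [h1, hval, h2, mul_zero, zero_mul, mul_zero]

end Q282RH
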