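import Pool.Agent.Q282.RH.Sep

/-!
# The normal law for sums over primes of statistics of the reductions of random integer vectors
-/

set_option autoImplicit false
set_option linter.unusedSectionVars false

namespace Q282RH

open Finset

lemma ex_fin {ι : Type} [Fintype ι] [DecidableEq ι] {p : ℕ} [hp : Fact p.Prime] {d : ℕ} (e : ι ≃ Fin d)
    (F : (ι → ZMod p) → ℝ) :
    Q282LT.avg d p (fun ν => F (fun i => (ν (e i) : ZMod p))) = ex F := by
  rw [← ex_equiv e F, ← avg_eq_ex]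

/-- **The normal law.** -/
theorem law (ε : ℝ) (hε : 0 < ε) : ∃ (η C₀ : ℝ) (A : ℕ), 0 < η ∧ 0 < C₀ ∧
    ∀ (ι : Type) [Fintype ι] [DecidableEq ι] (I : Finset ℕ), (∀ p ∈ I, p.Prime) →
      ∀ (G : (p : ℕ) → (ι → ZMod p) → ℝ) (v w : ℕ → ℝ),
      (∀ p ∈ I, ∀ _ : Fact p.Prime, ex (G p) = 0 ∧ ex (fun a => G p a ^ 2) = v p ∧ ex (fun a => G p a ^ 4) ≤ w p) →
      0 < ∑ p ∈ I, v p → ∑ p ∈ I, w p ≤ η * (∑ p ∈ I, v p) ^ 2 →
      ∀ Y : ℕ, (∀ p ∈ I, p ≤ Y) → ∀ (m : ι → ℤ) (L : ι → ℕ), (∀ i, C₀ * (Fintype.card ι + 1) * (Y : ℝ) ^ A ≤ L i) →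
      ∀ y : ℝ, |(((tbox m L).filter fun ν => ∑ p ∈ I, G p (fun i => (ν i : ZMod p)) ≤ y * Real.sqrt (∑ p ∈ I, v p)).card : ℝ) /
        ∏ i, (L i : ℝ) - Q282MM.Phi y| ≤ ε := by
  classical
  obtain ⟨η, C₀, A, hη, hC₀, h⟩ := gauss_u ε hε
  refine ⟨η, C₀, A, hη, hC₀, ?_⟩
  intro ι _ _ I hI G v w hG hV hw Y hY m L hL y
  obtain ⟨e⟩ : Nonempty (ι ≃ Fin (Fintype.card ι)) := ⟨Fintype.equivFin ι⟩
  have hcard : I.card ≤ Y := by
    have h1 : I ⊆ Finset.Icc 1 Y := by
      intro p hp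
      rw [Finset.mem_Icc]
      exact ⟨(hI p hp).one_lt.le, hY p hp⟩
    have h2 := card_le_card h1
    rw [Nat.card_Icc] at h2
    omega
  have key := h (Fintype.card ι) I (fun p => p) (fun p ν => G p (fun i => (ν (e i) : ZMod p)))
    (fun p hp => (hI p hp).one_lt.le)
    (fun p hp q hq hpq => (Nat.coprime_primes (hI p hp) (hI q hq)).2 hpq)
    (fun p hp => by
      have : Fact p.Prime := ⟨hI p hp⟩
      exact zper_mod (fun b : Fin (Fintype.card ι) → ZMod p => G p (fun i => b (e i))))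
    (fun p hp => by
      have : Fact p.Prime := ⟨hI p hp⟩
      have := ex_fin (p := p) e (G p)
      rw [(hG p hp inferInstance).1] at this
      exact this)
    (∑ p ∈ I, v p) hV
    (sum_congr rfl fun p hp => by
      have : Fact p.Prime := ⟨hI p hp⟩
      have := ex_fin (p := p) e (fun a => G p a ^ 2)
      rw [(hG p hp inferInstance).2.1] at this
      exact this)
    (by
      refine le_trans (sum_le_sum fun p hp => ?_) hw
      have : Fact p.Prime := ⟨hI p hp⟩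
      have := ex_fin (p := p) e (fun a => G p a ^ 4)
      rw [this]
      exact (hG p hp inferInstance).2.2)
    Y hY hcard (fun k => m (e.symm k)) (fun k => L (e.symm k)) (fun k => hL _) y
  rw [tbox_equiv e m L]
  have h3 : ∏ k : Fin (Fintype.card ι), (L (e.symm k) : ℝ) = ∏ i, (L i : ℝ) := Equiv.prod_comp e.symm (fun i => (L i : ℝ))
  rw [h3] at key
  exact key

end Q282RH
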