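import Mathlib

/-!
# The maximal inequality of Rademacher and Menshov
-/

set_option autoImplicit false
set_option linter.unusedSectionVars false

namespace Q282RH

open Finset

/-- the sum of the squares of all the dyadic sums -/
noncomputable def dyad (x : ℕ → ℝ) : ℕ → ℕ → ℝ
  | 0, a => x a ^ 2
  | j + 1, a => dyad x j a + dyad x j (a + 2 ^ j) + (∑ u ∈ range (2 ^ (j + 1)), x (a + u)) ^ 2

lemma dyad_ge (x : ℕ → ℝ) (j a : ℕ) : 0 ≤ dyad x j a ∧ (∑ u ∈ range (2 ^ j), x (a + u)) ^ 2 ≤ dyad x j a := by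
  induction j generalizing a with
  | zero =>
    unfold dyad
    simp only [pow_zero, sum_range_one, add_zero]
    exact ⟨sq_nonneg _, le_refl _⟩
  | succ j ih =>
    unfold dyad
    have h1 := (ih a).1
    have h2 := (ih (a + 2 ^ j)).1
    have h3 := sq_nonneg (∑ u ∈ range (2 ^ (j + 1)), x (a + u))
    exact ⟨by linarith, by linarith⟩

/-- every initial sum is controlled by the dyadic sums -/
lemma initial_le (x : ℕ → ℝ) (j : ℕ) : ∀ a k : ℕ, k ≤ 2 ^ j → (∑ u ∈ range k, x (a + u)) ^ 2 ≤ (j + 1) * dyad x j a := by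
  induction j with
  | zero =>
    intro a k hk
    have hk' : k = 0 ∨ k = 1 := by
      rw [pow_zero] at hk
      omega
    unfold dyad
    rcases hk' with rfl | rfl
    · simp only [range_zero, sum_empty]
      have := sq_nonneg (x a)
      push_cast
      nlinarith
    · simp only [sum_range_one, add_zero]
      push_cast
      linarith
  | succ j ih =>
    intro a k hk
    have hD0 := (dyad_ge x j a).1
    have hD1 := (dyad_ge x j (a + 2 ^ j)).1
    have hj : (0 : ℝ) ≤ j := Nat.cast_nonneg j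
    have hD : dyad x j a + dyad x j (a + 2 ^ j) ≤ dyad x (j + 1) a := by
      have h0 : dyad x (j + 1) a = dyad x j a + dyad x j (a + 2 ^ j) + (∑ u ∈ range (2 ^ (j + 1)), x (a + u)) ^ 2 := rfl
      rw [h0]
      linarith [sq_nonneg (∑ u ∈ range (2 ^ (j + 1)), x (a + u))]
    push_cast
    rcases le_or_gt k (2 ^ j) with h | h
    · have h1 := ih a k h
      have h2 : ((j : ℝ) + 1) * dyad x j a ≤ ((j : ℝ) + 1 + 1) * dyad x (j + 1) a := by
        have h3 : dyad x j a ≤ dyad x (j + 1) a := by linarith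
        have h4 : 0 ≤ dyad x (j + 1) a := by linarith
        nlinarith
      linarith
    · obtain ⟨k', rfl⟩ := Nat.exists_eq_add_of_lt h
      have hk' : k' + 1 ≤ 2 ^ j := by
        rw [pow_succ] at hk
        omega
      have h1 : ∑ u ∈ range (2 ^ j + k' + 1), x (a + u) = ∑ u ∈ range (2 ^ j), x (a + u) + ∑ u ∈ range (k' + 1), x (a + 2 ^ j + u) := by
        rw [add_assoc, sum_range_add]
        congr 1
        exact sum_congr rfl fun u _ => by rw [add_assoc]
      rw [h1]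
      obtain ⟨s, hs⟩ : ∃ s, s = ∑ u ∈ range (2 ^ j), x (a + u) := ⟨_, rfl⟩
      obtain ⟨t, ht⟩ : ∃ t, t = ∑ u ∈ range (k' + 1), x (a + 2 ^ j + u) := ⟨_, rfl⟩
      have h2 := (dyad_ge x j a).2
      have h3 := ih (a + 2 ^ j) (k' + 1) hk'
      rw [← hs] at h2 ⊢
      rw [← ht] at h3 ⊢
      have h4 : t ^ 2 / (j + 1) ≤ dyad x j (a + 2 ^ j) := by
        rw [div_le_iff₀ (by positivity)]
        linarith
      have h5 : (s + t) ^ 2 ≤ ((j : ℝ) + 1 + 1) * (s ^ 2 + t ^ 2 / (j + 1)) := by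
        have h6 : ((j : ℝ) + 1 + 1) * (s ^ 2 + t ^ 2 / (j + 1)) - (s + t) ^ 2 = ((j + 1) * s - t) ^ 2 / (j + 1) := by
          field_simp
          ring
        have h7 : 0 ≤ (((j : ℝ) + 1) * s - t) ^ 2 / (j + 1) := by positivity
        linarith
      refine h5.trans (mul_le_mul_of_nonneg_left ?_ (by positivity))
      linarith

/-- the mean square of the maximum -/
lemma dyad_mean {α : Type} (Ω : Finset α) (x : ℕ → α → ℝ) (v : ℕ → ℝ) (B : ℝ)
    (h : ∀ a k : ℕ, ∑ ν ∈ Ω, (∑ u ∈ range k, x (a + u) ν) ^ 2 ≤ B * ∑ u ∈ range k, v (a + u)) (j : ℕ) :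
    ∀ a : ℕ, ∑ ν ∈ Ω, dyad (fun u => x u ν) j a ≤ (j + 1) * (B * ∑ u ∈ range (2 ^ j), v (a + u)) := by
  induction j with
  | zero =>
    intro a
    have h1 := h a 1
    simp only [sum_range_one, add_zero] at h1
    simp only [dyad, pow_zero, sum_range_one, add_zero]
    push_cast
    linarith
  | succ j ih =>
    intro a
    simp only [dyad]
    rw [sum_add_distrib, sum_add_distrib]
    have h1 := ih a
    have h2 := ih (a + 2 ^ j)
    have h3 := h a (2 ^ (j + 1))
    have h4 : ∑ u ∈ range (2 ^ (j + 1)), v (a + u) = ∑ u ∈ range (2 ^ j), v (a + u) + ∑ u ∈ range (2 ^ j), v (a + 2 ^ j + u) := by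
      rw [pow_succ, mul_two, sum_range_add]
      congr 1
      exact sum_congr rfl fun u _ => by rw [add_assoc]
    rw [h4] at h3 ⊢
    push_cast
    nlinarith

/-- **Control at all scales.** -/
theorem all_scales {α : Type} (Ω : Finset α) (x : ℕ → α → ℝ) (v : ℕ → ℝ) (B : ℝ)
    (h : ∀ a k : ℕ, ∑ ν ∈ Ω, (∑ u ∈ range k, x (a + u) ν) ^ 2 ≤ B * ∑ u ∈ range k, v (a + u)) (a : ℕ → ℕ) (t : ℕ → ℝ) (ht : ∀ j, 0 < t j) (J : ℕ)
    (P : α → Prop) [DecidablePred P] (hP : ∀ ν ∈ Ω, P ν → ∃ j ≤ J, ∃ k ≤ 2 ^ j, t j < |∑ u ∈ range k, x (a j + u) ν|) :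
    ((Ω.filter P).card : ℝ) ≤ ∑ j ∈ range (J + 1), ((j : ℝ) + 1) ^ 2 * (B * ∑ u ∈ range (2 ^ j), v (a j + u)) / t j ^ 2 := by
  have h1 : ((Ω.filter P).card : ℝ) ≤ ∑ ν ∈ Ω, ∑ j ∈ range (J + 1), ((j : ℝ) + 1) * dyad (fun u => x u ν) j (a j) / t j ^ 2 := by
    rw [card_filter]
    push_cast
    refine sum_le_sum fun ν hν => ?_
    have hnn : ∀ j ∈ range (J + 1), 0 ≤ ((j : ℝ) + 1) * dyad (fun u => x u ν) j (a j) / t j ^ 2 := by
      intro j _
      have := (dyad_ge (fun u => x u ν) j (a j)).1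
      positivity
    split_ifs with hc
    · obtain ⟨j, hj, k, hk, hlt⟩ := hP ν hν hc
      refine le_trans ?_ (single_le_sum hnn (mem_range.2 (Nat.lt_succ_of_le hj)))
      rw [le_div_iff₀ (pow_pos (ht j) 2), one_mul]
      have h2 := initial_le (fun u => x u ν) j (a j) k hk
      have h3 : t j ^ 2 ≤ (∑ u ∈ range k, x (a j + u) ν) ^ 2 := by
        rw [← sq_abs (∑ u ∈ range k, x (a j + u) ν)]
        exact pow_le_pow_left₀ (ht j).le hlt.le 2
      linarith
    · exact sum_nonneg hnn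
  refine h1.trans ?_
  rw [sum_comm]
  refine sum_le_sum fun j _ => ?_
  rw [← sum_div, ← mul_sum]
  refine div_le_div_of_nonneg_right ?_ (by positivity)
  have h2 := dyad_mean Ω x v B h j (a j)
  calc ((j : ℝ) + 1) * ∑ ν ∈ Ω, dyad (fun u => x u ν) j (a j) ≤ ((j : ℝ) + 1) * (((j : ℝ) + 1) * (B * ∑ u ∈ range (2 ^ j), v (a j + u))) :=
        mul_le_mul_of_nonneg_left h2 (by positivity)
    _ = _ := by ring

end Q282RH
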