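import Pool.Agent.Q282.RH.Second
import Pool.Agent.Q282.RH.Maxi

/-!
# Second moments of sums over primes over boxes of integer vectors with any set of indices
-/

set_option autoImplicit false
set_option linter.unusedSectionVars false

namespace Q282RH

open Finset

lemma sum_tbox {ι : Type} [Fintype ι] [DecidableEq ι] {d : ℕ} (e : ι ≃ Fin d) (m : ι → ℤ) (L : ι → ℕ) (F : (ι → ℤ) → ℝ) :
    ∑ ν ∈ tbox m L, F ν = ∑ ν ∈ Q282LT.zbox (fun k => m (e.symm k)) (fun k => L (e.symm k)), F (fun i => ν (e i)) := by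
  refine sum_nbij' (i := fun ν k => ν (e.symm k)) (j := fun ν i => ν (e i)) ?_ ?_ ?_ ?_ ?_
  · intro ν hν
    unfold tbox at hν
    rw [Fintype.mem_piFinset] at hν
    rw [Q282LT.mem_zbox]
    intro k
    have := hν (e.symm k)
    rw [mem_Ico] at this
    exact this
  · intro ν hν
    rw [Q282LT.mem_zbox] at hν
    unfold tbox
    rw [Fintype.mem_piFinset]
    intro i
    have := hν (e i)
    rw [Equiv.symm_apply_apply] at this
    rw [mem_Ico]
    exact this
  · intro ν _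
    funext i
    simp
  · intro ν _
    funext k
    simp
  · intro ν _
    congr 1
    funext i
    simp

/-- **The second moment over a box** -/
theorem second_box {ι : Type} [Fintype ι] [DecidableEq ι] (I : Finset ℕ) (hI : ∀ p ∈ I, p.Prime)
    (G : (p : ℕ) → (ι → ZMod p) → ℝ) (v : ℕ → ℝ)
    (hG : ∀ p ∈ I, ∀ _ : Fact p.Prime, ex (G p) = 0 ∧ ex (fun a => G p a ^ 2) ≤ v p)
    (Y : ℕ) (hY : ∀ p ∈ I, p ≤ Y) (m : ι → ℤ) (L : ι → ℕ)
    (hL : ∀ i, 4 * (Fintype.card ι + 1) * (Y : ℝ) ^ 2 * (Y + 1) ≤ L i) :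
    ∑ ν ∈ tbox m L, (∑ p ∈ I, G p (fun i => (ν i : ZMod p))) ^ 2 ≤ 2 * (∏ i, (L i : ℝ)) * ∑ p ∈ I, v p := by
  classical
  obtain ⟨e⟩ : Nonempty (ι ≃ Fin (Fintype.card ι)) := ⟨Fintype.equivFin ι⟩
  have hcard : (I.card : ℝ) ≤ Y := by
    have h1 : I ⊆ Finset.Icc 1 Y := by
      intro p hp
      rw [Finset.mem_Icc]
      exact ⟨(hI p hp).one_lt.le, hY p hp⟩
    have h2 := card_le_card h1
    rw [Nat.card_Icc] at h2
    exact_mod_cast (by omega : I.card ≤ Y)
  have key := second_z (d := Fintype.card ι) I (fun p => p) (fun p ν => G p (fun i => (ν (e i) : ZMod p)))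
    (fun p hp => (hI p hp).one_lt.le)
    (fun p hp q hq hpq => (Nat.coprime_primes (hI p hp) (hI q hq)).2 hpq)
    (fun p hp => by
      have : Fact p.Prime := ⟨hI p hp⟩
      exact zper_mod (fun b : Fin (Fintype.card ι) → ZMod p => G p (fun i => b (e i))))
    (fun p hp => by
      have : Fact p.Prime := ⟨hI p hp⟩
      have := ex_fin (p := p) e (G p)
      rw [(hG p hp inferInstance).1] at this
      exact this) v
    (fun p hp => by
      have : Fact p.Prime := ⟨hI p hp⟩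
      have := ex_fin (p := p) e (fun a => G p a ^ 2)
      rw [this]
      exact (hG p hp inferInstance).2)
    Y hY (fun k => m (e.symm k)) (fun k => L (e.symm k)) (fun k => by
      refine le_trans ?_ (hL (e.symm k))
      have h1 : 0 ≤ 4 * ((Fintype.card ι : ℝ) + 1) * (Y : ℝ) ^ 2 := by positivity
      exact mul_le_mul_of_nonneg_left (by linarith) h1)
  rw [sum_tbox e m L]
  have h3 : ∏ k : Fin (Fintype.card ι), (L (e.symm k) : ℝ) = ∏ i, (L i : ℝ) := Equiv.prod_comp e.symm (fun i => (L i : ℝ))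
  rw [h3] at key
  exact key

/-- **The deviations at all scales.** For sums over the primes up to `T'`, for all `T' ≤ T` at once. -/
theorem all_scales_box {ι : Type} [Fintype ι] [DecidableEq ι] (T : ℕ) (G : (p : ℕ) → (ι → ZMod p) → ℝ) (v : ℕ → ℝ) (hv : ∀ p, 0 ≤ v p)
    (hG : ∀ p, p.Prime → p ≤ T → ∀ _ : Fact p.Prime, ex (G p) = 0 ∧ ex (fun a => G p a ^ 2) ≤ v p)
    (m : ι → ℤ) (L : ι → ℕ) (hL : ∀ i, 4 * (Fintype.card ι + 1) * (T : ℝ) ^ 2 * (T + 1) ≤ L i) (s : ℕ → ℕ) (t : ℕ → ℝ) (ht : ∀ j, 0 < t j) (J : ℕ)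
    (P : (ι → ℤ) → Prop) [DecidablePred P]
    (hP : ∀ ν ∈ tbox m L, P ν → ∃ j ≤ J, ∃ k ≤ 2 ^ j,
      t j < |∑ p ∈ (Ico (s j) (s j + k)).filter (fun p => p.Prime ∧ p ≤ T), G p (fun i => (ν i : ZMod p))|) :
    (((tbox m L).filter P).card : ℝ) ≤ (∏ i, (L i : ℝ)) *
      ∑ j ∈ range (J + 1), 2 * ((j : ℝ) + 1) ^ 2 * (∑ p ∈ (Ico (s j) (s j + 2 ^ j)).filter Nat.Prime, v p) / t j ^ 2 := by
  classical
  have hsec : ∀ a k : ℕ, ∑ ν ∈ tbox m L, (∑ u ∈ range k, (fun (u : ℕ) (ν : ι → ℤ) => if u.Prime ∧ u ≤ T then G u (fun i => (ν i : ZMod u)) else 0) (a + u) ν) ^ 2 ≤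
      (2 * ∏ i, (L i : ℝ)) * ∑ u ∈ range k, (if (a + u).Prime then v (a + u) else 0) := by
    intro a k
    obtain ⟨I, hI⟩ : ∃ I : Finset ℕ, I = (Ico a (a + k)).filter (fun p => p.Prime ∧ p ≤ T) := ⟨_, rfl⟩
    have h1 : ∀ ν : ι → ℤ, ∑ u ∈ range k, (fun (u : ℕ) (ν : ι → ℤ) => if u.Prime ∧ u ≤ T then G u (fun i => (ν i : ZMod u)) else 0) (a + u) ν =
        ∑ p ∈ I, G p (fun i => (ν i : ZMod p)) := by
      intro ν
      rw [hI, sum_filter, sum_Ico_eq_sum_range, add_tsub_cancel_left]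
    simp only [h1]
    refine (second_box I (fun p hp => ?_) G v (fun p hp => ?_) T (fun p hp => ?_) m L hL).trans ?_
    · rw [hI, mem_filter] at hp
      exact hp.2.1
    · rw [hI, mem_filter] at hp
      exact hG p hp.2.1 hp.2.2
    · rw [hI, mem_filter] at hp
      exact hp.2.2
    · refine mul_le_mul_of_nonneg_left ?_ (by positivity)
      rw [hI, sum_filter, sum_Ico_eq_sum_range, add_tsub_cancel_left]
      refine sum_le_sum fun u _ => ?_
      split_ifs with h2 h3 h3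
      · exact le_refl _
      · exact absurd h2.1 h3
      · exact hv _
      · exact le_refl _
  have key := all_scales (tbox m L) (fun (u : ℕ) (ν : ι → ℤ) => if u.Prime ∧ u ≤ T then G u (fun i => (ν i : ZMod u)) else 0)
    (fun u => if u.Prime then v u else 0) (2 * ∏ i, (L i : ℝ)) hsec s t ht J P (by
      intro ν hν hPν
      obtain ⟨j, hj, k, hk, hlt⟩ := hP ν hν hPν
      refine ⟨j, hj, k, hk, ?_⟩
      rw [sum_filter, sum_Ico_eq_sum_range, add_tsub_cancel_left] at hlt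
      exact hlt)
  refine key.trans (le_of_eq ?_)
  rw [mul_sum]
  refine sum_congr rfl fun j _ => ?_
  rw [sum_filter, sum_Ico_eq_sum_range, add_tsub_cancel_left]
  ring

end Q282RH
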