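import Pool.Agent.Q282.RH.Contain
import Pool.Agent.Q282.RH.SecBox
import Pool.Agent.Q282.RH.Ana

/-!
# The normal law with given centres and a given variance
-/

set_option autoImplicit false
set_option linter.unusedSectionVars false

namespace Q282RH

open Finset MvPolynomial
open Q282MM (Phi)

lemma sqrt_ratio (κ S V : ℝ) (hκ0 : 0 < κ) (hκ1 : κ ≤ 1 / 2) (hS : 0 < S) (h : |V - S| ≤ κ * S) :
    0 < V ∧ |Real.sqrt S / Real.sqrt V - 1| ≤ 2 * κ := by
  rw [abs_le] at h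
  have hV : 0 < V := by nlinarith [h.1]
  refine ⟨hV, ?_⟩
  have hs := Real.sqrt_pos.2 hV
  have hs' := Real.sqrt_pos.2 hS
  have h1 : Real.sqrt S / Real.sqrt V - 1 = (Real.sqrt S - Real.sqrt V) / Real.sqrt V := by
    field_simp
  have e1 : Real.sqrt S * Real.sqrt S = S := Real.mul_self_sqrt hS.le
  have e2 : Real.sqrt V * Real.sqrt V = V := Real.mul_self_sqrt hV.le
  have h2 : |Real.sqrt S - Real.sqrt V| * (Real.sqrt S + Real.sqrt V) ≤ κ * S := by
    have h3 : (Real.sqrt S - Real.sqrt V) * (Real.sqrt S + Real.sqrt V) = S - V := by nlinarith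
    have h4 : |Real.sqrt S - Real.sqrt V| * (Real.sqrt S + Real.sqrt V) = |S - V| := by
      rw [← h3, abs_mul, abs_of_pos (by positivity : 0 < Real.sqrt S + Real.sqrt V)]
    rw [h4, abs_sub_comm, abs_le]
    exact h
  -- `S ≤ 2 V`
  have h5 : S ≤ 2 * V := by nlinarith [h.1]
  rw [h1, abs_div, abs_of_pos hs, div_le_iff₀ hs]
  by_contra hcon
  push Not at hcon
  have h6 : 2 * κ * Real.sqrt V * (Real.sqrt S + Real.sqrt V) < κ * S :=
    lt_of_lt_of_le (mul_lt_mul_of_pos_right hcon (by positivity)) h2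
  have h7 : κ * S ≤ κ * (2 * V) := mul_le_mul_of_nonneg_left h5 hκ0.le
  have h8 : 2 * κ * Real.sqrt V * (Real.sqrt S + Real.sqrt V) = 2 * κ * (Real.sqrt V * Real.sqrt S) + 2 * κ * V := by
    calc 2 * κ * Real.sqrt V * (Real.sqrt S + Real.sqrt V) = 2 * κ * (Real.sqrt V * Real.sqrt S) + 2 * κ * (Real.sqrt V * Real.sqrt V) := by ring
      _ = _ := by rw [e2]
  have h9 : 0 < 2 * κ * (Real.sqrt V * Real.sqrt S) := by positivity
  linarith

/-- **The normal law, with given centres and variance.** -/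
theorem main_law (ε : ℝ) (hε : 0 < ε) : ∃ (κ C₀ : ℝ) (A : ℕ), 0 < κ ∧ κ ≤ 1 / 4 ∧ 0 < C₀ ∧
    ∀ (n : ℕ) (E : Set (MvPolynomial (Fin (n + 1)) ℤ)) (J ι : Type) [Fintype ι] [DecidableEq ι]
      (h : J → MvPolynomial (Fin (n + 1)) ℤ) (f : ι → MvPolynomial (Fin (n + 1)) ℤ) (e : J → ℕ) (d : ℕ),
      (∀ j, (h j).IsHomogeneous (e j)) → (∀ j, e j + 3 ≤ d) → Through h d f →
      ∀ (I : Finset ℕ), (∀ p ∈ I, p.Prime) → ∀ (w c : ℕ → ℝ) (S : ℝ), 0 < S →
      |∑ p ∈ I, w p ^ 2 * spread E h p - S| ≤ κ * S → |∑ p ∈ I, w p * (expected E h p - c p)| ≤ κ * Real.sqrt S →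
      ∑ p ∈ I, w p ^ 4 * (((points n E p : ℝ) - points n (E ∪ Set.range h) p) / p +
        3 * (((points n E p : ℝ) - points n (E ∪ Set.range h) p) / p) ^ 2) ≤ κ * S ^ 2 →
      ∀ Y : ℕ, (∀ p ∈ I, p ≤ Y) → ∀ (m : ι → ℤ) (L : ι → ℕ), (∀ i, C₀ * (Fintype.card ι + 1) * (Y : ℝ) ^ A ≤ L i) →
      ∀ y : ℝ, |(((tbox m L).filter fun ν => ∑ p ∈ I, w p * ((points n (insert (member f ν) E) p : ℝ) - c p) ≤
        y * Real.sqrt S).card : ℝ) / ∏ i, (L i : ℝ) - Phi y| ≤ ε := by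
  classical
  obtain ⟨η, C₀, A, hη, hC₀, key⟩ := count_law (ε / 2) (by positivity)
  obtain ⟨δ, hδ0, hδ1, hδ⟩ := Q282LT.Phi_affine (ε / 2) (by positivity)
  refine ⟨min (δ / 4) (η / 4), C₀, A, by positivity, ?_, hC₀, ?_⟩
  · exact (min_le_left _ _).trans (by linarith)
  intro n E J ι _ _ h f e d hh hd hf I hI w c S hS hV hB hW Y hY m L hL y
  obtain ⟨κ, hκ⟩ : ∃ κ, κ = min (δ / 4) (η / 4) := ⟨_, rfl⟩
  rw [← hκ] at hV hB hW
  have hκ0 : 0 < κ := by
    rw [hκ]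
    positivity
  have hκδ : κ ≤ δ / 4 := by
    rw [hκ]
    exact min_le_left _ _
  have hκη : κ ≤ η / 4 := by
    rw [hκ]
    exact min_le_right _ _
  obtain ⟨V, hVdef⟩ : ∃ V, V = ∑ p ∈ I, w p ^ 2 * spread E h p := ⟨_, rfl⟩
  obtain ⟨B, hBdef⟩ : ∃ B, B = ∑ p ∈ I, w p * (expected E h p - c p) := ⟨_, rfl⟩
  rw [← hVdef] at hV
  rw [← hBdef] at hB
  obtain ⟨hV0, hratio⟩ := sqrt_ratio κ S V hκ0 (by linarith) hS hV
  have hsV := Real.sqrt_pos.2 hV0
  have hsS := Real.sqrt_pos.2 hS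
  have hVS : S / 2 ≤ V := by
    rw [abs_le] at hV
    nlinarith [hV.1]
  have hW' : ∑ p ∈ I, w p ^ 4 * (((points n E p : ℝ) - points n (E ∪ Set.range h) p) / p +
        3 * (((points n E p : ℝ) - points n (E ∪ Set.range h) p) / p) ^ 2) ≤ η * V ^ 2 := by
    refine hW.trans ?_
    have h1 : S ^ 2 / 4 ≤ V ^ 2 := by nlinarith
    calc κ * S ^ 2 ≤ η / 4 * S ^ 2 := mul_le_mul_of_nonneg_right hκη (sq_nonneg _)
      _ = η * (S ^ 2 / 4) := by ring
      _ ≤ η * V ^ 2 := mul_le_mul_of_nonneg_left h1 hη.le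
  obtain ⟨y', hy'⟩ : ∃ y', y' = Real.sqrt S / Real.sqrt V * y + -(B / Real.sqrt V) := ⟨_, rfl⟩
  have k1 := key n E J ι h f e d hh hd hf I hI w (by rw [← hVdef]; exact hV0) (by rw [← hVdef]; exact hW') Y hY m L hL y'
  rw [← hVdef] at k1
  have k2 := hδ (Real.sqrt S / Real.sqrt V) (-(B / Real.sqrt V)) y (by linarith) (by
    rw [abs_neg, abs_div, abs_of_pos hsV, div_le_iff₀ hsV]
    have h1 : Real.sqrt S ≤ 2 * Real.sqrt V := by
      have h2 : Real.sqrt S / Real.sqrt V ≤ 2 := by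
        have := (abs_le.1 hratio).2
        linarith
      rw [div_le_iff₀ hsV] at h2
      exact h2
    calc |B| ≤ κ * Real.sqrt S := hB
      _ ≤ δ / 4 * (2 * Real.sqrt V) := mul_le_mul hκδ h1 hsS.le (by positivity)
      _ ≤ δ * Real.sqrt V := by nlinarith)
  rw [← hy'] at k2
  have hset : ((tbox m L).filter fun ν => ∑ p ∈ I, w p * ((points n (insert (member f ν) E) p : ℝ) - c p) ≤ y * Real.sqrt S) =
      (tbox m L).filter fun ν => ∑ p ∈ I, w p * ((points n (insert (member f ν) E) p : ℝ) - expected E h p) ≤ y' * Real.sqrt V := by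
    refine filter_congr fun ν _ => ?_
    have h1 : ∑ p ∈ I, w p * ((points n (insert (member f ν) E) p : ℝ) - c p) =
        ∑ p ∈ I, w p * ((points n (insert (member f ν) E) p : ℝ) - expected E h p) + B := by
      rw [hBdef, ← sum_add_distrib]
      exact sum_congr rfl fun p _ => by ring
    have h2 : y' * Real.sqrt V = y * Real.sqrt S - B := by
      rw [hy']
      field_simp
      ring
    rw [h1, h2]
    constructor <;> intro h3 <;> linarith
  rw [hset]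
  calc |_ - Phi y| = |(_ - Phi y') + (Phi y' - Phi y)| := by rw [sub_add_sub_cancel]
    _ ≤ _ := abs_add_le _ _
    _ ≤ ε / 2 + ε / 2 := add_le_add k1 k2
    _ = ε := by ring

end Q282RH
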