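import Pool.Agent.Q282.RH.Cnt

/-!
# Points of unions of linear subspaces modulo primes
-/

set_option autoImplicit false
set_option linter.unusedSectionVars false

namespace Q282RH

open Finset MvPolynomial
open scoped LinearAlgebra.Projectivization

/-- the linear forms given by the rows `v` are independent over the rationals -/
def Indep {c N : ℕ} (v : Fin c → Fin N → ℤ) : Prop := LinearIndependent ℚ (fun k i => (v k i : ℚ))

/-- integer vectors that are independent over the rationals are independent modulo large primes -/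
lemma indep_mod {c N : ℕ} (v : Fin c → Fin N → ℤ) (hv : Indep v) :
    ∃ p₀ : ℕ, ∀ p : ℕ, p₀ < p → ∀ _ : Fact p.Prime, LinearIndependent (ZMod p) (fun k i => (v k i : ZMod p)) := by
  classical
  obtain ⟨G, hG⟩ : ∃ G : Matrix (Fin c) (Fin c) ℤ, G = fun a b => ∑ i, v a i * v b i := ⟨_, rfl⟩
  have hdet : G.det ≠ 0 := by
    intro h0
    have h1 : (G.map (Int.castRingHom ℚ)).det = 0 := by
      have h1' : Int.castRingHom ℚ G.det = (G.map (Int.castRingHom ℚ)).det := RingHom.map_det _ _
      rw [← h1', h0, map_zero]
    obtain ⟨x, hx0, hx⟩ := Matrix.exists_mulVec_eq_zero_iff.2 h1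
    apply hx0
    have h2 : ∑ i, (∑ b, x b * (v b i : ℚ)) ^ 2 = 0 := by
      have h3 : ∑ i, (∑ b, x b * (v b i : ℚ)) ^ 2 = ∑ a, x a * ((G.map (Int.castRingHom ℚ)).mulVec x) a := by
        have h4 : ∀ a, ((G.map (Int.castRingHom ℚ)).mulVec x) a = ∑ b, (∑ i, (v a i : ℚ) * v b i) * x b := by
          intro a
          show ∑ b, (G.map (Int.castRingHom ℚ)) a b * x b = _
          refine sum_congr rfl fun b _ => ?_
          rw [Matrix.map_apply, hG]
          simp only [eq_intCast]
          push_cast
          rfl
        simp only [h4]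
        have h5 : ∀ i, (∑ b, x b * (v b i : ℚ)) ^ 2 = ∑ a, ∑ b, x a * ((v a i : ℚ) * v b i * x b) := by
          intro i
          rw [sq, sum_mul_sum]
          exact sum_congr rfl fun a _ => sum_congr rfl fun b _ => by ring
        simp only [h5]
        rw [sum_comm]
        refine sum_congr rfl fun a _ => ?_
        rw [sum_comm, mul_sum]
        refine sum_congr rfl fun b _ => ?_
        rw [sum_mul, mul_sum]
      rw [h3, hx]
      simp
    have h3 : ∀ i, ∑ b, x b * (v b i : ℚ) = 0 := by
      intro i
      have h4 := (sum_eq_zero_iff_of_nonneg (fun i _ => sq_nonneg _)).1 h2 i (mem_univ i)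
      exact pow_eq_zero_iff (two_ne_zero) |>.1 h4
    unfold Indep at hv
    rw [Fintype.linearIndependent_iff] at hv
    funext b
    refine hv x ?_ b
    funext i
    rw [Finset.sum_apply]
    simp only [Pi.smul_apply, smul_eq_mul, Pi.zero_apply]
    exact h3 i
  refine ⟨G.det.natAbs, fun p hp _ => ?_⟩
  rw [Fintype.linearIndependent_iff]
  intro x hx b
  have h1 : (G.map (Int.castRingHom (ZMod p))).det ≠ 0 := by
    have h1' : Int.castRingHom (ZMod p) G.det = (G.map (Int.castRingHom (ZMod p))).det := RingHom.map_det _ _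
    rw [← h1']
    intro h2
    rw [eq_intCast, ZMod.intCast_zmod_eq_zero_iff_dvd] at h2
    have h3 := Int.natAbs_dvd_natAbs.2 h2
    rw [Int.natAbs_natCast] at h3
    have h4 := Nat.le_of_dvd (Int.natAbs_pos.2 hdet) h3
    omega
  have h2 : (G.map (Int.castRingHom (ZMod p))).mulVec x = 0 := by
    funext a
    show ∑ b, (G.map (Int.castRingHom (ZMod p))) a b * x b = 0
    have h3 : ∀ i, ∑ b, x b * (v b i : ZMod p) = 0 := by
      intro i
      have := congrFun hx i
      rw [Finset.sum_apply] at this
      simpa only [Pi.smul_apply, smul_eq_mul, Pi.zero_apply] using this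
    have h4 : ∑ b, (G.map (Int.castRingHom (ZMod p))) a b * x b = ∑ i, (v a i : ZMod p) * ∑ b, x b * (v b i : ZMod p) := by
      have h5 : ∀ b, (G.map (Int.castRingHom (ZMod p))) a b * x b = ∑ i, (v a i : ZMod p) * (x b * v b i) := by
        intro b
        rw [Matrix.map_apply, hG]
        simp only [eq_intCast]
        push_cast
        rw [sum_mul]
        exact sum_congr rfl fun i _ => by ring
      simp only [h5]
      rw [sum_comm]
      exact sum_congr rfl fun i _ => by rw [mul_sum]
    rw [h4]
    simp only [h3, mul_zero, sum_const_zero]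
  exact congrFun (Matrix.eq_zero_of_mulVec_eq_zero h1 h2) b

/-- the common zeros of the rows `v` modulo `p` -/
def kerMod (p : ℕ) {c N : ℕ} (v : Fin c → Fin N → ℤ) : Submodule (ZMod p) (Fin N → ZMod p) :=
  LinearMap.ker (Matrix.mulVecLin (Matrix.of fun k i => (v k i : ZMod p)))

lemma mem_kerMod {p c N : ℕ} {v : Fin c → Fin N → ℤ} {x : Fin N → ZMod p} : x ∈ kerMod p v ↔ ∀ k, ∑ i, (v k i : ZMod p) * x i = 0 := by
  unfold kerMod
  rw [LinearMap.mem_ker, Matrix.mulVecLin_apply]
  constructor
  · intro h k
    exact congrFun h k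
  · intro h
    funext k
    exact h k

lemma card_kerMod {p c N : ℕ} [hp : Fact p.Prime] (v : Fin c → Fin N → ℤ)
    (hv : LinearIndependent (ZMod p) (fun k i => (v k i : ZMod p))) : Nat.card (kerMod p v) * p ^ c = p ^ N := by
  have h1 : (Matrix.of fun k i => (v k i : ZMod p)).rank = c := by
    have := LinearIndependent.rank_matrix (M := Matrix.of fun k i => (v k i : ZMod p)) hv
    rw [this, Fintype.card_fin]
  have h2 := LinearMap.finrank_range_add_finrank_ker (Matrix.mulVecLin (Matrix.of fun k i => (v k i : ZMod p)))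
  rw [Module.finrank_fin_fun] at h2
  have h3 : Module.finrank (ZMod p) (LinearMap.range (Matrix.mulVecLin (Matrix.of fun k i => (v k i : ZMod p)))) = c := h1
  rw [h3] at h2
  have h4 : Nat.card (kerMod p v) = p ^ Module.finrank (ZMod p) (kerMod p v) := by
    rw [Module.natCard_eq_pow_finrank (K := ZMod p), Nat.card_zmod]
  rw [h4, ← pow_add]
  congr 1
  unfold kerMod
  omega

end Q282RH
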