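import Pool.Agent.Q282.RH.Sep
import Pool.Agent.Q282.LT.Mom

/-!
# Moments of sums of variables that are independent up to a given order
-/

set_option autoImplicit false
set_option linter.unusedSectionVars false

namespace Q282RH

open Finset
open Q282MM (gm)
open Q282LT (gm_zero gm_one gm_two gm_add)

/-- the recursion of the moments `M S k` of the sums over `S` of variables with the moments `μ a j` -/
structure Recur {α : Type} [DecidableEq α] (K : ℕ) (B : ℝ) (T : Finset α) (M : Finset α → ℕ → ℝ) (μ : α → ℕ → ℝ) (v : α → ℝ) : Prop where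
  empty : ∀ k, M ∅ k = if k = 0 then 1 else 0
  step : ∀ a ∈ T, ∀ S ⊆ T, a ∉ S → ∀ k ≤ K, M (insert a S) k = ∑ j ∈ range (k + 1), (k.choose j : ℝ) * μ a j * M S (k - j)
  zero : ∀ a ∈ T, μ a 0 = 1
  one : ∀ a ∈ T, μ a 1 = 0
  two : ∀ a ∈ T, μ a 2 = v a
  pow : ∀ a ∈ T, ∀ j, 2 ≤ j → |μ a j| ≤ B ^ (j - 2) * v a
  nonneg : ∀ a ∈ T, 0 ≤ v a
  le : ∀ a ∈ T, v a ≤ B ^ 2

lemma Recur.mono {α : Type} [DecidableEq α] {K K' : ℕ} {B : ℝ} {T T' : Finset α} {M : Finset α → ℕ → ℝ} {μ : α → ℕ → ℝ} {v : α → ℝ}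
    (h : Recur K B T M μ v) (hT : T' ⊆ T) (hK : K' ≤ K) : Recur K' B T' M μ v where
  empty := h.empty
  step a ha S hS haS k hk := h.step a (hT ha) S (hS.trans hT) haS k (hk.trans hK)
  zero a ha := h.zero a (hT ha)
  one a ha := h.one a (hT ha)
  two a ha := h.two a (hT ha)
  pow a ha := h.pow a (hT ha)
  nonneg a ha := h.nonneg a (hT ha)
  le a ha := h.le a (hT ha)

lemma Recur.m_zero {α : Type} [DecidableEq α] {K : ℕ} {B : ℝ} {T : Finset α} {M : Finset α → ℕ → ℝ} {μ : α → ℕ → ℝ} {v : α → ℝ}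
    (h : Recur K B T M μ v) : M T 0 = 1 := by
  induction T using Finset.induction_on with
  | empty => rw [h.empty, if_pos rfl]
  | insert a T ha ih =>
    rw [h.step a (mem_insert_self a T) T (subset_insert _ _) ha 0 (Nat.zero_le _), sum_range_one, h.zero a (mem_insert_self a T),
      Nat.sub_zero, ih (h.mono (subset_insert _ _) le_rfl)]
    simp

lemma Recur.m_one {α : Type} [DecidableEq α] {K : ℕ} {B : ℝ} {T : Finset α} {M : Finset α → ℕ → ℝ} {μ : α → ℕ → ℝ} {v : α → ℝ}
    (h : Recur K B T M μ v) (hK : 1 ≤ K) : M T 1 = 0 := by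
  induction T using Finset.induction_on with
  | empty => rw [h.empty, if_neg one_ne_zero]
  | insert a T ha ih =>
    rw [h.step a (mem_insert_self a T) T (subset_insert _ _) ha 1 hK, sum_range_succ, sum_range_one, h.zero a (mem_insert_self a T),
      h.one a (mem_insert_self a T), Nat.sub_zero, ih (h.mono (subset_insert _ _) le_rfl)]
    simp

lemma Recur.m_two {α : Type} [DecidableEq α] {K : ℕ} {B : ℝ} {T : Finset α} {M : Finset α → ℕ → ℝ} {μ : α → ℕ → ℝ} {v : α → ℝ}
    (h : Recur K B T M μ v) (hK : 2 ≤ K) : M T 2 = ∑ a ∈ T, v a := by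
  induction T using Finset.induction_on with
  | empty => rw [h.empty, if_neg two_ne_zero, sum_empty]
  | insert a T ha ih =>
    have h' := h.mono (subset_insert a T) (le_refl K)
    rw [h.step a (mem_insert_self a T) T (subset_insert _ _) ha 2 hK, sum_range_succ, sum_range_succ, sum_range_one,
      h.zero a (mem_insert_self a T), h.one a (mem_insert_self a T), h.two a (mem_insert_self a T), Nat.sub_zero, Nat.sub_self,
      ih h', h'.m_zero, sum_insert ha]
    simp
    ring

/-- **the moments are close to those of the normal law** -/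
theorem rec_main (B : ℝ) (hB : 1 ≤ B) (k : ℕ) : ∃ C : ℝ, 0 ≤ C ∧ (k ≤ 2 → C = 0) ∧
    ∀ (α : Type) [DecidableEq α] (I : Finset α) (M : Finset α → ℕ → ℝ) (μ : α → ℕ → ℝ) (v : α → ℝ), Recur k B I M μ v →
      |M I k - (gm k : ℝ) * (Real.sqrt (∑ a ∈ I, v a)) ^ k| ≤
        C * (∑ a ∈ I, v a) * (Real.sqrt (1 + ∑ a ∈ I, v a)) ^ (k - 3) := by
  induction k using Nat.strong_induction_on with
  | _ k ihk =>
  rcases Nat.lt_or_ge k 3 with hk3 | hk3
  · refine ⟨0, le_rfl, fun _ => rfl, ?_⟩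
    intro α _ I M μ v hR
    have hV : 0 ≤ ∑ a ∈ I, v a := sum_nonneg fun a ha => hR.nonneg a ha
    have : M I k - (gm k : ℝ) * (Real.sqrt (∑ a ∈ I, v a)) ^ k = 0 := by
      interval_cases k
      · rw [hR.m_zero, gm_zero]
        simp
      · rw [hR.m_one (by omega), gm_one]
        simp
      · rw [hR.m_two (by omega), gm_two, Real.sq_sqrt hV]
        simp
    rw [this, abs_zero, zero_mul, zero_mul]
  · choose! c hc0 hc1 hc using ihk
    have hck : 0 ≤ c (k - 2) := hc0 (k - 2) (by omega)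
    obtain ⟨C, hC⟩ : ∃ C : ℝ, C = (k.choose 2 : ℝ) * c (k - 2) +
      ∑ j ∈ Ico 3 (k + 1), (k.choose j : ℝ) * (B ^ (j - 2) * ((gm (k - j) : ℝ) + c (k - j) + (gm j : ℝ) * (gm (k - j) : ℝ))) := ⟨_, rfl⟩
    have hC0 : 0 ≤ C := by
      rw [hC]
      refine add_nonneg (by positivity) (sum_nonneg fun j hj => ?_)
      rw [mem_Ico] at hj
      have := hc0 (k - j) (by omega)
      positivity
    refine ⟨C, hC0, fun h => absurd h (by omega), ?_⟩
    intro α _ I M μ v hR
    induction I using Finset.induction_on with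
    | empty =>
      rw [hR.empty, sum_empty, if_neg (by omega), Real.sqrt_zero, zero_pow (by omega)]
      simp
    | insert a I ha ih =>
      have ha' : a ∈ insert a I := mem_insert_self a I
      have hm : ∀ b ∈ I, b ∈ insert a I := fun b hb => mem_insert_of_mem hb
      have hR' := hR.mono (subset_insert a I) (le_refl k)
      have ih' := ih hR'
      have hcI : ∀ m < k, |M I m - (gm m : ℝ) * (Real.sqrt (∑ a ∈ I, v a)) ^ m| ≤
        c m * (∑ a ∈ I, v a) * (Real.sqrt (1 + ∑ a ∈ I, v a)) ^ (m - 3) :=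
        fun m hm => hc m hm α I M μ v (hR'.mono (Subset.refl _) hm.le)
      rw [hR.step a ha' I (subset_insert _ _) ha k le_rfl, sum_insert ha]
      obtain ⟨V, hV⟩ : ∃ V : ℝ, V = ∑ a ∈ I, v a := ⟨_, rfl⟩
      obtain ⟨w, hv⟩ : ∃ w : ℝ, w = v a := ⟨_, rfl⟩
      rw [← hV] at ih' ⊢
      rw [← hv]
      simp only [← hV] at hcI
      have hV0 : 0 ≤ V := by
        rw [hV]
        exact sum_nonneg fun a ha => hR'.nonneg a ha
      have hv0 : 0 ≤ w := by
        rw [hv]
        exact hR.nonneg a ha'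
      have hvB : w ≤ B ^ 2 := by
        rw [hv]
        exact hR.le a ha'
      obtain ⟨W, hW⟩ : ∃ W : ℝ, W = Real.sqrt (1 + V) := ⟨_, rfl⟩
      obtain ⟨W', hW'⟩ : ∃ W' : ℝ, W' = Real.sqrt (1 + (w + V)) := ⟨_, rfl⟩
      rw [← hW] at ih'
      rw [← hW']
      simp only [← hW] at hcI
      have hW1 : 1 ≤ W := by
        rw [hW]
        exact Real.one_le_sqrt.2 (by linarith)
      have hWW : W ≤ W' := by
        rw [hW, hW']
        exact Real.sqrt_le_sqrt (by linarith)
      have hW'1 : 1 ≤ W' := hW1.trans hWW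
      have hVW : V ≤ W ^ 2 := by
        rw [hW, Real.sq_sqrt (by linarith)]
        linarith
      have hsVW : Real.sqrt V ≤ W := by
        rw [hW]
        exact Real.sqrt_le_sqrt (by linarith)
      have hsv : Real.sqrt w ≤ B := by
        rw [Real.sqrt_le_left (by linarith)]
        exact hvB
      -- the sum for the normal law
      have hg := gm_add (Real.sqrt V) (Real.sqrt w) k
      rw [Real.sq_sqrt hv0, Real.sq_sqrt hV0] at hg
      rw [hg, ← sum_sub_distrib]
      -- the moments are bounded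
      have hMb : ∀ m < k, |M I m| ≤ ((gm m : ℝ) + c m) * W ^ m := by
        intro m hm
        have h1 := hcI m hm
        have h2 : c m * V * W ^ (m - 3) ≤ c m * W ^ m := by
          rcases Nat.lt_or_ge m 3 with h3 | h3
          · rw [hc1 m hm (by omega)]
            simp
          · rw [mul_assoc]
            refine mul_le_mul_of_nonneg_left ?_ (hc0 m hm)
            calc V * W ^ (m - 3) ≤ W ^ 2 * W ^ (m - 3) := mul_le_mul_of_nonneg_right hVW (by positivity)
              _ = W ^ (m - 1) := by rw [← pow_add]; congr 1; omega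
              _ ≤ W ^ m := pow_le_pow_right₀ hW1 (by omega)
        have h3 : (gm m : ℝ) * (Real.sqrt V) ^ m ≤ (gm m : ℝ) * W ^ m :=
          mul_le_mul_of_nonneg_left (pow_le_pow_left₀ (Real.sqrt_nonneg _) hsVW m) (Nat.cast_nonneg _)
        have h4 : 0 ≤ (gm m : ℝ) * (Real.sqrt V) ^ m := by positivity
        have h5 := abs_sub_abs_le_abs_sub (M I m) ((gm m : ℝ) * (Real.sqrt V) ^ m)
        rw [abs_of_nonneg h4] at h5
        linarith
      rw [← sum_range_add_sum_Ico _ (by omega : 3 ≤ k + 1), sum_range_succ, sum_range_succ, sum_range_one]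
      rw [hR.zero a ha']
      have h1 : μ a 1 = 0 := hR.one a ha'
      have h2 : μ a 2 = w := by rw [hv, hR.two a ha']
      rw [h1, h2, gm_zero, gm_one, gm_two, Real.sq_sqrt hv0]
      have hT : |∑ j ∈ Ico 3 (k + 1), ((k.choose j : ℝ) * μ a j * M I (k - j) -
          (k.choose j : ℝ) * ((gm j : ℝ) * Real.sqrt w ^ j) * ((gm (k - j) : ℝ) * Real.sqrt V ^ (k - j)))| ≤
          w * W' ^ (k - 3) * ∑ j ∈ Ico 3 (k + 1), (k.choose j : ℝ) * (B ^ (j - 2) *
            ((gm (k - j) : ℝ) + c (k - j) + (gm j : ℝ) * (gm (k - j) : ℝ))) := by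
        rw [mul_sum]
        refine (abs_sum_le_sum_abs _ _).trans (sum_le_sum fun j hj => ?_)
        rw [mem_Ico] at hj
        have h3 := hR.pow a ha' j (by omega)
        rw [← hv] at h3
        have h4 := hMb (k - j) (by omega)
        have h5 : Real.sqrt w ^ j ≤ B ^ (j - 2) * w := by
          obtain ⟨i, hi⟩ := Nat.exists_eq_add_of_le (show 2 ≤ j by omega)
          rw [hi, pow_add, Real.sq_sqrt hv0, Nat.add_sub_cancel_left, mul_comm]
          exact mul_le_mul_of_nonneg_right (pow_le_pow_left₀ (Real.sqrt_nonneg _) hsv i) hv0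
        have h6 : W ^ (k - j) ≤ W' ^ (k - 3) := by
          calc W ^ (k - j) ≤ W' ^ (k - j) := pow_le_pow_left₀ (by linarith) hWW _
            _ ≤ W' ^ (k - 3) := pow_le_pow_right₀ hW'1 (by omega)
        have h7 : Real.sqrt V ^ (k - j) ≤ W' ^ (k - 3) :=
          (pow_le_pow_left₀ (Real.sqrt_nonneg _) hsVW _).trans h6
        have h8 := hc0 (k - j) (by omega)
        have hB0 : 0 ≤ B ^ (j - 2) * w := by positivity
        have h9 : |μ a j * M I (k - j)| ≤
            (B ^ (j - 2) * w) * (((gm (k - j) : ℝ) + c (k - j)) * W' ^ (k - 3)) := by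
          rw [abs_mul]
          refine mul_le_mul h3 (h4.trans ?_) (abs_nonneg _) hB0
          exact mul_le_mul_of_nonneg_left h6 (by positivity)
        have h10 : |((gm j : ℝ) * Real.sqrt w ^ j) * ((gm (k - j) : ℝ) * Real.sqrt V ^ (k - j))| ≤
            (B ^ (j - 2) * w) * ((gm j : ℝ) * (gm (k - j) : ℝ) * W' ^ (k - 3)) := by
          rw [abs_of_nonneg (by positivity)]
          calc ((gm j : ℝ) * Real.sqrt w ^ j) * ((gm (k - j) : ℝ) * Real.sqrt V ^ (k - j))
              ≤ ((gm j : ℝ) * (B ^ (j - 2) * w)) * ((gm (k - j) : ℝ) * W' ^ (k - 3)) := by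
                refine mul_le_mul (mul_le_mul_of_nonneg_left h5 (Nat.cast_nonneg _))
                  (mul_le_mul_of_nonneg_left h7 (Nat.cast_nonneg _)) (by positivity) (by positivity)
            _ = _ := by ring
        have h11 : (k.choose j : ℝ) * μ a j * M I (k - j) -
          (k.choose j : ℝ) * ((gm j : ℝ) * Real.sqrt w ^ j) * ((gm (k - j) : ℝ) * Real.sqrt V ^ (k - j)) =
          (k.choose j : ℝ) * (μ a j * M I (k - j) -
            ((gm j : ℝ) * Real.sqrt w ^ j) * ((gm (k - j) : ℝ) * Real.sqrt V ^ (k - j))) := by ring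
        rw [h11, abs_mul, abs_of_nonneg (Nat.cast_nonneg (k.choose j) : (0 : ℝ) ≤ _)]
        calc (k.choose j : ℝ) * |μ a j * M I (k - j) -
            ((gm j : ℝ) * Real.sqrt w ^ j) * ((gm (k - j) : ℝ) * Real.sqrt V ^ (k - j))|
            ≤ (k.choose j : ℝ) * ((B ^ (j - 2) * w) * (((gm (k - j) : ℝ) + c (k - j)) * W' ^ (k - 3)) +
              (B ^ (j - 2) * w) * ((gm j : ℝ) * (gm (k - j) : ℝ) * W' ^ (k - 3))) := by
              refine mul_le_mul_of_nonneg_left ?_ (Nat.cast_nonneg _)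
              exact (abs_sub _ _).trans (add_le_add h9 h10)
          _ = _ := by ring
      have h3 : w * |M I (k - 2) - (gm (k - 2) : ℝ) * Real.sqrt V ^ (k - 2)| ≤ w * W' ^ (k - 3) * c (k - 2) := by
        rw [mul_assoc]
        refine mul_le_mul_of_nonneg_left ?_ hv0
        refine (hcI (k - 2) (by omega)).trans ?_
        rcases Nat.lt_or_ge k 5 with h4 | h4
        · rw [hc1 (k - 2) (by omega) (by omega)]
          simp
        · calc c (k - 2) * V * W ^ (k - 2 - 3) ≤ c (k - 2) * W ^ 2 * W ^ (k - 2 - 3) := by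
                refine mul_le_mul_of_nonneg_right (mul_le_mul_of_nonneg_left hVW hck) (by positivity)
            _ = W ^ (k - 3) * c (k - 2) := by
                rw [mul_assoc, ← pow_add, mul_comm]
                congr 2
                omega
            _ ≤ W' ^ (k - 3) * c (k - 2) :=
                mul_le_mul_of_nonneg_right (pow_le_pow_left₀ (by linarith) hWW _) hck
      have h4 : |M I k - (gm k : ℝ) * Real.sqrt V ^ k| ≤ C * V * W' ^ (k - 3) :=
        ih'.trans (mul_le_mul_of_nonneg_left (pow_le_pow_left₀ (by linarith) hWW _) (by positivity))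
      have h5 : ((k.choose 0 : ℕ) : ℝ) * 1 * M I (k - 0) -
          ((k.choose 0 : ℕ) : ℝ) * (((1 : ℕ) : ℝ) * Real.sqrt w ^ 0) * ((gm (k - 0) : ℝ) * Real.sqrt V ^ (k - 0)) +
          (((k.choose 1 : ℕ) : ℝ) * 0 * M I (k - 1) -
          ((k.choose 1 : ℕ) : ℝ) * (((0 : ℕ) : ℝ) * Real.sqrt w ^ 1) * ((gm (k - 1) : ℝ) * Real.sqrt V ^ (k - 1))) +
          (((k.choose 2 : ℕ) : ℝ) * w * M I (k - 2) -
          ((k.choose 2 : ℕ) : ℝ) * (((1 : ℕ) : ℝ) * w) * ((gm (k - 2) : ℝ) * Real.sqrt V ^ (k - 2))) =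
          (M I k - (gm k : ℝ) * Real.sqrt V ^ k) +
          ((k.choose 2 : ℕ) : ℝ) * (w * (M I (k - 2) - (gm (k - 2) : ℝ) * Real.sqrt V ^ (k - 2))) := by
        rw [Nat.choose_zero_right, Nat.sub_zero]
        push_cast
        ring
      rw [h5]
      have h6 : |((k.choose 2 : ℕ) : ℝ) * (w * (M I (k - 2) - (gm (k - 2) : ℝ) * Real.sqrt V ^ (k - 2)))| ≤
          w * W' ^ (k - 3) * (((k.choose 2 : ℕ) : ℝ) * c (k - 2)) := by
        rw [abs_mul, abs_mul, abs_of_nonneg hv0, abs_of_nonneg (Nat.cast_nonneg (k.choose 2) : (0 : ℝ) ≤ _)]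
        calc ((k.choose 2 : ℕ) : ℝ) * (w * |M I (k - 2) - (gm (k - 2) : ℝ) * Real.sqrt V ^ (k - 2)|)
            ≤ ((k.choose 2 : ℕ) : ℝ) * (w * W' ^ (k - 3) * c (k - 2)) :=
              mul_le_mul_of_nonneg_left h3 (Nat.cast_nonneg _)
          _ = _ := by ring
      have h7 := abs_add_three (M I k - (gm k : ℝ) * Real.sqrt V ^ k)
        (((k.choose 2 : ℕ) : ℝ) * (w * (M I (k - 2) - (gm (k - 2) : ℝ) * Real.sqrt V ^ (k - 2))))
        (∑ j ∈ Ico 3 (k + 1), ((k.choose j : ℝ) * μ a j * M I (k - j) -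
          (k.choose j : ℝ) * ((gm j : ℝ) * Real.sqrt w ^ j) * ((gm (k - j) : ℝ) * Real.sqrt V ^ (k - j))))
      refine h7.trans ?_
      have h8 : C * (w + V) * W' ^ (k - 3) = C * V * W' ^ (k - 3) + w * W' ^ (k - 3) * (((k.choose 2 : ℕ) : ℝ) * c (k - 2)) +
          w * W' ^ (k - 3) * ∑ j ∈ Ico 3 (k + 1), (k.choose j : ℝ) * (B ^ (j - 2) *
            ((gm (k - j) : ℝ) + c (k - j) + (gm j : ℝ) * (gm (k - j) : ℝ))) := by
        have h9 : w * W' ^ (k - 3) * C = w * W' ^ (k - 3) * (((k.choose 2 : ℕ) : ℝ) * c (k - 2)) +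
          w * W' ^ (k - 3) * ∑ j ∈ Ico 3 (k + 1), (k.choose j : ℝ) * (B ^ (j - 2) *
            ((gm (k - j) : ℝ) + c (k - j) + (gm j : ℝ) * (gm (k - j) : ℝ))) := by
          rw [hC, mul_add]
        have h10 : C * (w + V) * W' ^ (k - 3) = C * V * W' ^ (k - 3) + w * W' ^ (k - 3) * C := by ring
        rw [h10, h9, add_assoc]
      rw [h8]
      exact add_le_add (add_le_add h4 h6) hT

end Q282RH
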