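import Pool.Agent.Q282.RH.Fourth

/-!
# Moments of sums over points for random members of a separating linear system over a finite field
-/

set_option autoImplicit false
set_option linter.unusedSectionVars false

namespace Q282RH

open Finset

variable {Pt : Type} [DecidableEq Pt] {ι : Type} [Fintype ι] [DecidableEq ι] {p : ℕ} [hp : Fact p.Prime]

/-- the value at the point `P` of the member `c + ∑ a_k φ_k` of the linear system -/
def ev (c : Pt → ZMod p) (φ : ι → Pt → ZMod p) (a : ι → ZMod p) (P : Pt) : ZMod p := c P + ∑ k, a k * φ k P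

/-- the linear system separates any four points of `T` -/
def Sep (φ : ι → Pt → ZMod p) (T : Finset Pt) : Prop :=
  ∀ P ∈ T, ∀ S ⊆ T, P ∉ S → S.card ≤ 3 → ∃ b : ι → ZMod p, ∑ k, b k * φ k P = 1 ∧ ∀ Q ∈ S, ∑ k, b k * φ k Q = 0

/-- average over the members -/
noncomputable def ex (F : (ι → ZMod p) → ℝ) : ℝ := (∑ a, F a) / (p : ℝ) ^ Fintype.card ι

/-- average over the values -/
noncomputable def em (h : ZMod p → ℝ) : ℝ := (∑ u, h u) / (p : ℝ)

omit [DecidableEq Pt] in
lemma ev_add (c : Pt → ZMod p) (φ : ι → Pt → ZMod p) (a b : ι → ZMod p) (t : ZMod p) (P : Pt) :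
    ev c φ (a + t • b) P = ev c φ a P + t * ∑ k, b k * φ k P := by
  unfold ev
  rw [add_assoc, mul_sum, ← sum_add_distrib]
  congr 1
  refine sum_congr rfl fun k _ => ?_
  simp only [Pi.add_apply, Pi.smul_apply, smul_eq_mul]
  ring

omit [DecidableEq Pt] in
lemma ex_indep (c : Pt → ZMod p) (φ : ι → Pt → ZMod p) (P : Pt) (b : ι → ZMod p) (hb : ∑ k, b k * φ k P = 1)
    (G : (ι → ZMod p) → ℝ) (hG : ∀ a (t : ZMod p), G (a + t • b) = G a) (h : ZMod p → ℝ) :
    ex (fun a => G a * h (ev c φ a P)) = ex G * em h := by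
  have hp0 : (p : ℝ) ≠ 0 := by exact_mod_cast hp.out.ne_zero
  have h1 : ∀ t : ZMod p, ∑ a, G a * h (ev c φ a P) = ∑ a, G a * h (ev c φ a P + t) := by
    intro t
    have h2 := Equiv.sum_comp (Equiv.addRight (t • b)) (fun a => G a * h (ev c φ a P))
    rw [← h2]
    refine sum_congr rfl fun a _ => ?_
    rw [Equiv.coe_addRight, hG, ev_add, hb, mul_one]
  have h3 : (p : ℝ) * ∑ a, G a * h (ev c φ a P) = (∑ a, G a) * ∑ u, h u := by
    have h4 : ∑ t : ZMod p, ∑ a, G a * h (ev c φ a P) = ∑ t : ZMod p, ∑ a, G a * h (ev c φ a P + t) :=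
      sum_congr rfl fun t _ => h1 t
    rw [sum_const, card_univ, ZMod.card, nsmul_eq_mul] at h4
    rw [h4, sum_comm, sum_mul]
    refine sum_congr rfl fun a _ => ?_
    rw [← mul_sum]
    congr 1
    exact Equiv.sum_comp (Equiv.addLeft (ev c φ a P)) h
  unfold ex em
  rw [div_mul_div_comm, div_eq_div_iff (by positivity) (by positivity)]
  calc (∑ a, G a * h (ev c φ a P)) * ((p : ℝ) ^ Fintype.card ι * p) = ((p : ℝ) * ∑ a, G a * h (ev c φ a P)) * (p : ℝ) ^ Fintype.card ι := by ring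
    _ = _ := by rw [h3]

lemma ex_pow (c : Pt → ZMod p) (φ : ι → Pt → ZMod p) (X : Pt → ZMod p → ℝ) (T : Finset Pt) (P : Pt) (hP : P ∉ T)
    (hsep : Sep φ (insert P T)) (j : ℕ) (hj : j ≤ 3) (g : ZMod p → ℝ) :
    ex (fun a => (∑ Q ∈ T, X Q (ev c φ a Q)) ^ j * g (ev c φ a P)) = ex (fun a => (∑ Q ∈ T, X Q (ev c φ a Q)) ^ j) * em g := by
  have h1 : ∀ a, (∑ Q ∈ T, X Q (ev c φ a Q)) ^ j = ∑ f ∈ Fintype.piFinset (fun _ : Fin j => T), ∏ i, X (f i) (ev c φ a (f i)) := by
    intro a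
    have := prod_univ_sum (fun _ : Fin j => T) (fun _ Q => X Q (ev c φ a Q))
    rw [← this, prod_const, card_univ, Fintype.card_fin]
  have h2 : ex (fun a => (∑ Q ∈ T, X Q (ev c φ a Q)) ^ j * g (ev c φ a P)) =
      ∑ f ∈ Fintype.piFinset (fun _ : Fin j => T), ex (fun a => (∏ i, X (f i) (ev c φ a (f i))) * g (ev c φ a P)) := by
    unfold ex
    rw [← sum_div, sum_comm]
    congr 1
    refine sum_congr rfl fun a _ => ?_
    show (∑ Q ∈ T, X Q (ev c φ a Q)) ^ j * g (ev c φ a P) = _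
    rw [h1 a, sum_mul]
  have h3 : ex (fun a => (∑ Q ∈ T, X Q (ev c φ a Q)) ^ j) =
      ∑ f ∈ Fintype.piFinset (fun _ : Fin j => T), ex (fun a => ∏ i, X (f i) (ev c φ a (f i))) := by
    unfold ex
    rw [← sum_div, sum_comm]
    congr 1
    refine sum_congr rfl fun a _ => ?_
    exact h1 a
  rw [h2, h3, sum_mul]
  refine sum_congr rfl fun f hf => ?_
  rw [Fintype.mem_piFinset] at hf
  have hS : univ.image f ⊆ insert P T := by
    intro Q hQ
    rw [mem_image] at hQ
    obtain ⟨i, _, rfl⟩ := hQ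
    exact mem_insert_of_mem (hf i)
  have hPS : P ∉ univ.image f := by
    intro h4
    rw [mem_image] at h4
    obtain ⟨i, _, h5⟩ := h4
    exact hP (h5 ▸ hf i)
  obtain ⟨b, hb1, hb2⟩ := hsep P (mem_insert_self _ _) (univ.image f) hS hPS
    (card_image_le.trans (by rw [card_univ, Fintype.card_fin]; exact hj))
  refine ex_indep c φ P b hb1 (fun a => ∏ i, X (f i) (ev c φ a (f i))) ?_ g
  intro a t
  refine prod_congr rfl fun i _ => ?_
  rw [ev_add, hb2 (f i) (mem_image_of_mem f (mem_univ i)), mul_zero, add_zero]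

lemma ex_add (F G : (ι → ZMod p) → ℝ) : ex (fun a => F a + G a) = ex F + ex G := by
  unfold ex
  rw [sum_add_distrib, add_div]

lemma ex_smul (c : ℝ) (F : (ι → ZMod p) → ℝ) : ex (fun a => c * F a) = c * ex F := by
  unfold ex
  rw [← mul_sum, mul_div_assoc]

lemma ex_one : ex (fun _ : ι → ZMod p => (1 : ℝ)) = 1 := by
  unfold ex
  have hp0 : (p : ℝ) ≠ 0 := by exact_mod_cast hp.out.ne_zero
  rw [sum_const, card_univ, Fintype.card_fun, ZMod.card, nsmul_eq_mul, mul_one]
  push_cast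
  rw [div_self (by positivity)]

/-- **Moments up to order four.** -/
theorem moments (c : Pt → ZMod p) (φ : ι → Pt → ZMod p) (X : Pt → ZMod p → ℝ) (hX : ∀ P, em (X P) = 0) (T : Finset Pt)
    (hsep : Sep φ T) :
    ex (fun a => ∑ Q ∈ T, X Q (ev c φ a Q)) = 0 ∧
    ex (fun a => (∑ Q ∈ T, X Q (ev c φ a Q)) ^ 2) = ∑ Q ∈ T, em (fun u => X Q u ^ 2) ∧
    ex (fun a => (∑ Q ∈ T, X Q (ev c φ a Q)) ^ 4) ≤ ∑ Q ∈ T, em (fun u => X Q u ^ 4) + 3 * (∑ Q ∈ T, em (fun u => X Q u ^ 2)) ^ 2 := by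
  induction T using Finset.induction_on with
  | empty =>
    simp only [sum_empty]
    unfold ex
    simp
  | insert P T hP ih =>
    have hsep' : Sep φ T := fun Q hQ S hS => hsep Q (mem_insert_of_mem hQ) S (hS.trans (subset_insert _ _))
    obtain ⟨i1, i2, i4⟩ := ih hsep'
    have hpow := fun j hj g => ex_pow c φ X T P hP hsep j hj g
    -- the mixed moments
    have m0 : ∀ g : ZMod p → ℝ, ex (fun a => g (ev c φ a P)) = em g := by
      intro g
      have := hpow 0 (by norm_num) g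
      simp only [pow_zero, one_mul] at this
      rw [this, ex_one, one_mul]
    have m1 : ∀ g : ZMod p → ℝ, ex (fun a => (∑ Q ∈ T, X Q (ev c φ a Q)) * g (ev c φ a P)) = 0 := by
      intro g
      have := hpow 1 (by norm_num) g
      simp only [pow_one] at this
      rw [this, i1, zero_mul]
    have m2 : ∀ g : ZMod p → ℝ, ex (fun a => (∑ Q ∈ T, X Q (ev c φ a Q)) ^ 2 * g (ev c φ a P)) =
        (∑ Q ∈ T, em (fun u => X Q u ^ 2)) * em g := by
      intro g
      rw [hpow 2 (by norm_num) g, i2]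
    have m3 : ex (fun a => (∑ Q ∈ T, X Q (ev c φ a Q)) ^ 3 * X P (ev c φ a P)) = 0 := by
      rw [hpow 3 (by norm_num) (X P), hX, mul_zero]
    have hv0 : ∀ Q, 0 ≤ em (fun u => X Q u ^ 2) := fun Q => by
      unfold em
      exact div_nonneg (sum_nonneg fun u _ => by positivity) (by positivity)
    refine ⟨?_, ?_, ?_⟩
    · have h1 : ∀ a, ∑ Q ∈ insert P T, X Q (ev c φ a Q) = X P (ev c φ a P) + ∑ Q ∈ T, X Q (ev c φ a Q) :=
        fun a => sum_insert hP
      simp only [h1]
      rw [ex_add, i1, m0 (X P), hX, add_zero]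
    · have h1 : ∀ a, (∑ Q ∈ insert P T, X Q (ev c φ a Q)) ^ 2 = X P (ev c φ a P) ^ 2 +
          (2 * ((∑ Q ∈ T, X Q (ev c φ a Q)) * X P (ev c φ a P)) + (∑ Q ∈ T, X Q (ev c φ a Q)) ^ 2) := by
        intro a
        rw [sum_insert hP]
        ring
      simp only [h1]
      rw [ex_add, ex_add, ex_smul, i2, m1 (X P), m0 (fun u => X P u ^ 2), sum_insert hP]
      ring
    · have h1 : ∀ a, (∑ Q ∈ insert P T, X Q (ev c φ a Q)) ^ 4 = X P (ev c φ a P) ^ 4 +
          (4 * ((∑ Q ∈ T, X Q (ev c φ a Q)) * (X P (ev c φ a P) ^ 3)) + (6 * ((∑ Q ∈ T, X Q (ev c φ a Q)) ^ 2 * (X P (ev c φ a P) ^ 2)) +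
          (4 * ((∑ Q ∈ T, X Q (ev c φ a Q)) ^ 3 * X P (ev c φ a P)) + (∑ Q ∈ T, X Q (ev c φ a Q)) ^ 4))) := by
        intro a
        rw [sum_insert hP]
        ring
      simp only [h1]
      rw [ex_add, ex_add, ex_add, ex_add, ex_smul, ex_smul, ex_smul, m3, m1 (fun u => X P u ^ 3), m2 (fun u => X P u ^ 2),
        m0 (fun u => X P u ^ 4), sum_insert hP, sum_insert hP]
      have h2 := hv0 P
      nlinarith [sq_nonneg (em (fun u => X P u ^ 2))]

/-- averages over residues are averages over the members modulo `p` -/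
lemma avg_eq_ex {d : ℕ} (F : (Fin d → ZMod p) → ℝ) : Q282LT.avg d p (fun ν => F (fun i => (ν i : ZMod p))) = ex F := by
  unfold Q282LT.avg ex
  rw [Fintype.card_fin]
  congr 1
  refine sum_nbij' (i := fun ν i => ((ν i : ℕ) : ZMod p)) (j := fun a i => (a i).val) ?_ ?_ ?_ ?_ ?_
  · intro ν _
    exact mem_univ _
  · intro a _
    rw [Fintype.mem_piFinset]
    intro i
    rw [mem_range]
    exact ZMod.val_lt _
  · intro ν hν
    rw [Fintype.mem_piFinset] at hν
    funext i
    exact ZMod.val_natCast_of_lt (mem_range.1 (hν i))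
  · intro a _
    funext i
    exact ZMod.natCast_zmod_val _
  · intro ν _
    show F (fun i => (((ν i : ℕ) : ℤ) : ZMod p)) = F (fun i => ((ν i : ℕ) : ZMod p))
    congr 1
    funext i
    rw [Int.cast_natCast]

lemma zper_mod {d : ℕ} (F : (Fin d → ZMod p) → ℝ) : Q282LT.ZPer p (fun ν : Fin d → ℤ => F (fun i => (ν i : ZMod p))) := by
  intro ν ν' h
  show F _ = F _
  congr 1
  funext i
  rw [← sub_eq_zero, ← Int.cast_sub, ZMod.intCast_zmod_eq_zero_iff_dvd]
  exact h i

/-- average over the residues, transported to another set of indices -/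
lemma ex_equiv {d : ℕ} (e : ι ≃ Fin d) (F : (ι → ZMod p) → ℝ) : ex (fun a : Fin d → ZMod p => F (fun i => a (e i))) = ex F := by
  unfold ex
  rw [Fintype.card_fin, Fintype.card_congr e, Fintype.card_fin]
  congr 1
  exact Equiv.sum_comp (Equiv.arrowCongr e (Equiv.refl (ZMod p))).symm F

/-- the box of the integer vectors `ν` with `m i ≤ ν i < m i + L i` -/
noncomputable def tbox {ι : Type} [Fintype ι] [DecidableEq ι] (m : ι → ℤ) (L : ι → ℕ) : Finset (ι → ℤ) :=
  Fintype.piFinset fun i => Ico (m i) (m i + L i)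

omit [Fintype ι] [DecidableEq ι] in
lemma tbox_equiv [Fintype ι] [DecidableEq ι] {d : ℕ} (e : ι ≃ Fin d) (m : ι → ℤ) (L : ι → ℕ) (P : (ι → ℤ) → Prop) [DecidablePred P] :
    ((tbox m L).filter P).card =
      ((Q282LT.zbox (fun k => m (e.symm k)) (fun k => L (e.symm k))).filter fun ν => P (fun i => ν (e i))).card := by
  refine card_nbij' (i := fun ν k => ν (e.symm k)) (j := fun ν i => ν (e i)) ?_ ?_ ?_ ?_
  · intro ν hν
    rw [mem_coe, mem_filter] at hν
    unfold tbox at hν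
    rw [Fintype.mem_piFinset] at hν
    rw [mem_coe, mem_filter, Q282LT.mem_zbox]
    refine ⟨fun k => ?_, ?_⟩
    · have := hν.1 (e.symm k)
      rw [mem_Ico] at this
      exact this
    · have h1 : (fun i => (fun k => ν (e.symm k)) (e i)) = ν := by
        funext i
        simp
      rw [h1]
      exact hν.2
  · intro ν hν
    rw [mem_coe, mem_filter, Q282LT.mem_zbox] at hν
    rw [mem_coe, mem_filter]
    unfold tbox
    rw [Fintype.mem_piFinset]
    refine ⟨fun i => ?_, hν.2⟩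
    have := hν.1 (e i)
    rw [Equiv.symm_apply_apply] at this
    rw [mem_Ico]
    exact this
  · intro ν _
    funext i
    simp
  · intro ν _
    funext k
    simp

end Q282RH
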